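import Mathlib

set_option autoImplicit false

open MeasureTheory Set Metric ENNReal Filter Topology

namespace Pool.Agent.V5helper3.Kak

/-- The scale weight `2^(-e j) / (j+1)^p`. -/
noncomputable def gw (e : ℝ) (p j : ℕ) : ℝ := (2 : ℝ) ^ (-(e * j)) / ((j : ℝ) + 1) ^ p

theorem gw_pos (e : ℝ) (p j : ℕ) : 0 < gw e p j := by
  unfold gw; positivity

theorem gw_anti {e : ℝ} {p q : ℕ} (h : p ≤ q) (j : ℕ) : gw e q j ≤ gw e p j := by
  unfold gw
  have h1 : (1 : ℝ) ≤ (j : ℝ) + 1 := by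
    have : (0 : ℝ) ≤ (j : ℝ) := Nat.cast_nonneg j
    linarith
  have h2 : ((j : ℝ) + 1) ^ p ≤ ((j : ℝ) + 1) ^ q := pow_le_pow_right₀ h1 h
  gcongr

variable {Z : Type*} [PseudoEMetricSpace Z] [MeasureSpace Z]

/-- Lower bound at some scale, for every decomposition of `K` in pieces. -/
def BigC (e c A : ℝ) (p : ℕ) (K : Set Z) : Prop :=
  ∀ Y : ℕ → Set Z, K ⊆ ⋃ j, Y j →
    ∃ j, ENNReal.ofReal (c * gw e p j) ≤ volume (thickening (A * (1 / 2) ^ j) (Y j))

/-- `K` has codimension at most `e`, up to logarithms, in a uniform sense. -/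
def Big (e : ℝ) (K : Set Z) : Prop := ∃ (c A : ℝ) (p : ℕ), 0 < c ∧ 0 < A ∧ BigC e c A p K

theorem BigC.mono {e c A c' A' : ℝ} {p p' : ℕ} {K K' : Set Z} (h : BigC e c A p K)
    (hc : c' ≤ c) (hA : A ≤ A') (hp : p ≤ p') (hc0 : 0 ≤ c) (hK : K ⊆ K') :
    BigC e c' A' p' K' := by
  intro Y hY
  obtain ⟨j, hj⟩ := h Y (hK.trans hY)
  refine ⟨j, le_trans (ENNReal.ofReal_le_ofReal ?_) (hj.trans (measure_mono ?_))⟩
  · have h1 : gw e p' j ≤ gw e p j := gw_anti hp j
    calc c' * gw e p' j ≤ c * gw e p' j := by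
          have := gw_pos e p' j
          gcongr
      _ ≤ c * gw e p j := by gcongr
  · apply thickening_mono
    gcongr

theorem Big.mono {e : ℝ} {K K' : Set Z} (h : Big e K) (hK : K ⊆ K') : Big e K' := by
  obtain ⟨c, A, p, hc, hA, h⟩ := h
  exact ⟨c, A, p, hc, hA, h.mono le_rfl le_rfl le_rfl hc.le hK⟩

/-- One natural number controls all constants. -/
theorem Big.exists_nat {e : ℝ} {K : Set Z} (h : Big e K) :
    ∃ l : ℕ, ∀ l' : ℕ, l ≤ l' → BigC e (1 / ((l' : ℝ) + 1)) ((l' : ℝ) + 1) l' K := by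
  obtain ⟨c, A, p, hc, hA, h⟩ := h
  obtain ⟨l, hl⟩ := exists_nat_ge (max (max (1 / c) A) (p : ℝ))
  refine ⟨l, fun l' hl' => ?_⟩
  have hl'' : (l : ℝ) ≤ (l' : ℝ) := by exact_mod_cast hl'
  have h1 : 1 / c ≤ (l' : ℝ) := le_trans (le_trans (le_max_left _ _) (le_max_left _ _)) (hl.trans hl'')
  have h2 : A ≤ (l' : ℝ) := le_trans (le_trans (le_max_right _ _) (le_max_left _ _)) (hl.trans hl'')
  have h3 : (p : ℝ) ≤ (l' : ℝ) := le_trans (le_max_right _ _) (hl.trans hl'')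
  have h3' : p ≤ l' := by exact_mod_cast h3
  refine h.mono ?_ (by linarith) h3' hc.le Subset.rfl
  rw [div_le_iff₀ (by positivity)]
  rw [div_le_iff₀ hc] at h1
  nlinarith

/-- Countable stability. -/
theorem BigC.iUnion {e c A : ℝ} {p : ℕ} (hc : 0 < c) {K : ℕ → Set Z}
    (h : BigC e c A p (⋃ l, K l)) : ∃ l, BigC e (c * (1 / 2) ^ (l + 2)) A p (K l) := by
  by_contra hcon
  simp only [BigC, not_exists, not_forall, not_le] at hcon
  choose Y hY hlt using hcon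
  obtain ⟨j, hj⟩ := h (fun j => ⋃ l, Y l j) (by
    intro x hx
    obtain ⟨l, hl⟩ := mem_iUnion.1 hx
    obtain ⟨j, hj⟩ := mem_iUnion.1 (hY l hl)
    exact mem_iUnion.2 ⟨j, mem_iUnion.2 ⟨l, hj⟩⟩)
  rw [thickening_iUnion] at hj
  have h1 : volume (⋃ l, thickening (A * (1 / 2) ^ j) (Y l j)) ≤
      ∑' l, ENNReal.ofReal (c * (1 / 2) ^ (l + 2) * gw e p j) :=
    (measure_iUnion_le _).trans (ENNReal.tsum_le_tsum fun l => (hlt l j).le)
  have hg := gw_pos e p j
  have hs : HasSum (fun l : ℕ => c * (1 / 2 : ℝ) ^ (l + 2) * gw e p j) (c * gw e p j / 2) := by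
    have h2 := hasSum_geometric_two.mul_left (c * gw e p j / 4)
    have hf : (fun l : ℕ => c * (1 / 2 : ℝ) ^ (l + 2) * gw e p j) =
        fun l : ℕ => c * gw e p j / 4 * (1 / 2) ^ l := by
      funext l
      rw [pow_add]
      ring
    have hv : c * gw e p j / 2 = c * gw e p j / 4 * 2 := by ring
    rw [hf, hv]
    exact h2
  rw [← ENNReal.ofReal_tsum_of_nonneg (fun l => by positivity) hs.summable, hs.tsum_eq] at h1
  have h3 := hj.trans h1
  rw [ENNReal.ofReal_le_ofReal_iff (by positivity)] at h3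
  have : 0 < c * gw e p j := by positivity
  linarith

theorem Big.iUnion {e : ℝ} {K : ℕ → Set Z} (h : Big e (⋃ l, K l)) : ∃ l, Big e (K l) := by
  obtain ⟨c, A, p, hc, hA, h⟩ := h
  obtain ⟨l, hl⟩ := h.iUnion hc
  exact ⟨l, _, A, p, by positivity, hA, hl⟩

/-- A set of positive outer measure is big. -/
theorem big_of_volume_ne_zero {K : Set Z} (h : volume K ≠ 0) : Big 0 K := by
  -- `M` bounds `∑ 1/(j+1)^2`
  have hsum : Summable (fun j : ℕ => 1 / ((j : ℝ) + 1) ^ 2) := by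
    have := (summable_nat_add_iff 1).2 (Real.summable_one_div_nat_pow.2 (by norm_num : 1 < 2))
    simpa using this
  set M := ∑' j : ℕ, 1 / ((j : ℝ) + 1) ^ 2 with hM
  have hMpos : 0 < M := by
    refine hsum.tsum_pos (fun j => by positivity) 0 (by norm_num)
  obtain ⟨c, hc, hcK⟩ : ∃ c : ℝ, 0 < c ∧ ENNReal.ofReal (c * M) < volume K := by
    obtain ⟨r, hr0, hr⟩ := ENNReal.lt_iff_exists_nnreal_btwn.1 (pos_iff_ne_zero.2 h)
    have hr0' : 0 < (r : ℝ) := by exact_mod_cast hr0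
    refine ⟨r / M, by positivity, ?_⟩
    rw [div_mul_cancel₀ _ hMpos.ne', ENNReal.ofReal_coe_nnreal]
    exact hr
  refine ⟨c, 1, 2, hc, one_pos, fun Y hY => ?_⟩
  by_contra hcon
  simp only [not_exists, not_le] at hcon
  have h1 : volume K ≤ ∑' j, ENNReal.ofReal (c * gw 0 2 j) := by
    calc volume K ≤ volume (⋃ j, Y j) := measure_mono hY
      _ ≤ ∑' j, volume (Y j) := measure_iUnion_le _
      _ ≤ ∑' j, volume (thickening (1 * (1 / 2) ^ j) (Y j)) := by
          refine ENNReal.tsum_le_tsum fun j => measure_mono ?_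
          exact self_subset_thickening (by positivity) _
      _ ≤ _ := ENNReal.tsum_le_tsum fun j => (hcon j).le
  have hgw : ∀ j, c * gw 0 2 j = c * (1 / ((j : ℝ) + 1) ^ 2) := by
    intro j
    simp [gw]
  simp_rw [hgw] at h1
  rw [← ENNReal.ofReal_tsum_of_nonneg (fun l => by positivity) (hsum.mul_left c), tsum_mul_left] at h1
  exact absurd hcK (not_lt.2 h1)

/-- Neighbourhoods of log-rich sets. -/
theorem Big.volume_thickening {K : Set Z} (h : Big 0 K) :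
    ∃ c : ℝ, 0 < c ∧ ∃ p : ℕ, ∀ δ : ℝ, 0 < δ → δ ≤ 1 →
      ENNReal.ofReal (c / (1 + Real.log (1 / δ)) ^ p) ≤ volume (thickening δ K) := by
  obtain ⟨c, A, p, hc, hA, h⟩ := h
  -- `j + 1 ≤ B (1 + log (1/δ))`
  obtain ⟨L, hL⟩ : ∃ L : ℕ, A ≤ (2 : ℝ) ^ L := by
    obtain ⟨L, hL⟩ := pow_unbounded_of_one_lt A (by norm_num : (1 : ℝ) < 2)
    exact ⟨L, hL.le⟩
  refine ⟨c / ((L : ℝ) + 4) ^ p, by positivity, p, fun δ hδ hδ1 => ?_⟩
  have hlog : 0 ≤ Real.log (1 / δ) := Real.log_nonneg (by rw [le_div_iff₀ hδ]; linarith)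
  obtain ⟨i, hi⟩ : ∃ i : ℕ, (i : ℝ) ≤ 2 * Real.log (1 / δ) + 1 ∧ 1 / δ ≤ 2 ^ i := by
    refine ⟨⌈2 * Real.log (1 / δ)⌉₊, (Nat.ceil_lt_add_one (by positivity)).le, ?_⟩
    have h2 : 2 * Real.log (1 / δ) ≤ ⌈2 * Real.log (1 / δ)⌉₊ := Nat.le_ceil _
    have h3 : (1 / 2 : ℝ) ≤ Real.log 2 := by
      have := Real.log_two_gt_d9
      linarith
    rw [← Real.log_le_log_iff (by positivity) (by positivity), Real.log_pow]
    nlinarith
  have hA' : A * (1 / 2) ^ (i + L) ≤ δ := by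
    have h4 : A * (1 / 2) ^ (i + L) = (A / 2 ^ L) * (1 / 2 ^ i) := by
      rw [one_div, inv_pow, pow_add]
      field_simp
    rw [h4]
    have h5 : A / 2 ^ L ≤ 1 := by
      rw [div_le_one (by positivity)]
      exact hL
    have h6 : 1 / (2 : ℝ) ^ i ≤ δ := by
      rw [div_le_iff₀ (by positivity)]
      have := hi.2
      rw [div_le_iff₀ hδ] at this
      linarith
    calc A / 2 ^ L * (1 / 2 ^ i) ≤ 1 * (1 / 2 ^ i) := by gcongr
      _ ≤ δ := by linarith
  obtain ⟨j, hj⟩ := h (fun j => if j = i + L then K else ∅) (by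
    intro x hx
    exact mem_iUnion.2 ⟨i + L, by simpa using hx⟩)
  by_cases hji : j = i + L
  · subst hji
    simp only [if_true] at hj
    refine le_trans (ENNReal.ofReal_le_ofReal ?_) (hj.trans (measure_mono (thickening_mono hA' K)))
    unfold gw
    simp only [zero_mul, neg_zero, Real.rpow_zero]
    rw [div_div, mul_one_div, ← mul_pow]
    have h7 : (((i + L : ℕ) : ℝ) + 1) ≤ ((L : ℝ) + 4) * (1 + Real.log (1 / δ)) := by
      push_cast
      have hL0 : (0 : ℝ) ≤ (L : ℝ) := Nat.cast_nonneg L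
      nlinarith [hi.1]
    gcongr
  · exfalso
    simp only [if_neg hji, thickening_empty, measure_empty, nonpos_iff_eq_zero,
      ENNReal.ofReal_eq_zero] at hj
    have : 0 < c * gw 0 p j := mul_pos hc (gw_pos _ _ _)
    linarith

end Pool.Agent.V5helper3.Kak
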