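import Pool.Agent.V5helper3.Kak.Smooth

set_option autoImplicit false
set_option linter.unusedSectionVars false
set_option linter.deprecated false

open MeasureTheory Set Metric ENNReal NNReal Filter Topology Module

namespace Pool.Agent.V5helper3.Kak

theorem Large.dimH {k : ℕ} {t : ℝ} {P : Set (E k)} (h : Large t P) :
    ENNReal.ofReal t ≤ dimH P := by
  rcases h with h | ⟨hk, ht, h⟩
  · exact h
  · subst hk
    rw [ht]
    exact davies_dimH h

/-- The operator with given columns. -/
noncomputable def ofCols (k' m : ℕ) : (Fin k' → E m) → E k' →L[ℝ] E m := fun v =>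
  ∑ j, (ContinuousLinearMap.smulRightL ℝ (E k') (E m)) (EuclideanSpace.proj j) (v j)

theorem ofCols_apply {k' m : ℕ} (v : Fin k' → E m) (x : E k') :
    ofCols k' m v x = ∑ j, x j • v j := by
  unfold ofCols
  rw [ContinuousLinearMap.sum_apply]
  refine Finset.sum_congr rfl fun j _ => ?_
  rfl

theorem cols_slices {p k k' m : ℕ} (f : Fin k' → E p → E m) (π : E k →ₗ[ℝ] E k')
    (A : Set (E p)) (K : Set (E k × E m)) (t γ : ℝ) (hπ : Function.Surjective π)
    (hA : volume A ≠ 0) (hf : Submersive f A) (ht : 0 < t)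
    (hK : ∀ s ∈ A, ∃ B, PackingDimLE γ B ∧ Large t (trace (fun j => f j s) π B K)) :
    ENNReal.ofReal (2 * t - k + (min m k' : ℕ) - 2 * γ) ≤ _root_.dimH K := by
  obtain ⟨D, hD1, hD2⟩ := hf
  set F : E p → E k' →L[ℝ] E m := fun s => ofCols k' m (fun j => f j s) with hF
  set DD : E p → E p →L[ℝ] E k' →L[ℝ] E m := fun s =>
    ∑ j, ((ContinuousLinearMap.smulRightL ℝ (E k') (E m)) (EuclideanSpace.proj j)).comp (D j s) with hDD
  have hDDapp : ∀ s σ x, DD s σ x = ∑ j, x j • D j s σ := by
    intro s σ x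
    rw [hDD]
    dsimp only
    rw [ContinuousLinearMap.sum_apply, ContinuousLinearMap.sum_apply]
    refine Finset.sum_congr rfl fun j _ => ?_
    rfl
  refine smooth_slices F DD (LinearMap.toContinuousLinearMap π) hπ 0 A hA ?_ ?_ ht K ?_
  · intro s hs
    have h1 : ∀ j ∈ (Finset.univ : Finset (Fin k')), HasFDerivWithinAt
        (fun s => (ContinuousLinearMap.smulRightL ℝ (E k') (E m)) (EuclideanSpace.proj j) (f j s))
        (((ContinuousLinearMap.smulRightL ℝ (E k') (E m)) (EuclideanSpace.proj j)).comp (D j s)) A s :=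
      fun j _ => (((ContinuousLinearMap.smulRightL ℝ (E k') (E m))
        (EuclideanSpace.proj j)).hasFDerivAt).comp_hasFDerivWithinAt s (hD1 j s hs)
    have h2 := HasFDerivWithinAt.fun_sum h1
    exact h2
  · intro s hs x hx
    have h1 := hD2 s hs x hx
    simpa only [hDDapp] using h1
  · intro s hs
    obtain ⟨B, hB, hd⟩ := hK s hs
    refine ⟨B, hB, ?_⟩
    have htr : {x : E k | ∃ b ∈ B, (x, (0 : E k →L[ℝ] E m) x +
        F s (LinearMap.toContinuousLinearMap π x) + b) ∈ K} = trace (fun j => f j s) π B K := by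
      ext x
      simp only [trace, mem_setOf_eq, hF, ofCols_apply, ContinuousLinearMap.zero_apply, zero_add,
        LinearMap.coe_toContinuousLinearMap']
    rw [htr]
    exact hd.dimH

end Pool.Agent.V5helper3.Kak
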