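import Pool.Agent.V5helper3.Kak.Stm

set_option autoImplicit false

open MeasureTheory Set Metric ENNReal Topology

namespace Pool.Agent.V5helper3.Kak

/-- A family of `k`-planes `V_s = {(x, T_s x)}` in `ℝ^k × ℝ^m` is *transversal of order `r`* for
the measure `μ` on the parameters if for all `r' < r` and all `0 < δ ≤ 1` the integral over all
pairs `(s, s')` of the measure of the set of points `x` of the unit ball of `ℝ^k` at which `V_s`
and `V_s'` are `δ`-close is `O(δ^r')`. -/
def Transversal {k m : ℕ} {S : Type} [MeasurableSpace S] (μ : Measure S)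
    (T : S → E k →L[ℝ] E m) (r : ℝ) : Prop :=
  ∀ r' < r, ∃ C : ℝ, ∀ δ : ℝ, 0 < δ → δ ≤ 1 →
    ∫⁻ s, ∫⁻ s', volume {x : E k | ‖x‖ ≤ 1 ∧ ‖T s x - T s' x‖ ≤ δ} ∂μ ∂μ ≤
      ENNReal.ofReal (C * δ ^ r')

/-- The class of *fibred sets* in `ℝ^n`, with *defect* `e`.  A set of positive outer measure has
defect `0`.  A set `K ⊆ ℝ^n` has defect `2 e + (m - r) + 2 γ` if, in some linear coordinates
`φ : ℝ^n ≃ ℝ^k × ℝ^m`, there are a family of `k`-planes `V_s = {(x, T_s x)}`, transversal of order
`r` for a measure `μ`, a set `A` of parameters of positive outer measure, and for each `s ∈ A` a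
set `B s ⊆ ℝ^m` of packing dimension at most `γ`, such that for each `s ∈ A` the projection to
`ℝ^k` of the trace of `K` on `V_s + ({0} × B s)` has defect `e`.  No measurability of `K`, of `A`,
or of the dependence of `B s` on `s` is assumed. -/
inductive Fibred : (n : ℕ) → (e : ℝ) → Set (E n) → Prop
  | pos {n : ℕ} (K : Set (E n)) (h : volume K ≠ 0) : Fibred n 0 K
  | step {n k m : ℕ} (φ : E n ≃L[ℝ] E k × E m) {S : Type} [MeasurableSpace S]
      (μ : Measure S) (T : S → E k →L[ℝ] E m) (hT : Measurable T) (r : ℝ)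
      (hμ : Transversal μ T r) (A : Set S) (hA : μ A ≠ 0) (γ : ℝ) (B : S → Set (E m))
      (hB : ∀ s ∈ A, PackingDimLE γ (B s)) (e : ℝ) (K : Set (E n))
      (hK : ∀ s ∈ A, Fibred k e {x | ∃ b ∈ B s, φ.symm (x, T s x + b) ∈ K}) :
      Fibred n (2 * e + (m - r) + 2 * γ) K

end Pool.Agent.V5helper3.Kak
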