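import Pool.Agent.V5helper3.Kak.Big

set_option autoImplicit false

open MeasureTheory Set Metric ENNReal NNReal Filter Topology Module

namespace Pool.Agent.V5helper3.Kak

/-- An exponential gain beats the weight. -/
theorem exists_bound_gw (e : ℝ) {γ : ℝ} (hγ : 0 < γ) (p : ℕ) :
    ∃ M : ℝ, 0 < M ∧ ∀ j : ℕ, (2 : ℝ) ^ (-((e + γ) * j)) ≤ M * gw e p j := by
  set r : ℝ := (2 : ℝ) ^ (-γ) with hr
  have hr0 : 0 < r := by positivity
  have hr1 : r < 1 := Real.rpow_lt_one_of_one_lt_of_neg (by norm_num) (by linarith)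
  have ht := tendsto_pow_const_mul_const_pow_of_abs_lt_one p (r := r) (by rw [abs_of_pos hr0]; exact hr1)
  obtain ⟨M, hM⟩ := ht.bddAbove_range
  have hM' : ∀ n : ℕ, (n : ℝ) ^ p * r ^ n ≤ M := fun n => hM (mem_range_self n)
  have hM0 : 0 < M := by
    have := hM' 1
    simp only [Nat.cast_one, one_pow, one_mul, pow_one] at this
    linarith
  refine ⟨M / r, by positivity, fun j => ?_⟩
  unfold gw
  have h1 := hM' (j + 1)
  have h2 : (2 : ℝ) ^ (-((e + γ) * j)) = (2 : ℝ) ^ (-(e * j)) * r ^ j := by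
    rw [hr, ← Real.rpow_natCast ((2 : ℝ) ^ (-γ)) j, ← Real.rpow_mul (by norm_num),
      ← Real.rpow_add (by norm_num)]
    congr 1
    ring
  rw [h2]
  have hj : (0 : ℝ) < ((j : ℝ) + 1) ^ p := by positivity
  have h3 : r ^ j ≤ M / r / ((j : ℝ) + 1) ^ p := by
    rw [le_div_iff₀ hj, le_div_iff₀ hr0]
    push_cast at h1
    calc r ^ j * ((j : ℝ) + 1) ^ p * r = ((j : ℝ) + 1) ^ p * r ^ (j + 1) := by ring
      _ ≤ M := h1
  calc (2 : ℝ) ^ (-(e * j)) * r ^ j ≤ (2 : ℝ) ^ (-(e * j)) * (M / r / ((j : ℝ) + 1) ^ p) := by gcongr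
    _ = _ := by ring

variable {Z : Type*} [NormedAddCommGroup Z] [NormedSpace ℝ Z] [MeasureSpace Z] [BorelSpace Z]
  [FiniteDimensional ℝ Z] [Measure.IsAddHaarMeasure (volume : Measure Z)]

theorem volume_ball_le (x : Z) {r : ℝ} (hr : 0 < r) :
    volume (ball x r) = ENNReal.ofReal (r ^ finrank ℝ Z) * volume (ball (0 : Z) 1) := by
  rw [← Measure.addHaar_ball_mul_of_pos volume x hr, mul_one]

/-- The neighbourhood of a set of small diameter. -/
theorem volume_thickening_le (A : ℝ) (hA : 0 < A) (t : Set Z) {ρ : ℝ} (hρ : 0 < ρ)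
    (ht : ediam t ≤ ENNReal.ofReal ρ) :
    volume (thickening (A * ρ) t) ≤
      ENNReal.ofReal (((A + 1) * ρ) ^ finrank ℝ Z) * volume (ball (0 : Z) 1) := by
  rcases t.eq_empty_or_nonempty with rfl | ⟨x, hx⟩
  · simp
  · rw [← volume_ball_le x (by positivity)]
    apply measure_mono
    intro y hy
    rw [mem_thickening_iff] at hy
    obtain ⟨z, hz, hyz⟩ := hy
    have h1 : dist z x ≤ ρ := by
      have h2 : edist z x ≤ ENNReal.ofReal ρ := (edist_le_ediam_of_mem hz hx).trans ht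
      rw [edist_dist, ENNReal.ofReal_le_ofReal_iff hρ.le] at h2
      exact h2
    rw [mem_ball]
    calc dist y x ≤ dist y z + dist z x := dist_triangle _ _ _
      _ < A * ρ + ρ := by linarith
      _ = (A + 1) * ρ := by ring

/-- A big set has large Hausdorff dimension. -/
theorem Big.le_dimH {e : ℝ} {K : Set Z} (h : Big e K) :
    ENNReal.ofReal (finrank ℝ Z - e) ≤ dimH K := by
  by_contra hlt
  rw [not_le] at hlt
  obtain ⟨u, hu1, hu2⟩ := ENNReal.lt_iff_exists_nnreal_btwn.1 hlt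
  have hu : (u : ℝ) < finrank ℝ Z - e := by
    rw [← ENNReal.ofReal_coe_nnreal] at hu2
    exact (ENNReal.ofReal_lt_ofReal_iff_of_nonneg u.2).1 hu2
  have hu0 : 0 < (u : ℝ) := by
    have : (0 : ℝ≥0∞) < u := lt_of_le_of_lt zero_le hu1
    exact_mod_cast this
  have hH := hausdorffMeasure_of_dimH_lt hu1
  obtain ⟨c, A, p, hc, hA, hB⟩ := h
  set γ : ℝ := finrank ℝ Z - u - e with hγ
  have hγ0 : 0 < γ := by rw [hγ]; linarith
  obtain ⟨M, hM0, hM⟩ := exists_bound_gw e hγ0 p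
  set V : ℝ≥0∞ := volume (ball (0 : Z) 1) with hV
  have hVtop : V ≠ ∞ := measure_ball_lt_top.ne
  set C1 : ℝ≥0∞ := ENNReal.ofReal ((A + 1) ^ finrank ℝ Z * M) * V * (2 ^ (u : ℝ) + 1) with hC1
  have hC1top : C1 ≠ ∞ := by
    refine ENNReal.mul_ne_top (ENNReal.mul_ne_top ENNReal.ofReal_ne_top hVtop) ?_
    exact ENNReal.add_ne_top.2 ⟨ENNReal.rpow_ne_top_of_nonneg hu0.le (by norm_num), by norm_num⟩
  obtain ⟨η, hη0, hη⟩ := ENNReal.exists_nnreal_pos_mul_lt hC1top
    (show ENNReal.ofReal c ≠ 0 by simpa using hc)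
  have hη0' : (0 : ℝ≥0∞) < η := by exact_mod_cast hη0
  -- a good cover
  have hcov : (⨅ (t : ℕ → Set Z) (_ : K ⊆ ⋃ n, t n) (_ : ∀ n, ediam (t n) ≤ 1),
      ∑' n, ⨆ _ : (t n).Nonempty, ediam (t n) ^ (u : ℝ)) < η := by
    refine lt_of_le_of_lt ?_ hη0'
    rw [← hH, Measure.hausdorffMeasure_apply]
    exact le_iSup₂ (α := ℝ≥0∞) 1 one_pos
  simp only [iInf_lt_iff] at hcov
  obtain ⟨t, htK, ht1, hsum⟩ := hcov
  -- choose the scales
  have hscale : ∀ i : ℕ, ∃ j : ℕ, ediam (t i) ≤ ENNReal.ofReal ((1 / 2) ^ j) ∧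
      ENNReal.ofReal ((1 / 2) ^ j) ^ (u : ℝ) ≤
        2 ^ (u : ℝ) * (⨆ _ : (t i).Nonempty, ediam (t i) ^ (u : ℝ)) + η * (1 / 2) ^ (i + 1) := by
    intro i
    rcases eq_or_ne (ediam (t i)) 0 with h0 | h0
    · have hlim : Tendsto (fun j : ℕ => ENNReal.ofReal ((1 / 2) ^ j) ^ (u : ℝ)) atTop (𝓝 0) := by
        have h1 : Tendsto (fun j : ℕ => ENNReal.ofReal ((1 / 2 : ℝ) ^ j)) atTop (𝓝 0) := by
          have h2 := tendsto_pow_atTop_nhds_zero_of_lt_one (r := (1 / 2 : ℝ)) (by norm_num) (by norm_num)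
          have h3 := ENNReal.tendsto_ofReal h2
          simpa using h3
        have h4 := h1.ennrpow_const (u : ℝ)
        simpa [hu0] using h4
      have hpos : (0 : ℝ≥0∞) < η * (1 / 2) ^ (i + 1) :=
        ENNReal.mul_pos hη0'.ne' (by simp)
      obtain ⟨j, hj⟩ := (hlim.eventually (gt_mem_nhds hpos)).exists
      exact ⟨j, by rw [h0]; exact zero_le, hj.le.trans le_add_self⟩
    · have hne : (t i).Nonempty := by
        by_contra hcon
        rw [not_nonempty_iff_eq_empty] at hcon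
        rw [hcon] at h0
        simp at h0
      have htop : ediam (t i) ≠ ∞ := ne_top_of_le_ne_top (by norm_num) (ht1 i)
      have hD0 : 0 < (ediam (t i)).toReal := ENNReal.toReal_pos h0 htop
      have hD1 : (ediam (t i)).toReal ≤ 1 := by
        have := ENNReal.toReal_mono (by norm_num) (ht1 i)
        simpa using this
      obtain ⟨j, hj1, hj2⟩ := exists_nat_pow_near_of_lt_one hD0 hD1
        (by norm_num : (0 : ℝ) < 1 / 2) (by norm_num)
      refine ⟨j, ?_, ?_⟩
      · rw [← ENNReal.ofReal_toReal htop]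
        exact ENNReal.ofReal_le_ofReal hj2
      · refine le_trans ?_ le_self_add
        rw [iSup_pos hne, ← ENNReal.mul_rpow_of_nonneg _ _ hu0.le]
        refine ENNReal.rpow_le_rpow ?_ hu0.le
        rw [← ENNReal.ofReal_toReal htop]
        have h2 : (2 : ℝ≥0∞) = ENNReal.ofReal 2 := by simp
        rw [h2, ← ENNReal.ofReal_mul (by norm_num)]
        refine ENNReal.ofReal_le_ofReal ?_
        rw [pow_succ] at hj1
        linarith
  choose J hJ1 hJ2 using hscale
  obtain ⟨j, hj⟩ := hB (fun j => ⋃ i, if J i = j then t i else ∅) (by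
    intro x hx
    obtain ⟨i, hi⟩ := mem_iUnion.1 (htK hx)
    exact mem_iUnion.2 ⟨J i, mem_iUnion.2 ⟨i, by simpa using hi⟩⟩)
  rw [thickening_iUnion] at hj
  set ρ : ℝ := (1 / 2) ^ j with hρ
  have hρ0 : 0 < ρ := by positivity
  have hterm : ∀ i, volume (thickening (A * ρ) (if J i = j then t i else ∅)) ≤
      ENNReal.ofReal ((A + 1) ^ finrank ℝ Z * M) * ENNReal.ofReal (gw e p j) * V *
        ENNReal.ofReal ((1 / 2) ^ (J i)) ^ (u : ℝ) := by
    intro i
    split_ifs with hi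
    · have h1 := volume_thickening_le A hA (t i) hρ0 (by rw [hρ, ← hi]; exact hJ1 i)
      refine h1.trans ?_
      rw [hi, ← hρ, ENNReal.ofReal_rpow_of_pos hρ0]
      rw [mul_right_comm, ← ENNReal.ofReal_mul (by positivity),
        ← ENNReal.ofReal_mul (by have := gw_pos e p j; positivity)]
      refine mul_le_mul_left (ENNReal.ofReal_le_ofReal ?_) _
      have h2 := hM j
      have h3 : ρ ^ finrank ℝ Z = (2 : ℝ) ^ (-((e + γ) * j)) * ρ ^ (u : ℝ) := by
        have h4 : ρ = (2 : ℝ) ^ (-(j : ℝ)) := by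
          rw [hρ, Real.rpow_neg (by norm_num), Real.rpow_natCast, one_div, inv_pow]
        rw [h4, ← Real.rpow_natCast, ← Real.rpow_mul (by norm_num), ← Real.rpow_mul (by norm_num),
          ← Real.rpow_add (by norm_num)]
        congr 1
        rw [hγ]
        ring
      rw [mul_pow, h3]
      calc (A + 1) ^ finrank ℝ Z * ((2 : ℝ) ^ (-((e + γ) * j)) * ρ ^ (u : ℝ)) ≤
          (A + 1) ^ finrank ℝ Z * ((M * gw e p j) * ρ ^ (u : ℝ)) := by gcongr
        _ = _ := by ring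
    · simp
  have h5 : volume (⋃ i, thickening (A * ρ) (if J i = j then t i else ∅)) ≤
      ENNReal.ofReal ((A + 1) ^ finrank ℝ Z * M) * ENNReal.ofReal (gw e p j) * V *
        ((2 ^ (u : ℝ) + 1) * η) := by
    refine (measure_iUnion_le _).trans ((ENNReal.tsum_le_tsum hterm).trans ?_)
    rw [ENNReal.tsum_mul_left]
    refine mul_le_mul_right (le_trans (ENNReal.tsum_le_tsum hJ2) ?_) _
    rw [ENNReal.tsum_add, ENNReal.tsum_mul_left, ENNReal.tsum_mul_left, add_mul, one_mul]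
    refine add_le_add (mul_le_mul_right hsum.le _) ?_
    have h6 : ∑' i : ℕ, (1 / 2 : ℝ≥0∞) ^ (i + 1) = 1 := by
      rw [ENNReal.tsum_geometric_add_one, one_div, ENNReal.one_sub_inv_two, inv_inv,
        ENNReal.inv_mul_cancel (by norm_num) (by norm_num)]
    rw [h6, mul_one]
  have h7 := hj.trans h5
  have hg := gw_pos e p j
  rw [ENNReal.ofReal_mul hc.le] at h7
  have h8 : ENNReal.ofReal c * ENNReal.ofReal (gw e p j) ≤ (C1 * η) * ENNReal.ofReal (gw e p j) := by
    refine h7.trans (le_of_eq ?_)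
    rw [hC1]
    ring
  have h9 : ENNReal.ofReal c ≤ C1 * η := by
    rwa [ENNReal.mul_le_mul_iff_left (by simpa using hg) ENNReal.ofReal_ne_top] at h8
  rw [mul_comm] at h9
  exact absurd hη (not_lt.2 h9)

/-- Covering a set by balls whose number is controlled by the volume of a neighbourhood. -/
theorem exists_cover (Y : Set Z) {ρ : ℝ} (hρ : 0 < ρ) :
    ∃ u : Set Z, u.Countable ∧ Y ⊆ ⋃ b ∈ u, closedBall b (4 * ρ) ∧
      (∑' _ : u, (1 : ℝ≥0∞)) * (ENNReal.ofReal (ρ ^ finrank ℝ Z) * volume (ball (0 : Z) 1)) ≤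
        volume (thickening (2 * ρ) Y) := by
  obtain ⟨u, huY, hdisj, hcov⟩ := Vitali.exists_disjoint_subfamily_covering_enlargement_closedBall
    Y (fun y : Z => y) (fun _ => ρ) ρ (fun _ _ => le_rfl) 4 (by norm_num)
  have hcount : u.Countable := hdisj.countable_of_nonempty_interior (fun b _ => by
    refine ⟨b, ?_⟩
    exact interior_mono ball_subset_closedBall (by rw [isOpen_ball.interior_eq]; exact mem_ball_self hρ))
  refine ⟨u, hcount, ?_, ?_⟩
  · intro y hy
    obtain ⟨b, hb, hyb⟩ := hcov y hy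
    exact mem_biUnion hb (hyb (mem_closedBall_self hρ.le))
  · have h1 : volume (⋃ b ∈ u, closedBall b ρ) =
        ∑' b : u, volume (closedBall (b : Z) ρ) :=
      measure_biUnion hcount hdisj (fun b _ => isClosed_closedBall.measurableSet)
    have h2 : ∀ b : u, volume (closedBall (b : Z) ρ) =
        ENNReal.ofReal (ρ ^ finrank ℝ Z) * volume (ball (0 : Z) 1) := fun b =>
      Measure.addHaar_closedBall volume (b : Z) hρ.le
    simp_rw [h2] at h1
    rw [← ENNReal.tsum_mul_right]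
    simp only [one_mul]
    rw [← h1]
    apply measure_mono
    intro y hy
    obtain ⟨b, hb, hyb⟩ := mem_iUnion₂.1 hy
    rw [mem_thickening_iff]
    refine ⟨b, huY hb, ?_⟩
    rw [mem_closedBall] at hyb
    linarith

/-- A set of large Hausdorff dimension is big. -/
theorem big_of_lt_dimH {t : ℝ≥0} {K : Set Z} (h : (t : ℝ≥0∞) < dimH K) :
    Big (finrank ℝ Z - t) K := by
  by_contra hnot
  obtain ⟨t', ht1, ht2⟩ := ENNReal.lt_iff_exists_nnreal_btwn.1 h
  have htt : (t : ℝ) < t' := by exact_mod_cast ht1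
  have ht'0 : 0 < (t' : ℝ) := lt_of_le_of_lt t.2 htt
  have hH := hausdorffMeasure_of_lt_dimH ht2
  set V : ℝ≥0∞ := volume (ball (0 : Z) 1) with hV
  have hVtop : V ≠ ∞ := measure_ball_lt_top.ne
  have hV0 : V ≠ 0 := (measure_ball_pos volume (0 : Z) one_pos).ne'
  set d := finrank ℝ Z with hd
  have hY : ∀ n : ℕ, ∃ Y : ℕ → Set Z, K ⊆ ⋃ j, Y j ∧ ∀ j, volume (thickening (1 * (1 / 2) ^ j) (Y j)) <
      ENNReal.ofReal (1 / ((n : ℝ) + 1) * gw (d - t) 0 j) := by
    intro n
    have h1 : ¬ BigC (d - t) (1 / ((n : ℝ) + 1)) 1 0 K := fun h2 =>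
      hnot ⟨_, _, _, by positivity, one_pos, h2⟩
    simpa only [BigC, not_exists, not_forall, not_le, exists_prop] using h1
  choose Y hYK hYlt using hY
  choose u hucount hucov humeas using
    fun (n j : ℕ) => exists_cover (Y n j) (show (0 : ℝ) < (1 / 2) ^ (j + 1) by positivity)
  have : ∀ n j, Countable (u n j) := fun n j => (hucount n j).to_subtype
  set T : ∀ n : ℕ, (Σ j, u n j) → Set Z := fun n x => closedBall (x.2 : Z) (4 * (1 / 2) ^ (x.1 + 1))
    with hT
  set S : ℕ → ℝ≥0∞ := fun n => ∑' x, ediam (T n x) ^ (t' : ℝ) with hS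
  set q : ℝ := (2 : ℝ) ^ (-((t' : ℝ) - t)) with hq
  have hq0 : 0 < q := by positivity
  have hq1 : q < 1 := Real.rpow_lt_one_of_one_lt_of_neg (by norm_num) (by linarith)
  have hSV : ∀ n, V * S n ≤ ENNReal.ofReal (1 / ((n : ℝ) + 1) * (2 ^ d * 4 ^ (t' : ℝ) * (1 - q)⁻¹)) := by
    intro n
    have hN : ∀ j, (∑' _ : u n j, (1 : ℝ≥0∞)) * V ≤
        ENNReal.ofReal (1 / ((n : ℝ) + 1) * (2 ^ d * 2 ^ ((t : ℝ) * j))) := by
      intro j
      have hρ : (0 : ℝ) < ((1 / 2) ^ (j + 1)) ^ d := by positivity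
      rw [← ENNReal.mul_le_mul_iff_left (show ENNReal.ofReal (((1 / 2 : ℝ) ^ (j + 1)) ^ d) ≠ 0 by
        simp) ENNReal.ofReal_ne_top]
      have h1 := humeas n j
      have h2 : (2 : ℝ) * (1 / 2) ^ (j + 1) = 1 * (1 / 2) ^ j := by
        rw [pow_succ]; ring
      rw [h2] at h1
      calc (∑' _ : u n j, (1 : ℝ≥0∞)) * V * ENNReal.ofReal (((1 / 2 : ℝ) ^ (j + 1)) ^ d)
          = (∑' _ : u n j, (1 : ℝ≥0∞)) * (ENNReal.ofReal (((1 / 2 : ℝ) ^ (j + 1)) ^ d) * V) := by ring
        _ ≤ ENNReal.ofReal (1 / ((n : ℝ) + 1) * gw (d - t) 0 j) := h1.trans (hYlt n j).le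
        _ = ENNReal.ofReal (1 / ((n : ℝ) + 1) * (2 ^ d * 2 ^ ((t : ℝ) * j))) *
            ENNReal.ofReal (((1 / 2 : ℝ) ^ (j + 1)) ^ d) := by
          rw [← ENNReal.ofReal_mul (by positivity)]
          congr 1
          have h3 : gw (d - t) 0 j = 2 ^ d * 2 ^ ((t : ℝ) * j) * ((1 / 2) ^ (j + 1)) ^ d := by
            unfold gw
            have h4 : ((1 / 2 : ℝ) ^ (j + 1)) ^ d = (2 : ℝ) ^ (-((j : ℝ) + 1) * d) := by
              rw [Real.rpow_mul (by norm_num), Real.rpow_neg (by norm_num), Real.rpow_natCast]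
              congr 1
              rw [one_div, inv_pow]
              congr 1
              have := Real.rpow_natCast (2 : ℝ) (j + 1)
              push_cast at this
              rw [this]
            rw [h4, ← Real.rpow_natCast 2 d, ← Real.rpow_add (by norm_num),
              ← Real.rpow_add (by norm_num), pow_zero, div_one]
            congr 1
            ring
          rw [h3]
          ring
    have hdiam : ∀ x : (Σ j, u n j), ediam (T n x) ≤ ENNReal.ofReal (4 * (1 / 2) ^ x.1) := by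
      intro x
      have h0 : ediam (T n x) ≤ 2 * ENNReal.ofReal (4 * (1 / 2) ^ (x.1 + 1)) := by
        rw [hT]
        dsimp only
        rw [← Metric.closedEBall_ofReal (by positivity)]
        exact ediam_closedEBall_le
      refine h0.trans ?_
      have h2 : (2 : ℝ≥0∞) = ENNReal.ofReal 2 := by simp
      rw [h2, ← ENNReal.ofReal_mul (by norm_num)]
      refine ENNReal.ofReal_le_ofReal ?_
      rw [pow_succ]
      linarith [show (0 : ℝ) < (1 / 2) ^ x.1 by positivity]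
    have hsum : S n ≤ ∑' j, (∑' _ : u n j, (1 : ℝ≥0∞)) * ENNReal.ofReal ((4 * (1 / 2) ^ j) ^ (t' : ℝ)) := by
      rw [hS]
      dsimp only
      rw [ENNReal.tsum_sigma']
      refine ENNReal.tsum_le_tsum fun j => ?_
      rw [← ENNReal.tsum_mul_right]
      refine ENNReal.tsum_le_tsum fun b => ?_
      rw [one_mul, ← ENNReal.ofReal_rpow_of_pos (by positivity)]
      exact ENNReal.rpow_le_rpow (hdiam ⟨j, b⟩) ht'0.le
    calc V * S n ≤ V * ∑' j, (∑' _ : u n j, (1 : ℝ≥0∞)) * ENNReal.ofReal ((4 * (1 / 2) ^ j) ^ (t' : ℝ)) := by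
          gcongr
      _ = ∑' j, ((∑' _ : u n j, (1 : ℝ≥0∞)) * V) * ENNReal.ofReal ((4 * (1 / 2) ^ j) ^ (t' : ℝ)) := by
          rw [← ENNReal.tsum_mul_left]
          refine tsum_congr fun j => ?_
          ring
      _ ≤ ∑' j : ℕ, ENNReal.ofReal (1 / ((n : ℝ) + 1) * (2 ^ d * 2 ^ ((t : ℝ) * j))) *
            ENNReal.ofReal ((4 * (1 / 2) ^ j) ^ (t' : ℝ)) :=
          ENNReal.tsum_le_tsum fun j => mul_le_mul_left (hN j) _
      _ = ∑' j : ℕ, ENNReal.ofReal (1 / ((n : ℝ) + 1) * (2 ^ d * 4 ^ (t' : ℝ)) * q ^ j) := by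
          refine tsum_congr fun j => ?_
          rw [← ENNReal.ofReal_mul (by positivity)]
          congr 1
          have h3 : (2 : ℝ) ^ ((t : ℝ) * j) * (4 * (1 / 2) ^ j) ^ (t' : ℝ) = 4 ^ (t' : ℝ) * q ^ j := by
            rw [Real.mul_rpow (by norm_num) (by positivity), hq, ← Real.rpow_natCast ((2 : ℝ) ^ _) j,
              ← Real.rpow_mul (by norm_num)]
            have h5 : ((1 / 2 : ℝ) ^ j) ^ (t' : ℝ) = (2 : ℝ) ^ (-(j : ℝ) * t') := by
              rw [Real.rpow_mul (by norm_num), Real.rpow_neg (by norm_num), Real.rpow_natCast,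
                one_div, inv_pow]
            rw [h5, mul_left_comm, ← Real.rpow_add (by norm_num)]
            congr 2
            ring
          rw [← mul_assoc, mul_assoc _ (2 ^ ((t : ℝ) * j)), h3]
          ring
      _ = ENNReal.ofReal (1 / ((n : ℝ) + 1) * (2 ^ d * 4 ^ (t' : ℝ) * (1 - q)⁻¹)) := by
          rw [← ENNReal.ofReal_tsum_of_nonneg (fun j => by positivity)
            ((summable_geometric_of_lt_one hq0.le hq1).mul_left _), _root_.tsum_mul_left,
            tsum_geometric_of_lt_one hq0.le hq1]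
          congr 1
          ring
  have hS0 : Tendsto S atTop (𝓝 0) := by
    have h1 : Tendsto (fun n : ℕ => V⁻¹ *
        ENNReal.ofReal (1 / ((n : ℝ) + 1) * (2 ^ d * 4 ^ (t' : ℝ) * (1 - q)⁻¹))) atTop (𝓝 0) := by
      have h2 : Tendsto (fun n : ℕ => 1 / ((n : ℝ) + 1) * (2 ^ d * 4 ^ (t' : ℝ) * (1 - q)⁻¹)) atTop (𝓝 0) := by
        have := tendsto_one_div_add_atTop_nhds_zero_nat (𝕜 := ℝ)
        simpa using this.mul_const (2 ^ d * 4 ^ (t' : ℝ) * (1 - q)⁻¹)
      have h3 := ENNReal.tendsto_ofReal h2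
      rw [ENNReal.ofReal_zero] at h3
      have h4 := ENNReal.Tendsto.const_mul (a := V⁻¹) h3 (Or.inr (ENNReal.inv_ne_top.2 hV0))
      simpa using h4
    refine tendsto_of_tendsto_of_tendsto_of_le_of_le tendsto_const_nhds h1 (fun n => zero_le) (fun n => ?_)
    have h5 : V⁻¹ * (V * S n) = S n := by
      rw [← mul_assoc, ENNReal.inv_mul_cancel hV0 hVtop, one_mul]
    calc S n = V⁻¹ * (V * S n) := h5.symm
      _ ≤ _ := mul_le_mul_right (hSV n) _
  have hle := Measure.hausdorffMeasure_le_liminf_tsum (X := Z) (t' : ℝ) K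
    (l := atTop) (fun n => (S n) ^ (1 / (t' : ℝ))) (by
      have := hS0.ennrpow_const (1 / (t' : ℝ))
      simpa [ht'0] using this) T
    (Eventually.of_forall fun n x => by
      have h1 : ediam (T n x) ^ (t' : ℝ) ≤ S n := ENNReal.le_tsum x
      calc ediam (T n x) = (ediam (T n x) ^ (t' : ℝ)) ^ (1 / (t' : ℝ)) := by
            rw [← ENNReal.rpow_mul, mul_one_div_cancel ht'0.ne', ENNReal.rpow_one]
        _ ≤ _ := ENNReal.rpow_le_rpow h1 (by positivity))
    (Eventually.of_forall fun n x hx => by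
      obtain ⟨j, hj⟩ := mem_iUnion.1 (hYK n hx)
      obtain ⟨b, hb, hxb⟩ := mem_iUnion₂.1 (hucov n j hj)
      exact mem_iUnion.2 ⟨⟨j, ⟨b, hb⟩⟩, hxb⟩)
  rw [hH] at hle
  have h0 : liminf S atTop = 0 := hS0.liminf_eq
  have : (∞ : ℝ≥0∞) ≤ 0 := hle.trans (le_of_eq h0)
  simp at this

end Pool.Agent.V5helper3.Kak
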