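import Pool.Agent.V5helper3.Kak.StepC

set_option autoImplicit false
set_option linter.unusedSectionVars false
set_option linter.deprecated false

open MeasureTheory Set Metric ENNReal NNReal Filter Topology Module
open scoped Pointwise

namespace Pool.Agent.V5helper3.Kak

/-- Integrating a function that decays like `(δ / f)^m`. -/
theorem radial {Ω : Type*} [MeasurableSpace Ω] (ν : Measure Ω) (f : Ω → ℝ) (hf : Measurable f)
    {m : ℕ} {C D : ℝ} (hC : 0 ≤ C) (hD : 0 ≤ D) (hν : ν univ ≤ ENNReal.ofReal D)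
    (hνρ : ∀ i : ℕ, ν {x | f x ≤ (1 / 2) ^ i} ≤ ENNReal.ofReal (D * (1 / 2) ^ (i * m))) (j : ℕ)
    (V : Ω → ℝ≥0∞) (hV1 : ∀ x, V x ≤ ENNReal.ofReal C)
    (hV2 : ∀ x, ∀ ρ : ℝ, 0 < ρ → ρ < f x → V x ≤ ENNReal.ofReal (C * ((1 / 2) ^ j / ρ) ^ m)) :
    ∫⁻ x, V x ∂ν ≤ ENNReal.ofReal (C * D * 2 ^ m * (2 ^ m) * ((j : ℝ) + 2) * (1 / 2) ^ (j * m)) := by
  set G : ℕ → Set Ω := fun i => {x | f x ≤ (1 / 2) ^ i} with hG
  have hGm : ∀ i, MeasurableSet (G i) := fun i => measurableSet_le hf measurable_const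
  have h2m : (1 : ℝ) ≤ 2 ^ m := one_le_pow₀ (by norm_num)
  have hpt : ∀ x, V x ≤ (∑ i ∈ Finset.range (j + 1),
      (G i).indicator (fun _ => ENNReal.ofReal (C * 2 ^ m * (1 / 2) ^ ((j - i) * m))) x) +
        ENNReal.ofReal (C * 2 ^ m * (1 / 2) ^ (j * m)) := by
    intro x
    rcases lt_or_ge 1 (f x) with h1 | h1
    · refine le_trans ((hV2 x 1 one_pos h1).trans (ENNReal.ofReal_le_ofReal ?_)) le_add_self
      rw [div_one, ← pow_mul]
      have : (0 : ℝ) ≤ (1 / 2) ^ (j * m) := by positivity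
      nlinarith [mul_nonneg hC this]
    · refine le_trans ?_ le_self_add
      rcases le_or_gt (f x) ((1 / 2) ^ j) with h2 | h2
      · refine le_trans ?_ (Finset.single_le_sum (f := fun i => (G i).indicator
          (fun _ => ENNReal.ofReal (C * 2 ^ m * (1 / 2) ^ ((j - i) * m))) x) (fun _ _ => zero_le)
          (Finset.mem_range.2 (Nat.lt_succ_self j)))
        rw [indicator_of_mem (show x ∈ G j from h2)]
        refine (hV1 x).trans (ENNReal.ofReal_le_ofReal ?_)
        simp only [Nat.sub_self, zero_mul, pow_zero, mul_one]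
        nlinarith
      · have hf0 : 0 < f x := lt_trans (by positivity) h2
        obtain ⟨i, hi1, hi2⟩ := exists_nat_pow_near_of_lt_one hf0 h1
          (by norm_num : (0 : ℝ) < 1 / 2) (by norm_num)
        have hij : i < j := by
          by_contra hcon
          rw [not_lt] at hcon
          have : (1 / 2 : ℝ) ^ i ≤ (1 / 2) ^ j := pow_le_pow_of_le_one (by norm_num) (by norm_num) hcon
          linarith
        refine le_trans ?_ (Finset.single_le_sum (f := fun i => (G i).indicator
          (fun _ => ENNReal.ofReal (C * 2 ^ m * (1 / 2) ^ ((j - i) * m))) x) (fun _ _ => zero_le)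
          (Finset.mem_range.2 (Nat.lt_succ_of_lt hij)))
        rw [indicator_of_mem (show x ∈ G i from hi2)]
        refine (hV2 x ((1 / 2) ^ (i + 1)) (by positivity) hi1).trans (ENNReal.ofReal_le_ofReal (le_of_eq ?_))
        have h3 : (1 / 2 : ℝ) ^ j / (1 / 2) ^ (i + 1) = 2 * (1 / 2) ^ (j - i) := by
          have h4 : (1 / 2 : ℝ) ^ j = (1 / 2) ^ (j - i) * (1 / 2) ^ i := by
            rw [← pow_add]
            congr 1
            omega
          rw [h4, pow_succ]
          field_simp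
        rw [h3, mul_pow, ← pow_mul]
        ring
  refine (lintegral_mono hpt).trans ?_
  rw [lintegral_add_right _ measurable_const, lintegral_finsetSum _ (fun i _ =>
    (measurable_const.indicator (hGm i))), lintegral_const]
  have h5 : ∀ i ∈ Finset.range (j + 1), ∫⁻ x, (G i).indicator
      (fun _ => ENNReal.ofReal (C * 2 ^ m * (1 / 2) ^ ((j - i) * m))) x ∂ν ≤
        ENNReal.ofReal (C * D * 2 ^ m * (1 / 2) ^ (j * m)) := by
    intro i hi
    rw [lintegral_indicator_const (hGm i)]
    refine (mul_le_mul_right (hνρ i) _).trans ?_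
    rw [← ENNReal.ofReal_mul (by positivity)]
    refine ENNReal.ofReal_le_ofReal (le_of_eq ?_)
    have h6 : (1 / 2 : ℝ) ^ (j * m) = (1 / 2) ^ ((j - i) * m) * (1 / 2) ^ (i * m) := by
      rw [← pow_add, ← Nat.add_mul]
      congr 2
      have := Finset.mem_range.1 hi
      omega
    rw [h6]
    ring
  refine (add_le_add (Finset.sum_le_sum h5) (mul_le_mul_right hν _)).trans ?_
  rw [Finset.sum_const, Finset.card_range, nsmul_eq_mul, ← ENNReal.ofReal_mul (by positivity)]
  have h7 : ((j + 1 : ℕ) : ℝ≥0∞) = ENNReal.ofReal ((j : ℝ) + 1) := by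
    rw [← ENNReal.ofReal_natCast]
    push_cast
    rfl
  rw [h7, ← ENNReal.ofReal_mul (by positivity), ← ENNReal.ofReal_add (by positivity) (by positivity)]
  refine ENNReal.ofReal_le_ofReal ?_
  have h8 : 0 ≤ C * D * 2 ^ m * (1 / 2) ^ (j * m) := by positivity
  have h9 : (0 : ℝ) ≤ (j : ℝ) + 2 := by positivity
  calc ((j : ℝ) + 1) * (C * D * 2 ^ m * (1 / 2) ^ (j * m)) + C * 2 ^ m * (1 / 2) ^ (j * m) * D
      = ((j : ℝ) + 2) * (C * D * 2 ^ m * (1 / 2) ^ (j * m)) := by ring
    _ ≤ ((j : ℝ) + 2) * (C * D * 2 ^ m * (1 / 2) ^ (j * m)) * 2 ^ m :=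
        le_mul_of_one_le_right (by positivity) h2m
    _ = _ := by ring

variable {U : Type*} [NormedAddCommGroup U] [NormedSpace ℝ U] [MeasureSpace U] [BorelSpace U]
  [FiniteDimensional ℝ U] [Measure.IsAddHaarMeasure (volume : Measure U)]
variable {V : Type*} [NormedAddCommGroup V] [NormedSpace ℝ V] [MeasureSpace V] [BorelSpace V]
  [FiniteDimensional ℝ V] [Measure.IsAddHaarMeasure (volume : Measure V)]

/-- The volume of a strip, by averaging over translations along a complement. -/
theorem strip (L : U →L[ℝ] V) (ι : V →L[ℝ] U) (hι : ‖ι‖ ≤ 1) {κ : ℝ} (hκ : 0 < κ)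
    (hL : ∀ y, κ * ‖y‖ ≤ ‖L (ι y)‖) (c : V) {R ρ : ℝ} :
    volume {u : U | ‖u‖ ≤ R ∧ ‖L u - c‖ ≤ ρ} * volume (ball (0 : V) 1) ≤
      volume (closedBall (0 : U) (R + 1)) * volume (closedBall (0 : V) (2 * ρ / κ)) := by
  set G : Set U := {u : U | ‖u‖ ≤ R ∧ ‖L u - c‖ ≤ ρ} with hG
  have hGm : MeasurableSet G := by
    have h1 : IsClosed {u : U | ‖u‖ ≤ R} := isClosed_le continuous_norm continuous_const
    have h2 : IsClosed {u : U | ‖L u - c‖ ≤ ρ} := isClosed_le (by fun_prop) continuous_const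
    exact h1.measurableSet.inter h2.measurableSet
  set H : Set (U × V) := {z | z.2 ∈ ball (0 : V) 1 ∧ z.1 + ι z.2 ∈ G} with hH
  have hHm : MeasurableSet H := by
    refine (measurable_snd measurableSet_ball).inter ?_
    have : Measurable fun z : U × V => z.1 + ι z.2 := by fun_prop
    exact this hGm
  have h1 : (volume : Measure U).prod (volume : Measure V) H = volume G * volume (ball (0 : V) 1) := by
    rw [Measure.prod_apply_symm hHm]
    have h2 : ∀ y : V, volume ((fun u : U => (u, y)) ⁻¹' H) =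
        (ball (0 : V) 1).indicator (fun _ => volume G) y := by
      intro y
      by_cases hy : y ∈ ball (0 : V) 1
      · rw [indicator_of_mem hy]
        have : (fun u : U => (u, y)) ⁻¹' H = (fun u : U => u + ι y) ⁻¹' G := by
          ext u
          simp only [hH, mem_preimage, mem_setOf_eq, hy, true_and]
        rw [this, measure_preimage_add_right]
      · rw [indicator_of_notMem hy]
        have : (fun u : U => (u, y)) ⁻¹' H = ∅ := by
          ext u
          simp only [hH, mem_preimage, mem_setOf_eq, hy, false_and, mem_empty_iff_false]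
        rw [this, measure_empty]
    simp_rw [h2]
    rw [lintegral_indicator_const measurableSet_ball]
  rw [← h1, Measure.prod_apply hHm]
  have h3 : ∀ u : U, volume (Prod.mk u ⁻¹' H) ≤
      (closedBall (0 : U) (R + 1)).indicator (fun _ => volume (closedBall (0 : V) (2 * ρ / κ))) u := by
    intro u
    rcases (Prod.mk u ⁻¹' H).eq_empty_or_nonempty with h | ⟨y₀, hy₀⟩
    · rw [h, measure_empty]; exact zero_le
    · have hy1 : y₀ ∈ ball (0 : V) 1 := hy₀.1
      have hy2 : ‖u + ι y₀‖ ≤ R := hy₀.2.1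
      have hy3 : ‖L (u + ι y₀) - c‖ ≤ ρ := hy₀.2.2
      have hy1' : ‖y₀‖ < 1 := by simpa using hy1
      have hι' : ∀ y : V, ‖ι y‖ ≤ ‖y‖ := fun y => by
        calc ‖ι y‖ ≤ ‖ι‖ * ‖y‖ := ι.le_opNorm _
          _ ≤ 1 * ‖y‖ := by gcongr
          _ = ‖y‖ := one_mul _
      have hu : u ∈ closedBall (0 : U) (R + 1) := by
        rw [mem_closedBall_zero_iff]
        calc ‖u‖ = ‖(u + ι y₀) - ι y₀‖ := by congr 1; abel
          _ ≤ ‖u + ι y₀‖ + ‖ι y₀‖ := norm_sub_le _ _
          _ ≤ R + 1 := add_le_add hy2 ((hι' _).trans hy1'.le)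
      rw [indicator_of_mem hu]
      have hsub : Prod.mk u ⁻¹' H ⊆ closedBall y₀ (2 * ρ / κ) := by
        intro y hy
        have hy4 : ‖L (u + ι y) - c‖ ≤ ρ := hy.2.2
        rw [mem_closedBall, dist_eq_norm, le_div_iff₀ hκ]
        have h4 : L (ι (y - y₀)) = (L (u + ι y) - c) - (L (u + ι y₀) - c) := by
          simp only [map_sub, map_add]; abel
        calc ‖y - y₀‖ * κ = κ * ‖y - y₀‖ := mul_comm _ _
          _ ≤ ‖L (ι (y - y₀))‖ := hL _
          _ ≤ ‖L (u + ι y) - c‖ + ‖L (u + ι y₀) - c‖ := by rw [h4]; exact norm_sub_le _ _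
          _ ≤ 2 * ρ := by linarith
      refine (measure_mono hsub).trans (le_of_eq ?_)
      have := Measure.addHaar_closedBall_center (volume : Measure V) y₀ (2 * ρ / κ)
      rw [this]
  refine (lintegral_mono h3).trans (le_of_eq ?_)
  rw [lintegral_indicator_const measurableSet_closedBall, mul_comm]

end Pool.Agent.V5helper3.Kak
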