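import Pool.Agent.V5helper3.Kak.Defs
import Pool.Agent.V5helper3.Kak.ExA

set_option autoImplicit false
set_option linter.unusedSectionVars false
set_option linter.deprecated false

open MeasureTheory Set Metric ENNReal NNReal Filter Topology Module
open scoped Pointwise

namespace Pool.Agent.V5helper3.Kak

variable {S : Type} [MeasurableSpace S] {k m : ℕ}

theorem smallSet_eq (L L' : E k →L[ℝ] E m) (δ : ℝ) :
    smallSet (L - L') δ = {x : E k | ‖x‖ ≤ 1 ∧ ‖L x - L' x‖ ≤ δ} := by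
  unfold smallSet
  simp only [ContinuousLinearMap.sub_apply]

theorem half_pow_rpow (j : ℕ) (r : ℝ) : ((1 / 2 : ℝ) ^ j) ^ r = 2 ^ (-(r * j)) := by
  rw [one_div, inv_pow, Real.inv_rpow (by positivity), Real.rpow_neg (by norm_num)]
  congr 1
  rw [← Real.rpow_natCast, ← Real.rpow_mul (by norm_num)]
  congr 1
  ring

theorem Transversal.transvD {μ : Measure S} {T : S → E k →L[ℝ] E m} {r : ℝ}
    (h : Transversal μ T r) {r' : ℝ} (hr : r' < r) : TransvD μ T r' := by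
  obtain ⟨C, h⟩ := h r' hr
  refine ⟨max C 1, 0, by positivity, fun j => ?_⟩
  have h1 := h ((1 / 2) ^ j) (by positivity) (pow_le_one₀ (by norm_num) (by norm_num))
  simp_rw [smallSet_eq]
  refine h1.trans (ENNReal.ofReal_le_ofReal ?_)
  rw [half_pow_rpow, pow_zero, mul_one]
  gcongr
  exact le_max_left _ _

theorem PackingDimLE.covD {Y : Type} [NormedAddCommGroup Y] [NormedSpace ℝ Y] [MeasureSpace Y]
    [BorelSpace Y] [FiniteDimensional ℝ Y] [Measure.IsAddHaarMeasure (volume : Measure Y)]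
    {γ : ℝ} {B : Set Y} (h : PackingDimLE γ B) {γ' : ℝ} (hγ : γ < γ') :
    ∃ B' : ℕ → Set Y, B ⊆ ⋃ l, B' l ∧ ∀ l, ∃ C, CovD γ' C (B' l) := by
  obtain ⟨B', hB, h⟩ := h γ' hγ
  refine ⟨B', hB, fun l => ?_⟩
  obtain ⟨C, hC⟩ := h l
  refine ⟨C, fun j => ?_⟩
  obtain ⟨F, hF, hF'⟩ := hC ((1 / 2) ^ j) (by positivity) (pow_le_one₀ (by norm_num) (by norm_num))
  refine ⟨F, ?_, hF'⟩
  rw [half_pow_rpow] at hF
  convert hF using 3
  ring

/-- From dyadic scales with a logarithmic factor to all scales. -/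
theorem transversal_of_dyadic {μ : Measure S} {T : S → E k →L[ℝ] E m} {C : ℝ} {r : ℕ} (hC : 0 ≤ C)
    (h : ∀ j : ℕ, ∫⁻ s, ∫⁻ s', volume {x : E k | ‖x‖ ≤ 1 ∧ ‖T s x - T s' x‖ ≤ (1 / 2) ^ j} ∂μ ∂μ ≤
      ENNReal.ofReal (C * ((j : ℝ) + 2) * (1 / 2) ^ (j * r))) : Transversal μ T r := by
  intro r' hr'
  obtain ⟨M, hM0, hM⟩ := exists_bound_gw r' (γ := (r : ℝ) - r') (by linarith) 1
  refine ⟨C * (2 * M) * 2 ^ |r'|, fun δ hδ hδ1 => ?_⟩
  obtain ⟨j, hj1, hj2⟩ := exists_nat_pow_near_of_lt_one hδ hδ1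
    (by norm_num : (0 : ℝ) < 1 / 2) (by norm_num)
  have hmono : ∫⁻ s, ∫⁻ s', volume {x : E k | ‖x‖ ≤ 1 ∧ ‖T s x - T s' x‖ ≤ δ} ∂μ ∂μ ≤
      ∫⁻ s, ∫⁻ s', volume {x : E k | ‖x‖ ≤ 1 ∧ ‖T s x - T s' x‖ ≤ (1 / 2) ^ j} ∂μ ∂μ :=
    lintegral_mono fun s => lintegral_mono fun s' => measure_mono fun x hx => ⟨hx.1, hx.2.trans hj2⟩
  refine hmono.trans ((h j).trans (ENNReal.ofReal_le_ofReal ?_))
  have h1 := hM j
  rw [add_sub_cancel] at h1
  unfold gw at h1
  rw [pow_one] at h1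
  have hj0 : (0 : ℝ) ≤ j := Nat.cast_nonneg j
  have h2 : (1 / 2 : ℝ) ^ (j * r) = 2 ^ (-((r : ℝ) * j)) := by
    rw [← half_pow_rpow, Real.rpow_natCast, ← pow_mul]
  have h3 : ((j : ℝ) + 2) * (1 / 2 : ℝ) ^ (j * r) ≤ 2 * M * ((1 / 2 : ℝ) ^ j) ^ r' := by
    rw [h2, half_pow_rpow]
    calc ((j : ℝ) + 2) * 2 ^ (-((r : ℝ) * j)) ≤
        (2 * ((j : ℝ) + 1)) * (M * (2 ^ (-(r' * j)) / ((j : ℝ) + 1))) := by
          gcongr
          linarith
      _ = 2 * M * 2 ^ (-(r' * j)) := by field_simp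
  have h4 : ((1 / 2 : ℝ) ^ j) ^ r' ≤ 2 ^ |r'| * δ ^ r' := by
    rcases le_or_gt 0 r' with hr0 | hr0
    · rw [abs_of_nonneg hr0, ← Real.mul_rpow (by norm_num) hδ.le]
      apply Real.rpow_le_rpow (by positivity) _ hr0
      rw [pow_succ] at hj1
      linarith
    · have h5 : ((1 / 2 : ℝ) ^ j) ^ r' ≤ δ ^ r' :=
        Real.rpow_le_rpow_of_nonpos hδ hj2 hr0.le
      have h6 : (1 : ℝ) ≤ 2 ^ |r'| := Real.one_le_rpow (by norm_num) (abs_nonneg _)
      have h7 : 0 ≤ δ ^ r' := by positivity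
      nlinarith
  calc C * ((j : ℝ) + 2) * (1 / 2) ^ (j * r) = C * (((j : ℝ) + 2) * (1 / 2) ^ (j * r)) := by ring
    _ ≤ C * (2 * M * (2 ^ |r'| * δ ^ r')) := by
        refine mul_le_mul_of_nonneg_left (h3.trans ?_) hC
        gcongr
    _ = _ := by ring

/-- Uniform lower bound for the adjoint maps. -/
theorem exists_dual_bound {p k' m : ℕ} (β : E p →L[ℝ] E k' →L[ℝ] E m)
    (hβ : ∀ x : E k', x ≠ 0 → Function.Surjective fun s => β s x) :
    ∃ c : ℝ, 0 < c ∧ ∀ (x : E k') (y : E m),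
      c * (‖x‖ * ‖y‖) ≤ ‖(ContinuousLinearMap.adjoint (β.flip x)) y‖ := by
  set F : E k' × E m → ℝ := fun z => ‖(ContinuousLinearMap.adjoint (β.flip z.1)) z.2‖ with hF
  have hFc : Continuous F := by
    have h1 : Continuous fun z : E k' × E m => ContinuousLinearMap.adjoint (β.flip z.1) :=
      (LinearIsometryEquiv.continuous _).comp (β.flip.continuous.comp continuous_fst)
    exact (h1.clm_apply continuous_snd).norm
  set Q : Set (E k' × E m) := sphere (0 : E k') 1 ×ˢ sphere (0 : E m) 1 with hQ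
  have hQc : IsCompact Q := (isCompact_sphere _ _).prod (isCompact_sphere _ _)
  have hFpos : ∀ z ∈ Q, 0 < F z := by
    rintro ⟨x, y⟩ ⟨hx, hy⟩
    rw [hF]
    simp only [norm_pos_iff]
    intro h0
    have hx1 : ‖x‖ = 1 := by simpa using hx
    have hy1 : ‖y‖ = 1 := by simpa using hy
    have hx0 : x ≠ 0 := by
      rintro rfl
      simp at hx1
    obtain ⟨s, hs⟩ := hβ x hx0 y
    have h2 : inner ℝ (β.flip x s) y = inner ℝ s ((ContinuousLinearMap.adjoint (β.flip x)) y) := by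
      rw [ContinuousLinearMap.adjoint_inner_right]
    rw [h0, inner_zero_right] at h2
    have h3 : β.flip x s = y := by
      rw [ContinuousLinearMap.flip_apply]
      exact hs
    rw [h3, real_inner_self_eq_norm_sq, hy1] at h2
    norm_num at h2
  -- homogeneity
  have hhom : ∀ (x : E k') (y : E m), x ≠ 0 → y ≠ 0 →
      F (x, y) = ‖x‖ * ‖y‖ * F (‖x‖⁻¹ • x, ‖y‖⁻¹ • y) := by
    intro x y hx hy
    have hx' : ‖x‖ ≠ 0 := norm_ne_zero_iff.2 hx
    have hy' : ‖y‖ ≠ 0 := norm_ne_zero_iff.2 hy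
    rw [hF]
    simp only [map_smul]
    rw [ContinuousLinearMap.smul_apply, norm_smul, norm_smul, norm_inv, norm_inv, norm_norm,
      norm_norm]
    field_simp
  rcases Q.eq_empty_or_nonempty with hQe | hQne
  · refine ⟨1, one_pos, fun x y => ?_⟩
    by_cases hx : x = 0
    · rw [hx]; simp
    by_cases hy : y = 0
    · rw [hy]; simp
    exfalso
    have : (‖x‖⁻¹ • x, ‖y‖⁻¹ • y) ∈ Q := by
      refine ⟨?_, ?_⟩
      · simp [norm_smul, norm_ne_zero_iff.2 hx]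
      · simp [norm_smul, norm_ne_zero_iff.2 hy]
    rw [hQe] at this
    exact this
  · obtain ⟨z₀, hz₀, hmin⟩ := hQc.exists_isMinOn hQne hFc.continuousOn
    refine ⟨F z₀, hFpos z₀ hz₀, fun x y => ?_⟩
    by_cases hx : x = 0
    · rw [hx]; simp
    by_cases hy : y = 0
    · rw [hy]; simp
    have hmem : (‖x‖⁻¹ • x, ‖y‖⁻¹ • y) ∈ Q := by
      refine ⟨?_, ?_⟩
      · simp [norm_smul, norm_ne_zero_iff.2 hx]
      · simp [norm_smul, norm_ne_zero_iff.2 hy]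
    have h5 := hmin hmem
    have h6 := hhom x y hx hy
    calc F z₀ * (‖x‖ * ‖y‖) ≤ F (‖x‖⁻¹ • x, ‖y‖⁻¹ • y) * (‖x‖ * ‖y‖) := by
          apply mul_le_mul_of_nonneg_right h5 (by positivity)
      _ = F (x, y) := by rw [h6]; ring

end Pool.Agent.V5helper3.Kak
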