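import Pool.Agent.V5helper3.Kak.ExB

set_option autoImplicit false
set_option linter.unusedSectionVars false
set_option linter.deprecated false

open MeasureTheory Set Metric ENNReal NNReal Filter Topology Module
open scoped Pointwise

namespace Pool.Agent.V5helper3.Kak

/-- Real form of the strip estimate. -/
theorem strip_real {p d : ℕ} (L : E p →L[ℝ] E d) (ι : E d →L[ℝ] E p) (hι : ‖ι‖ ≤ 1) {κ : ℝ}
    (hκ : 0 < κ) (hL : ∀ y, κ * ‖y‖ ≤ ‖L (ι y)‖) (c : E d) {R ρ : ℝ} (hρ : 0 ≤ ρ) :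
    volume {u : E p | ‖u‖ ≤ R ∧ ‖L u - c‖ ≤ ρ} ≤
      ENNReal.ofReal ((volume (closedBall (0 : E p) (R + 1))).toReal * (2 * ρ / κ) ^ d) := by
  have h1 := strip L ι hι hκ hL c (R := R) (ρ := ρ)
  have hv0 : volume (ball (0 : E d) 1) ≠ 0 := (measure_ball_pos volume _ one_pos).ne'
  have hvt : volume (ball (0 : E d) 1) ≠ ∞ := measure_ball_lt_top.ne
  rw [Measure.addHaar_closedBall volume (0 : E d) (by positivity : 0 ≤ 2 * ρ / κ), ← mul_assoc,
    ENNReal.mul_le_mul_iff_left hv0 hvt, finrank_euclideanSpace_fin] at h1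
  refine h1.trans (le_of_eq ?_)
  rw [ENNReal.ofReal_mul ENNReal.toReal_nonneg, ENNReal.ofReal_toReal measure_closedBall_lt_top.ne]

/-- **Linear families of planes that cover all directions are transversal.** -/
theorem linear_transversal {p k k' m : ℕ} (β : E p →L[ℝ] E k' →L[ℝ] E m)
    (hβ : ∀ x : E k', x ≠ 0 → Function.Surjective fun s => β s x) (π : E k →L[ℝ] E k')
    (hπ : Function.Surjective π) (T₀ : E k →L[ℝ] E m) (R : ℝ) :
    Transversal (volume.restrict (ball (0 : E p) R)) (fun s => T₀ + (β s).comp π)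
      ((min m k' : ℕ) : ℝ) := by
  set r : ℕ := min m k' with hr
  have hrm : r ≤ m := min_le_left _ _
  have hrk : r ≤ k' := min_le_right _ _
  obtain ⟨c₀, hc₀, hdual⟩ := exists_dual_bound β hβ
  obtain ⟨g, hg⟩ := (π : E k →ₗ[ℝ] E k').exists_rightInverse_of_surjective
    (LinearMap.range_eq_top.2 hπ)
  set G : E k' →L[ℝ] E k := LinearMap.toContinuousLinearMap g with hG
  have hπG : ∀ y, π (G y) = y := fun y => by
    have := LinearMap.congr_fun hg y
    change π (g y) = y
    simpa using this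
  set Λ : ℝ := ‖β.flip‖ + 1 with hΛ
  have hΛ0 : 0 < Λ := by positivity
  -- constants
  set D : ℝ := (volume (closedBall (0 : E k) (1 + 1))).toReal * (2 * (‖G‖ + 1)) ^ k' +
    (volume (closedBall (0 : E k) 1)).toReal with hD
  have hD0 : 0 ≤ D := by positivity
  set C : ℝ := (volume (closedBall (0 : E p) (R + 1))).toReal * (2 * Λ / c₀ ^ 2 + 1) ^ m with hC
  have hC0 : 0 ≤ C := by positivity
  set v : ℝ := (volume (ball (0 : E p) R)).toReal with hv
  have key : ∀ (j : ℕ) (s : E p), ∫⁻ s' in ball (0 : E p) R,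
      volume {x : E k | ‖x‖ ≤ 1 ∧ ‖(T₀ + (β s).comp π) x - (T₀ + (β s').comp π) x‖ ≤ (1 / 2) ^ j} ≤
        ENNReal.ofReal (C * D * 2 ^ r * (2 ^ r) * ((j : ℝ) + 2) * (1 / 2) ^ (j * r)) := by
    intro j s
    set δ : ℝ := (1 / 2) ^ j with hδ
    have hδ0 : 0 < δ := by positivity
    set W : Set (E p × E k) := {z | ‖z.2‖ ≤ 1 ∧ ‖β s (π z.2) - β z.1 (π z.2)‖ ≤ δ} with hW
    have hWm : MeasurableSet W := by
      have h1 : IsClosed {z : E p × E k | ‖z.2‖ ≤ 1} := isClosed_le (by fun_prop) continuous_const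
      have h2 : IsClosed {z : E p × E k | ‖β s (π z.2) - β z.1 (π z.2)‖ ≤ δ} := by
        refine isClosed_le ?_ continuous_const
        have h3 : Continuous fun z : E p × E k => β z.1 (π z.2) :=
          (β.continuous.comp continuous_fst).clm_apply (π.continuous.comp continuous_snd)
        exact (((β s).continuous.comp (π.continuous.comp continuous_snd)).sub h3).norm
      exact h1.measurableSet.inter h2.measurableSet
    have h1 : ∀ s' : E p, {x : E k | ‖x‖ ≤ 1 ∧ ‖(T₀ + (β s).comp π) x - (T₀ + (β s').comp π) x‖ ≤ δ} =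
        Prod.mk s' ⁻¹' W := by
      intro s'
      ext x
      simp only [mem_setOf_eq, hW, mem_preimage, ContinuousLinearMap.add_apply,
        ContinuousLinearMap.comp_apply, add_sub_add_left_eq_sub]
    simp_rw [h1]
    rw [← Measure.prod_apply hWm, Measure.prod_apply_symm hWm]
    set V : E k → ℝ≥0∞ := fun x => volume {s' : E p | ‖s'‖ ≤ R ∧ ‖(β.flip (π x)) s' - β s (π x)‖ ≤ δ}
      with hV
    have h2 : ∀ x : E k, (volume.restrict (ball (0 : E p) R)) ((fun s' => (s', x)) ⁻¹' W) ≤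
        (closedBall (0 : E k) 1).indicator V x := by
      intro x
      by_cases hx : x ∈ closedBall (0 : E k) 1
      · rw [indicator_of_mem hx, Measure.restrict_apply (measurable_prodMk_right hWm)]
        apply measure_mono
        rintro s' ⟨hs'1, hs'2⟩
        refine ⟨(mem_ball_zero_iff.1 hs'2).le, ?_⟩
        rw [ContinuousLinearMap.flip_apply, norm_sub_rev]
        exact hs'1.2
      · have : (fun s' : E p => (s', x)) ⁻¹' W = ∅ := by
          ext s'
          simp only [mem_preimage, hW, mem_setOf_eq, mem_empty_iff_false, iff_false, not_and]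
          intro hx'
          exact absurd (mem_closedBall_zero_iff.2 hx') hx
        rw [this, measure_empty]
        exact zero_le
    refine (lintegral_mono h2).trans ?_
    rw [lintegral_indicator measurableSet_closedBall]
    have hV1 : ∀ x, V x ≤ ENNReal.ofReal C := by
      intro x
      have h3 : {s' : E p | ‖s'‖ ≤ R ∧ ‖(β.flip (π x)) s' - β s (π x)‖ ≤ δ} ⊆ closedBall 0 (R + 1) := by
        intro s' hs'
        rw [mem_closedBall_zero_iff]
        linarith [hs'.1]
      refine (measure_mono h3).trans ?_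
      rw [← ENNReal.ofReal_toReal (measure_closedBall_lt_top (μ := volume) (x := (0 : E p)) (r := R + 1)).ne]
      refine ENNReal.ofReal_le_ofReal ?_
      rw [hC]
      refine le_mul_of_one_le_right ENNReal.toReal_nonneg (one_le_pow₀ ?_)
      have : 0 ≤ 2 * Λ / c₀ ^ 2 := by positivity
      linarith
    refine radial (volume.restrict (closedBall (0 : E k) 1)) (fun x => ‖π x‖)
      (by fun_prop) hC0 hD0 ?_ ?_ j V hV1 ?_
    · rw [Measure.restrict_apply_univ]
      calc volume (closedBall (0 : E k) 1) =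
          ENNReal.ofReal (volume (closedBall (0 : E k) 1)).toReal :=
            (ENNReal.ofReal_toReal measure_closedBall_lt_top.ne).symm
        _ ≤ ENNReal.ofReal D := ENNReal.ofReal_le_ofReal (by rw [hD]; exact le_add_of_nonneg_left (by positivity))
    · intro i
      have hρ : (0 : ℝ) ≤ (1 / 2) ^ i := by positivity
      have hGn : 0 < ‖G‖ + 1 := by positivity
      have h3 := strip_real π ((‖G‖ + 1)⁻¹ • G) (by
        rw [norm_smul, norm_inv, Real.norm_of_nonneg hGn.le, inv_mul_le_iff₀ hGn]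
        linarith) (κ := (‖G‖ + 1)⁻¹) (by positivity) (fun y => by
          rw [ContinuousLinearMap.smul_apply, map_smul, hπG, norm_smul, norm_inv,
            Real.norm_of_nonneg hGn.le]) (0 : E k') (R := 1) hρ
      rw [Measure.restrict_apply (measurableSet_le (by fun_prop) measurable_const)]
      have h4 : {x : E k | ‖π x‖ ≤ (1 / 2) ^ i} ∩ closedBall 0 1 ⊆
          {u : E k | ‖u‖ ≤ 1 ∧ ‖π u - 0‖ ≤ (1 / 2) ^ i} := by
        rintro x ⟨hx1, hx2⟩
        refine ⟨mem_closedBall_zero_iff.1 hx2, ?_⟩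
        rw [sub_zero]
        exact hx1
      refine (measure_mono h4).trans (h3.trans (ENNReal.ofReal_le_ofReal ?_))
      rw [div_inv_eq_mul]
      have h5 : (2 * (1 / 2 : ℝ) ^ i * (‖G‖ + 1)) ^ k' ≤ (2 * (‖G‖ + 1)) ^ k' * (1 / 2) ^ (i * r) := by
        have h6 : (2 * (1 / 2 : ℝ) ^ i * (‖G‖ + 1)) ^ k' = (2 * (‖G‖ + 1)) ^ k' * (1 / 2) ^ (i * k') := by
          rw [pow_mul, ← mul_pow]
          congr 1
          ring
        rw [h6]
        have h7 : (1 / 2 : ℝ) ^ (i * k') ≤ (1 / 2) ^ (i * r) :=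
          pow_le_pow_of_le_one (by norm_num) (by norm_num) (Nat.mul_le_mul_left i hrk)
        gcongr
      calc (volume (closedBall (0 : E k) (1 + 1))).toReal * (2 * (1 / 2 : ℝ) ^ i * (‖G‖ + 1)) ^ k' ≤
          (volume (closedBall (0 : E k) (1 + 1))).toReal * ((2 * (‖G‖ + 1)) ^ k' * (1 / 2) ^ (i * r)) := by
            gcongr
        _ ≤ D * (1 / 2) ^ (i * r) := by
            rw [hD, add_mul, ← mul_assoc]
            exact le_add_of_nonneg_right (by positivity)
    · intro x ρ hρ hρx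
      rcases lt_or_ge 1 (δ / ρ) with h1ρ | h1ρ
      · refine (hV1 x).trans (ENNReal.ofReal_le_ofReal ?_)
        exact le_mul_of_one_le_right hC0 (one_le_pow₀ h1ρ.le)
      set z : E k' := π x with hz
      have hz0 : 0 < ‖z‖ := lt_trans hρ hρx
      set B : E p →L[ℝ] E m := β.flip z with hB
      have hBn : ‖B‖ ≤ Λ * ‖z‖ := by
        calc ‖B‖ ≤ ‖β.flip‖ * ‖z‖ := β.flip.le_opNorm z
          _ ≤ Λ * ‖z‖ := by
            rw [hΛ]
            nlinarith
      have hΛz : 0 < Λ * ‖z‖ := by positivity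
      have h3 := strip_real B ((Λ * ‖z‖)⁻¹ • ContinuousLinearMap.adjoint B) (by
        rw [norm_smul, norm_inv, Real.norm_of_nonneg hΛz.le, inv_mul_le_iff₀ hΛz,
          LinearIsometryEquiv.norm_map, mul_one]
        exact hBn) (κ := c₀ ^ 2 * ‖z‖ / Λ) (by positivity) (fun y => by
          rw [ContinuousLinearMap.smul_apply, map_smul, norm_smul, norm_inv,
            Real.norm_of_nonneg hΛz.le]
          have h4 : (c₀ * (‖z‖ * ‖y‖)) ^ 2 ≤ ‖B (ContinuousLinearMap.adjoint B y)‖ * ‖y‖ := by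
            calc (c₀ * (‖z‖ * ‖y‖)) ^ 2 ≤ ‖ContinuousLinearMap.adjoint B y‖ ^ 2 := by
                  apply pow_le_pow_left₀ (by positivity)
                  exact hdual z y
              _ = inner ℝ (B (ContinuousLinearMap.adjoint B y)) y := by
                  rw [← real_inner_self_eq_norm_sq, ContinuousLinearMap.adjoint_inner_right]
              _ ≤ _ := real_inner_le_norm _ _
          rcases eq_or_ne y 0 with rfl | hy
          · simp
          · have hy0 : 0 < ‖y‖ := norm_pos_iff.2 hy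
            have h5 : c₀ ^ 2 * ‖z‖ ^ 2 * ‖y‖ ≤ ‖B (ContinuousLinearMap.adjoint B y)‖ := by
              refine le_of_mul_le_mul_right ?_ hy0
              calc c₀ ^ 2 * ‖z‖ ^ 2 * ‖y‖ * ‖y‖ = (c₀ * (‖z‖ * ‖y‖)) ^ 2 := by ring
                _ ≤ _ := h4
            calc c₀ ^ 2 * ‖z‖ / Λ * ‖y‖ = (Λ * ‖z‖)⁻¹ * (c₀ ^ 2 * ‖z‖ ^ 2 * ‖y‖) := by
                  field_simp
              _ ≤ _ := by gcongr) (β s z) (R := R) hδ0.le
      refine h3.trans (ENNReal.ofReal_le_ofReal ?_)
      have hρ0 : 0 ≤ δ / ρ := by positivity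
      refine le_trans ?_ (mul_le_mul_of_nonneg_left (pow_le_pow_of_le_one hρ0 h1ρ hrm) hC0)
      rw [hC, mul_assoc]
      refine mul_le_mul_of_nonneg_left ?_ ENNReal.toReal_nonneg
      rw [← mul_pow]
      apply pow_le_pow_left₀ (by positivity)
      calc 2 * δ / (c₀ ^ 2 * ‖z‖ / Λ) = (2 * Λ / c₀ ^ 2) * (δ / ‖z‖) := by
            field_simp
        _ ≤ (2 * Λ / c₀ ^ 2 + 1) * (δ / ρ) := by
            have h6 : δ / ‖z‖ ≤ δ / ρ := by gcongr
            have h7 : 0 ≤ 2 * Λ / c₀ ^ 2 := by positivity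
            have h8 : 0 ≤ δ / ρ := by positivity
            nlinarith
  refine transversal_of_dyadic (C := C * D * 2 ^ r * (2 ^ r) * v) (by positivity) fun j => ?_
  calc ∫⁻ s in ball (0 : E p) R, ∫⁻ s' in ball (0 : E p) R, volume {x : E k | ‖x‖ ≤ 1 ∧
        ‖(T₀ + (β s).comp π) x - (T₀ + (β s').comp π) x‖ ≤ (1 / 2) ^ j} ≤
      ∫⁻ _ in ball (0 : E p) R,
        ENNReal.ofReal (C * D * 2 ^ r * (2 ^ r) * ((j : ℝ) + 2) * (1 / 2) ^ (j * r)) :=
        lintegral_mono fun s => key j s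
    _ = ENNReal.ofReal (C * D * 2 ^ r * (2 ^ r) * ((j : ℝ) + 2) * (1 / 2) ^ (j * r)) *
        volume (ball (0 : E p) R) := by rw [setLIntegral_const]
    _ = _ := by
        rw [← ENNReal.ofReal_toReal (measure_ball_lt_top (μ := volume) (x := (0 : E p)) (r := R)).ne,
          ← ENNReal.ofReal_mul (by positivity)]
        congr 1
        rw [← hv]
        ring

/-- Uniformly transversal spreads, dyadic form, in any normed space. -/
theorem spread_dyadic {X : Type*} [NormedAddCommGroup X] [NormedSpace ℝ X] [MeasureSpace X]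
    [BorelSpace X] [FiniteDimensional ℝ X] [Measure.IsAddHaarMeasure (volume : Measure X)]
    (T : X → X →L[ℝ] X) (D : Set X) (hDt : volume D ≠ ∞) {c : ℝ} (hc : 0 < c)
    (hDm : MeasurableSet D)
    (hT : ∀ s ∈ D, ∀ s' ∈ D, ∀ x, c * (‖s - s'‖ * ‖x‖) ≤ ‖T s x - T s' x‖) :
    ∃ C : ℝ, 0 ≤ C ∧ ∀ j : ℕ, ∫⁻ s in D, ∫⁻ s' in D,
      volume {x : X | ‖x‖ ≤ 1 ∧ ‖T s x - T s' x‖ ≤ (1 / 2) ^ j} ≤
        ENNReal.ofReal (C * ((j : ℝ) + 2) * (1 / 2) ^ (j * finrank ℝ X)) := by
  set m := finrank ℝ X with hm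
  set vB : ℝ := (volume (ball (0 : X) 1)).toReal with hvB
  have hvBt : volume (ball (0 : X) 1) ≠ ∞ := measure_ball_lt_top.ne
  have hvB' : volume (ball (0 : X) 1) = ENNReal.ofReal vB := (ENNReal.ofReal_toReal hvBt).symm
  set v : ℝ := (volume D).toReal with hv
  have hv' : volume D = ENNReal.ofReal v := (ENNReal.ofReal_toReal hDt).symm
  set C : ℝ := vB * (1 / c + 1) ^ m with hC
  have hC0 : 0 ≤ C := by positivity
  have hD0 : 0 ≤ v + vB := by positivity
  have key : ∀ (j : ℕ), ∀ s ∈ D, ∫⁻ s' in D,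
      volume {x : X | ‖x‖ ≤ 1 ∧ ‖T s x - T s' x‖ ≤ (1 / 2) ^ j} ≤
        ENNReal.ofReal (C * (v + vB) * 2 ^ m * (2 ^ m) * ((j : ℝ) + 2) * (1 / 2) ^ (j * m)) := by
    intro j s hs
    set V : X → ℝ≥0∞ := fun s' => volume {x : X | ‖x‖ ≤ 1 ∧ ‖T s x - T s' x‖ ≤ (1 / 2) ^ j} with hV
    have h1 : ∫⁻ s' in D, V s' = ∫⁻ s' in D, D.indicator V s' :=
      setLIntegral_congr_fun hDm (fun s' hs' => by
        rw [indicator_of_mem hs'])
    rw [h1]
    refine radial (volume.restrict D) (fun s' => ‖s' - s‖) (by fun_prop) hC0 hD0 ?_ ?_ j _ ?_ ?_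
    · rw [Measure.restrict_apply_univ, hv']
      exact ENNReal.ofReal_le_ofReal (by linarith [show (0 : ℝ) ≤ vB from ENNReal.toReal_nonneg])
    · intro i
      rw [Measure.restrict_apply (measurableSet_le (by fun_prop) measurable_const)]
      have h2 : {x : X | ‖x - s‖ ≤ (1 / 2) ^ i} ∩ D ⊆ closedBall s ((1 / 2) ^ i) := by
        rintro x ⟨hx, _⟩
        rw [mem_closedBall, dist_eq_norm]
        exact hx
      refine (measure_mono h2).trans ?_
      rw [Measure.addHaar_closedBall volume s (by positivity : (0 : ℝ) ≤ (1 / 2) ^ i), hvB',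
        ← ENNReal.ofReal_mul (by positivity)]
      refine ENNReal.ofReal_le_ofReal ?_
      rw [← pow_mul, mul_comm]
      have : (0 : ℝ) ≤ (1 / 2) ^ (i * m) := by positivity
      have hv0 : 0 ≤ v := ENNReal.toReal_nonneg
      nlinarith
    · intro s'
      by_cases hs' : s' ∈ D
      · rw [indicator_of_mem hs']
        have h2 : {x : X | ‖x‖ ≤ 1 ∧ ‖T s x - T s' x‖ ≤ (1 / 2) ^ j} ⊆ closedBall 0 1 := by
          intro x hx
          rw [mem_closedBall_zero_iff]
          exact hx.1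
        refine (measure_mono h2).trans ?_
        rw [Measure.addHaar_closedBall volume (0 : X) zero_le_one, hvB', one_pow,
          ENNReal.ofReal_one, one_mul]
        refine ENNReal.ofReal_le_ofReal ?_
        rw [hC]
        refine le_mul_of_one_le_right ENNReal.toReal_nonneg (one_le_pow₀ ?_)
        have : 0 ≤ 1 / c := by positivity
        linarith
      · rw [indicator_of_notMem hs']
        exact zero_le
    · intro s' ρ hρ hρs
      by_cases hs' : s' ∈ D
      · rw [indicator_of_mem hs']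
        have h2 : {x : X | ‖x‖ ≤ 1 ∧ ‖T s x - T s' x‖ ≤ (1 / 2) ^ j} ⊆
            closedBall 0 ((1 / 2) ^ j / (c * ρ)) := by
          intro x hx
          rw [mem_closedBall_zero_iff, le_div_iff₀ (by positivity)]
          have h3 := hT s hs s' hs' x
          rw [norm_sub_rev s s'] at h3
          calc ‖x‖ * (c * ρ) = c * (ρ * ‖x‖) := by ring
            _ ≤ c * (‖s' - s‖ * ‖x‖) := by gcongr
            _ ≤ _ := h3.trans hx.2
        refine (measure_mono h2).trans ?_
        rw [Measure.addHaar_closedBall volume (0 : X) (by positivity), hvB',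
          ← ENNReal.ofReal_mul (by positivity)]
        refine ENNReal.ofReal_le_ofReal ?_
        rw [hC, mul_comm, mul_assoc, ← mul_pow]
        refine mul_le_mul_of_nonneg_left ?_ ENNReal.toReal_nonneg
        apply pow_le_pow_left₀ (by positivity)
        have h4 : (1 / 2 : ℝ) ^ j / (c * ρ) = (1 / c) * ((1 / 2) ^ j / ρ) := by field_simp
        rw [h4]
        have : (0 : ℝ) ≤ (1 / 2) ^ j / ρ := by positivity
        nlinarith
      · rw [indicator_of_notMem hs']
        exact zero_le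
  refine ⟨C * (v + vB) * 2 ^ m * (2 ^ m) * v, by positivity, fun j => ?_⟩
  calc ∫⁻ s in D, ∫⁻ s' in D, volume {x : X | ‖x‖ ≤ 1 ∧ ‖T s x - T s' x‖ ≤ (1 / 2) ^ j} ≤
      ∫⁻ _ in D, ENNReal.ofReal (C * (v + vB) * 2 ^ m * (2 ^ m) * ((j : ℝ) + 2) * (1 / 2) ^ (j * m)) :=
        setLIntegral_mono' hDm fun s hs => key j s hs
    _ = ENNReal.ofReal (C * (v + vB) * 2 ^ m * (2 ^ m) * ((j : ℝ) + 2) * (1 / 2) ^ (j * m)) *
        volume D := by rw [setLIntegral_const]
    _ = _ := by
        rw [hv', ← ENNReal.ofReal_mul (by positivity)]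
        congr 1
        ring

/-- **Uniformly transversal spreads.** -/
theorem spread_transversal {m : ℕ} (T : E m → E m →L[ℝ] E m) (D : Set (E m))
    (hDt : volume D ≠ ∞) {c : ℝ} (hc : 0 < c) (hDm : MeasurableSet D)
    (hT : ∀ s ∈ D, ∀ s' ∈ D, ∀ x, c * (‖s - s'‖ * ‖x‖) ≤ ‖T s x - T s' x‖) :
    Transversal (volume.restrict D) T m := by
  obtain ⟨C, hC, h⟩ := spread_dyadic T D hDt hc hDm hT
  rw [finrank_euclideanSpace_fin] at h
  exact transversal_of_dyadic hC h

theorem spread_transvD {X : Type*} [NormedAddCommGroup X] [NormedSpace ℝ X] [MeasureSpace X]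
    [BorelSpace X] [FiniteDimensional ℝ X] [Measure.IsAddHaarMeasure (volume : Measure X)]
    (T : X → X →L[ℝ] X) (D : Set X) (hDt : volume D ≠ ∞) {c : ℝ} (hc : 0 < c)
    (hDm : MeasurableSet D)
    (hT : ∀ s ∈ D, ∀ s' ∈ D, ∀ x, c * (‖s - s'‖ * ‖x‖) ≤ ‖T s x - T s' x‖) :
    TransvD (volume.restrict D) T (finrank ℝ X) := by
  obtain ⟨C, hC, h⟩ := spread_dyadic T D hDt hc hDm hT
  refine ⟨2 * C + 1, 1, by positivity, fun j => ?_⟩
  have h1 := h j
  simp only [smallSet, ContinuousLinearMap.sub_apply]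
  refine h1.trans (ENNReal.ofReal_le_ofReal ?_)
  have h2 : (1 / 2 : ℝ) ^ (j * finrank ℝ X) = 2 ^ (-((finrank ℝ X : ℝ) * j)) := by
    rw [← half_pow_rpow, Real.rpow_natCast, ← pow_mul]
  rw [h2, pow_one]
  have hj0 : (0 : ℝ) ≤ j := Nat.cast_nonneg j
  have h3 : (0 : ℝ) ≤ 2 ^ (-((finrank ℝ X : ℝ) * j)) := by positivity
  have h4 : C * ((j : ℝ) + 2) ≤ (2 * C + 1) * ((j : ℝ) + 1) := by nlinarith
  calc C * ((j : ℝ) + 2) * 2 ^ (-((finrank ℝ X : ℝ) * j)) ≤
      ((2 * C + 1) * ((j : ℝ) + 1)) * 2 ^ (-((finrank ℝ X : ℝ) * j)) := by gcongr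
    _ = _ := by ring

end Pool.Agent.V5helper3.Kak
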