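import Pool.Agent.V5helper3.Kak.Main

set_option autoImplicit false
set_option linter.unusedSectionVars false
set_option linter.deprecated false

open MeasureTheory Set Metric ENNReal NNReal Filter Topology Module
open scoped Pointwise

namespace Pool.Agent.V5helper3.Kak

/-- The volume of a set that meets each translate of the range of `ι` in a set of diameter `≤ d`. -/
theorem strip_set {p m : ℕ} {G : Set (E p)} (hGm : MeasurableSet G) (ι : E m →L[ℝ] E p)
    (hι : ‖ι‖ ≤ 1) {R d : ℝ} (hR : ∀ u ∈ G, ‖u‖ ≤ R) (hd0 : 0 ≤ d)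
    (hd : ∀ u ∈ G, ∀ y : E m, u + ι y ∈ G → ‖y‖ ≤ d) :
    volume G ≤ ENNReal.ofReal ((volume (closedBall (0 : E p) (R + 1))).toReal * d ^ m) := by
  set H : Set (E p × E m) := {z | z.2 ∈ ball (0 : E m) 1 ∧ z.1 + ι z.2 ∈ G} with hH
  have hHm : MeasurableSet H := by
    refine (measurable_snd measurableSet_ball).inter ?_
    have : Measurable fun z : E p × E m => z.1 + ι z.2 := by fun_prop
    exact this hGm
  have h1 : (volume : Measure (E p)).prod (volume : Measure (E m)) H =
      volume G * volume (ball (0 : E m) 1) := by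
    rw [Measure.prod_apply_symm hHm]
    have h2 : ∀ y : E m, volume ((fun u : E p => (u, y)) ⁻¹' H) =
        (ball (0 : E m) 1).indicator (fun _ => volume G) y := by
      intro y
      by_cases hy : y ∈ ball (0 : E m) 1
      · rw [indicator_of_mem hy]
        have : (fun u : E p => (u, y)) ⁻¹' H = (fun u : E p => u + ι y) ⁻¹' G := by
          ext u
          simp only [hH, mem_preimage, mem_setOf_eq, hy, true_and]
        rw [this, measure_preimage_add_right]
      · rw [indicator_of_notMem hy]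
        have : (fun u : E p => (u, y)) ⁻¹' H = ∅ := by
          ext u
          simp only [hH, mem_preimage, mem_setOf_eq, hy, false_and, mem_empty_iff_false]
        rw [this, measure_empty]
    simp_rw [h2]
    rw [lintegral_indicator_const measurableSet_ball]
  have h3 : ∀ u : E p, volume (Prod.mk u ⁻¹' H) ≤
      (closedBall (0 : E p) (R + 1)).indicator (fun _ => volume (closedBall (0 : E m) d)) u := by
    intro u
    rcases (Prod.mk u ⁻¹' H).eq_empty_or_nonempty with h | ⟨y₀, hy₀⟩
    · rw [h, measure_empty]; exact zero_le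
    · have hy1 : y₀ ∈ ball (0 : E m) 1 := hy₀.1
      have hy2 : u + ι y₀ ∈ G := hy₀.2
      have hy1' : ‖y₀‖ < 1 := by simpa using hy1
      have hι' : ‖ι y₀‖ ≤ ‖y₀‖ := by
        calc ‖ι y₀‖ ≤ ‖ι‖ * ‖y₀‖ := ι.le_opNorm _
          _ ≤ 1 * ‖y₀‖ := by gcongr
          _ = ‖y₀‖ := one_mul _
      have hu : u ∈ closedBall (0 : E p) (R + 1) := by
        rw [mem_closedBall_zero_iff]
        calc ‖u‖ = ‖(u + ι y₀) - ι y₀‖ := by congr 1; abel
          _ ≤ ‖u + ι y₀‖ + ‖ι y₀‖ := norm_sub_le _ _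
          _ ≤ R + 1 := add_le_add (hR _ hy2) (hι'.trans hy1'.le)
      rw [indicator_of_mem hu]
      have hsub : Prod.mk u ⁻¹' H ⊆ closedBall y₀ d := by
        intro y hy
        have hy4 : u + ι y ∈ G := hy.2
        rw [mem_closedBall, dist_eq_norm]
        refine hd _ hy2 (y - y₀) ?_
        rw [map_sub]
        convert hy4 using 1
        abel
      refine (measure_mono hsub).trans (le_of_eq ?_)
      have := Measure.addHaar_closedBall_center (volume : Measure (E m)) y₀ d
      rw [this]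
  have h4 : volume G * volume (ball (0 : E m) 1) ≤
      volume (closedBall (0 : E p) (R + 1)) * volume (closedBall (0 : E m) d) := by
    rw [← h1, Measure.prod_apply hHm]
    refine (lintegral_mono h3).trans (le_of_eq ?_)
    rw [lintegral_indicator_const measurableSet_closedBall, mul_comm]
  have hv0 : volume (ball (0 : E m) 1) ≠ 0 := (measure_ball_pos volume _ one_pos).ne'
  have hvt : volume (ball (0 : E m) 1) ≠ ∞ := measure_ball_lt_top.ne
  rw [Measure.addHaar_closedBall volume (0 : E m) hd0, ← mul_assoc,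
    ENNReal.mul_le_mul_iff_left hv0 hvt, finrank_euclideanSpace_fin] at h4
  refine h4.trans (le_of_eq ?_)
  rw [ENNReal.ofReal_mul ENNReal.toReal_nonneg, ENNReal.ofReal_toReal measure_closedBall_lt_top.ne]

/-- How well a family has to be approximated by the linear family `D`. -/
theorem exists_eps {p k' m : ℕ} (D : E p →L[ℝ] E k' →L[ℝ] E m)
    (hD : ∀ x : E k', x ≠ 0 → Function.Surjective fun σ => D σ x) :
    ∃ ε : ℝ≥0, ε ≠ 0 ∧ ∀ (k : ℕ) (π : E k →L[ℝ] E k'), Function.Surjective π →
      ∀ (T₀ : E k →L[ℝ] E m) (g : E p → E k' →L[ℝ] E m), Continuous g → ∀ G : Set (E p),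
        MeasurableSet G → ∀ R : ℝ, G ⊆ ball 0 R → ApproximatesLinearOn g D G ε →
          Transversal (volume.restrict G) (fun s => T₀ + (g s).comp π) ((min m k' : ℕ) : ℝ) := by
  obtain ⟨c₀, hc₀, hdual⟩ := exists_dual_bound D hD
  set Λ : ℝ := ‖D.flip‖ + 1 with hΛ
  have hΛ0 : 0 < Λ := by positivity
  refine ⟨(c₀ ^ 2 / (2 * Λ)).toNNReal, ?_, ?_⟩
  · rw [Ne, Real.toNNReal_eq_zero, not_le]
    positivity
  intro k π hπ T₀ g hg G hGm R hGR happ
  have hεval : ((c₀ ^ 2 / (2 * Λ)).toNNReal : ℝ) = c₀ ^ 2 / (2 * Λ) :=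
    Real.coe_toNNReal _ (by positivity)
  set r : ℕ := min m k' with hr
  have hrm : r ≤ m := min_le_left _ _
  have hrk : r ≤ k' := min_le_right _ _
  obtain ⟨γ, hγ⟩ := (π : E k →ₗ[ℝ] E k').exists_rightInverse_of_surjective
    (LinearMap.range_eq_top.2 hπ)
  set Γ : E k' →L[ℝ] E k := LinearMap.toContinuousLinearMap γ with hΓ
  have hπΓ : ∀ y, π (Γ y) = y := fun y => by
    have := LinearMap.congr_fun hγ y
    change π (γ y) = y
    simpa using this
  -- constants
  set M : ℝ := (volume (closedBall (0 : E k) (1 + 1))).toReal * (2 * (‖Γ‖ + 1)) ^ k' +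
    (volume (closedBall (0 : E k) 1)).toReal with hM
  have hM0 : 0 ≤ M := by positivity
  set C : ℝ := (volume (closedBall (0 : E p) (R + 1))).toReal * (4 * Λ / c₀ ^ 2 + 1) ^ m with hC
  have hC0 : 0 ≤ C := by positivity
  set v : ℝ := (volume (ball (0 : E p) R)).toReal with hv
  have key : ∀ (j : ℕ) (s : E p), ∫⁻ s' in G,
      volume {x : E k | ‖x‖ ≤ 1 ∧ ‖(T₀ + (g s).comp π) x - (T₀ + (g s').comp π) x‖ ≤ (1 / 2) ^ j} ≤
        ENNReal.ofReal (C * M * 2 ^ r * (2 ^ r) * ((j : ℝ) + 2) * (1 / 2) ^ (j * r)) := by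
    intro j s
    set δ : ℝ := (1 / 2) ^ j with hδ
    have hδ0 : 0 < δ := by positivity
    set W : Set (E p × E k) := {z | ‖z.2‖ ≤ 1 ∧ ‖g s (π z.2) - g z.1 (π z.2)‖ ≤ δ} with hW
    have hWm : MeasurableSet W := by
      have h1 : IsClosed {z : E p × E k | ‖z.2‖ ≤ 1} := isClosed_le (by fun_prop) continuous_const
      have h2 : IsClosed {z : E p × E k | ‖g s (π z.2) - g z.1 (π z.2)‖ ≤ δ} := by
        refine isClosed_le ?_ continuous_const
        have h3 : Continuous fun z : E p × E k => g z.1 (π z.2) :=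
          (hg.comp continuous_fst).clm_apply (π.continuous.comp continuous_snd)
        exact (((g s).continuous.comp (π.continuous.comp continuous_snd)).sub h3).norm
      exact h1.measurableSet.inter h2.measurableSet
    have h1 : ∀ s' : E p, {x : E k | ‖x‖ ≤ 1 ∧ ‖(T₀ + (g s).comp π) x - (T₀ + (g s').comp π) x‖ ≤ δ} =
        Prod.mk s' ⁻¹' W := by
      intro s'
      ext x
      simp only [mem_setOf_eq, hW, mem_preimage, ContinuousLinearMap.add_apply,
        ContinuousLinearMap.comp_apply, add_sub_add_left_eq_sub]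
    simp_rw [h1]
    rw [← Measure.prod_apply hWm, Measure.prod_apply_symm hWm]
    set V : E k → ℝ≥0∞ := fun x => volume {s' : E p | s' ∈ G ∧ ‖g s (π x) - g s' (π x)‖ ≤ δ}
      with hV
    have hVm : ∀ x, MeasurableSet {s' : E p | s' ∈ G ∧ ‖g s (π x) - g s' (π x)‖ ≤ δ} := by
      intro x
      have h3 : Continuous fun s' : E p => g s' (π x) := hg.clm_apply continuous_const
      have h2 : IsClosed {s' : E p | ‖g s (π x) - g s' (π x)‖ ≤ δ} :=
        isClosed_le (continuous_const.sub h3).norm continuous_const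
      exact hGm.inter h2.measurableSet
    have h2 : ∀ x : E k, (volume.restrict G) ((fun s' => (s', x)) ⁻¹' W) ≤
        (closedBall (0 : E k) 1).indicator V x := by
      intro x
      by_cases hx : x ∈ closedBall (0 : E k) 1
      · rw [indicator_of_mem hx, Measure.restrict_apply (measurable_prodMk_right hWm)]
        apply measure_mono
        rintro s' ⟨hs'1, hs'2⟩
        exact ⟨hs'2, hs'1.2⟩
      · have : (fun s' : E p => (s', x)) ⁻¹' W = ∅ := by
          ext s'
          simp only [mem_preimage, hW, mem_setOf_eq, mem_empty_iff_false, iff_false, not_and]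
          intro hx'
          exact absurd (mem_closedBall_zero_iff.2 hx') hx
        rw [this, measure_empty]
        exact zero_le
    refine (lintegral_mono h2).trans ?_
    rw [lintegral_indicator measurableSet_closedBall]
    have hV1 : ∀ x, V x ≤ ENNReal.ofReal C := by
      intro x
      have h3 : {s' : E p | s' ∈ G ∧ ‖g s (π x) - g s' (π x)‖ ≤ δ} ⊆ closedBall 0 (R + 1) := by
        intro s' hs'
        have := mem_ball_zero_iff.1 (hGR hs'.1)
        rw [mem_closedBall_zero_iff]
        linarith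
      refine (measure_mono h3).trans ?_
      rw [← ENNReal.ofReal_toReal (measure_closedBall_lt_top (μ := volume) (x := (0 : E p)) (r := R + 1)).ne]
      refine ENNReal.ofReal_le_ofReal ?_
      rw [hC]
      refine le_mul_of_one_le_right ENNReal.toReal_nonneg (one_le_pow₀ ?_)
      have : 0 ≤ 4 * Λ / c₀ ^ 2 := by positivity
      linarith
    refine radial (volume.restrict (closedBall (0 : E k) 1)) (fun x => ‖π x‖)
      (by fun_prop) hC0 hM0 ?_ ?_ j V hV1 ?_
    · rw [Measure.restrict_apply_univ]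
      calc volume (closedBall (0 : E k) 1) =
          ENNReal.ofReal (volume (closedBall (0 : E k) 1)).toReal :=
            (ENNReal.ofReal_toReal measure_closedBall_lt_top.ne).symm
        _ ≤ ENNReal.ofReal M := ENNReal.ofReal_le_ofReal (by rw [hM]; exact le_add_of_nonneg_left (by positivity))
    · intro i
      have hρ : (0 : ℝ) ≤ (1 / 2) ^ i := by positivity
      have hGn : 0 < ‖Γ‖ + 1 := by positivity
      have h3 := strip_real π ((‖Γ‖ + 1)⁻¹ • Γ) (by
        rw [norm_smul, norm_inv, Real.norm_of_nonneg hGn.le, inv_mul_le_iff₀ hGn]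
        linarith) (κ := (‖Γ‖ + 1)⁻¹) (by positivity) (fun y => by
          rw [ContinuousLinearMap.smul_apply, map_smul, hπΓ, norm_smul, norm_inv,
            Real.norm_of_nonneg hGn.le]) (0 : E k') (R := 1) hρ
      rw [Measure.restrict_apply (measurableSet_le (by fun_prop) measurable_const)]
      have h4 : {x : E k | ‖π x‖ ≤ (1 / 2) ^ i} ∩ closedBall 0 1 ⊆
          {u : E k | ‖u‖ ≤ 1 ∧ ‖π u - 0‖ ≤ (1 / 2) ^ i} := by
        rintro x ⟨hx1, hx2⟩
        refine ⟨mem_closedBall_zero_iff.1 hx2, ?_⟩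
        rw [sub_zero]
        exact hx1
      refine (measure_mono h4).trans (h3.trans (ENNReal.ofReal_le_ofReal ?_))
      rw [div_inv_eq_mul]
      have h5 : (2 * (1 / 2 : ℝ) ^ i * (‖Γ‖ + 1)) ^ k' ≤ (2 * (‖Γ‖ + 1)) ^ k' * (1 / 2) ^ (i * r) := by
        have h6 : (2 * (1 / 2 : ℝ) ^ i * (‖Γ‖ + 1)) ^ k' = (2 * (‖Γ‖ + 1)) ^ k' * (1 / 2) ^ (i * k') := by
          rw [pow_mul, ← mul_pow]
          congr 1
          ring
        rw [h6]
        have h7 : (1 / 2 : ℝ) ^ (i * k') ≤ (1 / 2) ^ (i * r) :=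
          pow_le_pow_of_le_one (by norm_num) (by norm_num) (Nat.mul_le_mul_left i hrk)
        gcongr
      calc (volume (closedBall (0 : E k) (1 + 1))).toReal * (2 * (1 / 2 : ℝ) ^ i * (‖Γ‖ + 1)) ^ k' ≤
          (volume (closedBall (0 : E k) (1 + 1))).toReal * ((2 * (‖Γ‖ + 1)) ^ k' * (1 / 2) ^ (i * r)) := by
            gcongr
        _ ≤ M * (1 / 2) ^ (i * r) := by
            rw [hM, add_mul, ← mul_assoc]
            exact le_add_of_nonneg_right (by positivity)
    · intro x ρ hρ hρx
      rcases lt_or_ge 1 (δ / ρ) with h1ρ | h1ρ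
      · refine (hV1 x).trans (ENNReal.ofReal_le_ofReal ?_)
        exact le_mul_of_one_le_right hC0 (one_le_pow₀ h1ρ.le)
      set z : E k' := π x with hz
      have hz0 : 0 < ‖z‖ := lt_trans hρ hρx
      set B : E p →L[ℝ] E m := D.flip z with hB
      have hBn : ‖B‖ ≤ Λ * ‖z‖ := by
        calc ‖B‖ ≤ ‖D.flip‖ * ‖z‖ := D.flip.le_opNorm z
          _ ≤ Λ * ‖z‖ := by
            rw [hΛ]
            nlinarith
      have hΛz : 0 < Λ * ‖z‖ := by positivity
      set ι : E m →L[ℝ] E p := (Λ * ‖z‖)⁻¹ • ContinuousLinearMap.adjoint B with hι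
      have hιn : ‖ι‖ ≤ 1 := by
        rw [hι, norm_smul, norm_inv, Real.norm_of_nonneg hΛz.le, inv_mul_le_iff₀ hΛz,
          LinearIsometryEquiv.norm_map, mul_one]
        exact hBn
      have hBι : ∀ y, c₀ ^ 2 * ‖z‖ / Λ * ‖y‖ ≤ ‖B (ι y)‖ := by
        intro y
        rw [hι, ContinuousLinearMap.smul_apply, map_smul, norm_smul, norm_inv,
          Real.norm_of_nonneg hΛz.le]
        have h4 : (c₀ * (‖z‖ * ‖y‖)) ^ 2 ≤ ‖B (ContinuousLinearMap.adjoint B y)‖ * ‖y‖ := by
          calc (c₀ * (‖z‖ * ‖y‖)) ^ 2 ≤ ‖ContinuousLinearMap.adjoint B y‖ ^ 2 := by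
                apply pow_le_pow_left₀ (by positivity)
                exact hdual z y
            _ = inner ℝ (B (ContinuousLinearMap.adjoint B y)) y := by
                rw [← real_inner_self_eq_norm_sq, ContinuousLinearMap.adjoint_inner_right]
            _ ≤ _ := real_inner_le_norm _ _
        rcases eq_or_ne y 0 with rfl | hy
        · simp
        · have hy0 : 0 < ‖y‖ := norm_pos_iff.2 hy
          have h5 : c₀ ^ 2 * ‖z‖ ^ 2 * ‖y‖ ≤ ‖B (ContinuousLinearMap.adjoint B y)‖ := by
            refine le_of_mul_le_mul_right ?_ hy0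
            calc c₀ ^ 2 * ‖z‖ ^ 2 * ‖y‖ * ‖y‖ = (c₀ * (‖z‖ * ‖y‖)) ^ 2 := by ring
              _ ≤ _ := h4
          calc c₀ ^ 2 * ‖z‖ / Λ * ‖y‖ = (Λ * ‖z‖)⁻¹ * (c₀ ^ 2 * ‖z‖ ^ 2 * ‖y‖) := by
                field_simp
            _ ≤ _ := by gcongr
      have h3 := strip_set (hVm x) ι hιn (R := R) (d := 4 * Λ * δ / (c₀ ^ 2 * ‖z‖))
        (fun u hu => (mem_ball_zero_iff.1 (hGR hu.1)).le) (by positivity) (fun u hu y huy => by
          have h4 := happ (u + ι y) huy.1 u hu.1
          rw [hεval, add_sub_cancel_left] at h4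
          have h5 : ‖(g (u + ι y) - g u) z‖ ≤ 2 * δ := by
            have h6 : (g (u + ι y) - g u) z = (g s z - g u z) - (g s z - g (u + ι y) z) := by
              rw [ContinuousLinearMap.sub_apply]; abel
            rw [h6]
            calc ‖(g s z - g u z) - (g s z - g (u + ι y) z)‖ ≤ ‖g s z - g u z‖ + ‖g s z - g (u + ι y) z‖ :=
                  norm_sub_le _ _
              _ ≤ δ + δ := add_le_add hu.2 huy.2
              _ = 2 * δ := by ring
          have hιy : ‖ι y‖ ≤ ‖y‖ := by
            calc ‖ι y‖ ≤ ‖ι‖ * ‖y‖ := ι.le_opNorm _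
              _ ≤ 1 * ‖y‖ := by gcongr
              _ = ‖y‖ := one_mul _
          have h7 : ‖B (ι y)‖ ≤ 2 * δ + c₀ ^ 2 / (2 * Λ) * ‖y‖ * ‖z‖ := by
            have h8 : B (ι y) = (g (u + ι y) - g u) z - (g (u + ι y) - g u - D (ι y)) z := by
              rw [ContinuousLinearMap.sub_apply, ContinuousLinearMap.sub_apply, hB,
                ContinuousLinearMap.flip_apply]
              rw [ContinuousLinearMap.sub_apply]
              abel
            rw [h8]
            calc ‖(g (u + ι y) - g u) z - (g (u + ι y) - g u - D (ι y)) z‖ ≤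
                ‖(g (u + ι y) - g u) z‖ + ‖(g (u + ι y) - g u - D (ι y)) z‖ := norm_sub_le _ _
              _ ≤ 2 * δ + (c₀ ^ 2 / (2 * Λ) * ‖y‖) * ‖z‖ := by
                  refine add_le_add h5 (((g (u + ι y) - g u - D (ι y)).le_opNorm z).trans ?_)
                  refine mul_le_mul_of_nonneg_right (h4.trans ?_) (norm_nonneg _)
                  gcongr
          have h9 := (hBι y).trans h7
          have h10 : c₀ ^ 2 * ‖z‖ / (2 * Λ) * ‖y‖ ≤ 2 * δ := by
            have h11 : c₀ ^ 2 * ‖z‖ / Λ * ‖y‖ = 2 * (c₀ ^ 2 * ‖z‖ / (2 * Λ) * ‖y‖) := by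
              field_simp
            have h12 : c₀ ^ 2 / (2 * Λ) * ‖y‖ * ‖z‖ = c₀ ^ 2 * ‖z‖ / (2 * Λ) * ‖y‖ := by ring
            rw [h11, h12] at h9
            linarith
          rw [le_div_iff₀ (by positivity)]
          rw [div_mul_eq_mul_div, div_le_iff₀ (by positivity)] at h10
          linarith)
      refine h3.trans (ENNReal.ofReal_le_ofReal ?_)
      have hρ0 : 0 ≤ δ / ρ := by positivity
      refine le_trans ?_ (mul_le_mul_of_nonneg_left (pow_le_pow_of_le_one hρ0 h1ρ hrm) hC0)
      rw [hC, mul_assoc ((volume (closedBall (0 : E p) (R + 1))).toReal)]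
      refine mul_le_mul_of_nonneg_left ?_ ENNReal.toReal_nonneg
      rw [← mul_pow]
      apply pow_le_pow_left₀ (by positivity)
      calc 4 * Λ * δ / (c₀ ^ 2 * ‖z‖) = (4 * Λ / c₀ ^ 2) * (δ / ‖z‖) := by
            field_simp
        _ ≤ (4 * Λ / c₀ ^ 2 + 1) * (δ / ρ) := by
            have h6 : δ / ‖z‖ ≤ δ / ρ := by gcongr
            have h7 : 0 ≤ 4 * Λ / c₀ ^ 2 := by positivity
            have h8 : 0 ≤ δ / ρ := by positivity
            nlinarith
  refine transversal_of_dyadic (C := C * M * 2 ^ r * (2 ^ r) * v) (by positivity) fun j => ?_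
  calc ∫⁻ s in G, ∫⁻ s' in G, volume {x : E k | ‖x‖ ≤ 1 ∧
        ‖(T₀ + (g s).comp π) x - (T₀ + (g s').comp π) x‖ ≤ (1 / 2) ^ j} ≤
      ∫⁻ _ in G,
        ENNReal.ofReal (C * M * 2 ^ r * (2 ^ r) * ((j : ℝ) + 2) * (1 / 2) ^ (j * r)) :=
        lintegral_mono fun s => key j s
    _ = ENNReal.ofReal (C * M * 2 ^ r * (2 ^ r) * ((j : ℝ) + 2) * (1 / 2) ^ (j * r)) *
        volume G := by rw [setLIntegral_const]
    _ ≤ ENNReal.ofReal (C * M * 2 ^ r * (2 ^ r) * ((j : ℝ) + 2) * (1 / 2) ^ (j * r)) *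
        volume (ball (0 : E p) R) := by gcongr
    _ = _ := by
        rw [← ENNReal.ofReal_toReal (measure_ball_lt_top (μ := volume) (x := (0 : E p)) (r := R)).ne,
          ← ENNReal.ofReal_mul (by positivity)]
        congr 1
        rw [← hv]
        ring

end Pool.Agent.V5helper3.Kak
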