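import Pool.Agent.V5helper3.Kak.ExC

set_option autoImplicit false
set_option linter.unusedSectionVars false
set_option linter.deprecated false

open MeasureTheory Set Metric ENNReal NNReal Filter Topology Module
open scoped Pointwise

namespace Pool.Agent.V5helper3.Kak

instance prodHaar {X Y : Type*} [NormedAddCommGroup X] [NormedSpace ℝ X] [MeasureSpace X]
    [BorelSpace X] [FiniteDimensional ℝ X] [Measure.IsAddHaarMeasure (volume : Measure X)]
    [NormedAddCommGroup Y] [NormedSpace ℝ Y] [MeasureSpace Y]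
    [BorelSpace Y] [FiniteDimensional ℝ Y] [Measure.IsAddHaarMeasure (volume : Measure Y)] :
    Measure.IsAddHaarMeasure (volume : Measure (X × Y)) :=
  inferInstanceAs (Measure.IsAddHaarMeasure ((volume : Measure X).prod (volume : Measure Y)))

/-- **Slices by a transversal family of planes.** -/
theorem slices {k m : ℕ} {S : Type} [MeasurableSpace S] (μ : Measure S) (T : S → E k →L[ℝ] E m)
    (hT : Measurable T) {r γ t : ℝ} (ht : 0 < t) (hr : Transversal μ T r) (K : Set (E k × E m))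
    (A : Set S) (hA : μ A ≠ 0)
    (h : ∀ s ∈ A, ∃ B : Set (E m), PackingDimLE γ B ∧
      ENNReal.ofReal t ≤ dimH {x : E k | ∃ b ∈ B, (x, T s x + b) ∈ K}) :
    ENNReal.ofReal (2 * t - k + r - 2 * γ) ≤ dimH K := by
  by_contra hlt
  rw [not_le] at hlt
  obtain ⟨u, hu1, hu2⟩ := ENNReal.lt_iff_exists_nnreal_btwn.1 hlt
  have hu : (u : ℝ) < 2 * t - k + r - 2 * γ := by
    rw [← ENNReal.ofReal_coe_nnreal] at hu2
    exact (ENNReal.ofReal_lt_ofReal_iff_of_nonneg u.2).1 hu2
  set ε : ℝ := min ((2 * t - k + r - 2 * γ - u) / 5) (t / 2) with hε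
  have hε0 : 0 < ε := lt_min (by linarith) (by linarith)
  have hε1 : 5 * ε ≤ 2 * t - k + r - 2 * γ - u := by
    have := min_le_left ((2 * t - k + r - 2 * γ - u) / 5) (t / 2)
    rw [← hε] at this
    linarith
  have hε2 : ε < t := by
    have := min_le_right ((2 * t - k + r - 2 * γ - u) / 5) (t / 2)
    rw [← hε] at this
    linarith
  have hbig := step hT (hr.transvD (r' := r - ε) (by linarith)) (K := K) hA
    (e := (k : ℝ) - (t - ε)) (β := γ + ε) (fun s hs => by
      obtain ⟨B, hB, hd⟩ := h s hs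
      obtain ⟨B', hBB', hC⟩ := hB.covD (γ' := γ + ε) (by linarith)
      refine ⟨B', hC, ?_⟩
      have h1 : (((t - ε).toNNReal : ℝ≥0) : ℝ≥0∞) < dimH {x : E k | ∃ b ∈ B, (x, T s x + b) ∈ K} := by
        refine lt_of_lt_of_le ?_ hd
        rw [show (((t - ε).toNNReal : ℝ≥0) : ℝ≥0∞) = ENNReal.ofReal (t - ε) from rfl]
        exact (ENNReal.ofReal_lt_ofReal_iff ht).2 (by linarith)
      have h2 := big_of_lt_dimH h1
      rw [finrank_euclideanSpace_fin, Real.coe_toNNReal _ (by linarith)] at h2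
      refine h2.mono ?_
      rintro x ⟨b, hb, hx⟩
      obtain ⟨l, hl⟩ := mem_iUnion.1 (hBB' hb)
      exact ⟨l, b, hl, hx⟩)
  have h3 := hbig.le_dimH
  rw [Module.finrank_prod, finrank_euclideanSpace_fin, finrank_euclideanSpace_fin] at h3
  have h4 : (u : ℝ≥0∞) ≤ dimH K := by
    refine le_trans ?_ h3
    rw [← ENNReal.ofReal_coe_nnreal]
    refine ENNReal.ofReal_le_ofReal ?_
    push_cast
    linarith
  exact absurd hu1 (not_lt.2 h4)

theorem dimH_le_nat {n : ℕ} (K : Set (E n)) : dimH K ≤ n := by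
  refine (dimH_mono (subset_univ K)).trans (le_of_eq ?_)
  rw [Real.dimH_univ_eq_finrank, finrank_euclideanSpace_fin]

theorem dimH_eq_of_volume {n : ℕ} {K : Set (E n)} (h : volume K ≠ 0) : dimH K = n := by
  refine le_antisymm (dimH_le_nat K) ?_
  have h1 := (big_of_volume_ne_zero h).le_dimH
  rw [finrank_euclideanSpace_fin, sub_zero, ENNReal.ofReal_natCast] at h1
  exact h1

theorem Big.mono_exp {Z : Type*} [PseudoEMetricSpace Z] [MeasureSpace Z] {e e' : ℝ} (he : e ≤ e')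
    {K : Set Z} (h : Big e K) : Big e' K := by
  obtain ⟨c, A, p, hc, hA, h⟩ := h
  refine ⟨c, A, p, hc, hA, fun Y hY => ?_⟩
  obtain ⟨j, hj⟩ := h Y hY
  refine ⟨j, le_trans (ENNReal.ofReal_le_ofReal ?_) hj⟩
  have h1 : gw e' p j ≤ gw e p j := by
    unfold gw
    have h2 : (2 : ℝ) ^ (-(e' * j)) ≤ 2 ^ (-(e * j)) := by
      apply Real.rpow_le_rpow_of_exponent_le (by norm_num)
      have : (0 : ℝ) ≤ j := Nat.cast_nonneg j
      nlinarith
    gcongr
  gcongr

theorem Fibred.big {n : ℕ} {e : ℝ} {K : Set (E n)} (h : Fibred n e K) :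
    ∀ ε : ℝ, 0 < ε → Big (e + ε) K := by
  induction h with
  | pos K h =>
    intro ε hε
    exact (big_of_volume_ne_zero h).mono_exp (by linarith)
  | @step n k m φ S _ μ T hT r hμ A hA γ B hB e K hK ih =>
    intro ε hε
    have h1 := Pool.Agent.V5helper3.Kak.step hT (hμ.transvD (r' := r - ε / 5) (by linarith)) (K := φ '' K) hA
      (e := e + ε / 5) (β := γ + ε / 5) (fun s hs => by
        obtain ⟨B', hBB', hC⟩ := (hB s hs).covD (γ' := γ + ε / 5) (by linarith)
        refine ⟨B', hC, ?_⟩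
        refine (ih s hs (ε / 5) (by linarith)).mono ?_
        rintro x ⟨b, hb, hx⟩
        obtain ⟨l, hl⟩ := mem_iUnion.1 (hBB' hb)
        refine ⟨l, b, hl, ?_⟩
        rw [φ.image_eq_preimage_symm, mem_preimage]
        exact hx)
    have h2 := h1.preimage_equiv φ
    rw [φ.injective.preimage_image, finrank_euclideanSpace_fin] at h2
    exact h2.mono_exp (by linarith)

/-- **Hausdorff dimension of fibred sets.** -/
theorem Fibred.le_dimH {n : ℕ} {e : ℝ} {K : Set (E n)} (h : Fibred n e K) :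
    ENNReal.ofReal (n - e) ≤ dimH K := by
  by_contra hlt
  rw [not_le] at hlt
  obtain ⟨u, hu1, hu2⟩ := ENNReal.lt_iff_exists_nnreal_btwn.1 hlt
  have hu : (u : ℝ) < n - e := by
    rw [← ENNReal.ofReal_coe_nnreal] at hu2
    exact (ENNReal.ofReal_lt_ofReal_iff_of_nonneg u.2).1 hu2
  have h4 := (h.big (n - e - u) (by linarith)).le_dimH
  rw [finrank_euclideanSpace_fin, show (n : ℝ) - (e + (n - e - u)) = u by ring,
    ENNReal.ofReal_coe_nnreal] at h4
  exact absurd hu1 (not_lt.2 h4)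

/-- Volumes of neighbourhoods of big sets. -/
theorem Big.volume_thickening' {Z : Type*} [PseudoEMetricSpace Z] [MeasureSpace Z] {e : ℝ}
    (he : 0 ≤ e) {K : Set Z} (h : Big e K) {ε : ℝ} (hε : 0 < ε) :
    ∃ c : ℝ, 0 < c ∧ ∀ δ : ℝ, 0 < δ → δ ≤ 1 →
      ENNReal.ofReal (c * δ ^ (e + ε)) ≤ volume (thickening δ K) := by
  obtain ⟨c, A, p, hc, hA, h⟩ := h
  obtain ⟨M, hM0, hM⟩ := exists_bound_gw e hε p
  obtain ⟨L, hL⟩ : ∃ L : ℕ, A ≤ (2 : ℝ) ^ L := by
    obtain ⟨L, hL⟩ := pow_unbounded_of_one_lt A (by norm_num : (1 : ℝ) < 2)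
    exact ⟨L, hL.le⟩
  refine ⟨c / M * ((1 / 2) ^ (L + 1)) ^ (e + ε), by positivity, fun δ hδ hδ1 => ?_⟩
  obtain ⟨i, hi1, hi2⟩ := exists_nat_pow_near_of_lt_one hδ hδ1
    (by norm_num : (0 : ℝ) < 1 / 2) (by norm_num)
  have hA' : A * (1 / 2) ^ (i + 1 + L) ≤ δ := by
    have h4 : A * (1 / 2) ^ (i + 1 + L) = (A / 2 ^ L) * (1 / 2) ^ (i + 1) := by
      rw [pow_add, one_div, inv_pow, inv_pow]
      field_simp
    rw [h4]
    have h5 : A / 2 ^ L ≤ 1 := by
      rw [div_le_one (by positivity)]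
      exact hL
    calc A / 2 ^ L * (1 / 2) ^ (i + 1) ≤ 1 * (1 / 2) ^ (i + 1) := by gcongr
      _ ≤ δ := by linarith
  obtain ⟨j, hj⟩ := h (fun j => if j = i + 1 + L then K else ∅) (by
    intro x hx
    exact mem_iUnion.2 ⟨i + 1 + L, by simpa using hx⟩)
  by_cases hji : j = i + 1 + L
  · subst hji
    simp only [if_true] at hj
    refine le_trans (ENNReal.ofReal_le_ofReal ?_) (hj.trans (measure_mono (thickening_mono hA' K)))
    have h6 := hM (i + 1 + L)
    rw [← half_pow_rpow] at h6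
    have h7 : δ * (1 / 2) ^ (L + 1) ≤ (1 / 2 : ℝ) ^ (i + 1 + L) := by
      calc δ * (1 / 2) ^ (L + 1) ≤ (1 / 2) ^ i * (1 / 2) ^ (L + 1) := by gcongr
        _ = (1 / 2 : ℝ) ^ (i + 1 + L) := by rw [← pow_add]; congr 1; ring
    have h8 : (δ * (1 / 2) ^ (L + 1)) ^ (e + ε) ≤ ((1 / 2 : ℝ) ^ (i + 1 + L)) ^ (e + ε) :=
      Real.rpow_le_rpow (by positivity) h7 (by positivity)
    rw [Real.mul_rpow hδ.le (by positivity)] at h8
    calc c / M * ((1 / 2) ^ (L + 1)) ^ (e + ε) * δ ^ (e + ε) =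
        c / M * (δ ^ (e + ε) * ((1 / 2) ^ (L + 1)) ^ (e + ε)) := by ring
      _ ≤ c / M * (M * gw e p (i + 1 + L)) :=
          mul_le_mul_of_nonneg_left (h8.trans h6) (by positivity)
      _ = c * gw e p (i + 1 + L) := by field_simp
  · exfalso
    simp only [if_neg hji, thickening_empty, measure_empty, nonpos_iff_eq_zero,
      ENNReal.ofReal_eq_zero] at hj
    have : 0 < c * gw e p j := mul_pos hc (gw_pos _ _ _)
    linarith

/-- **The Kakeya conjecture for fibred sets of defect zero.** -/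
theorem Fibred.dimH_eq {n : ℕ} {K : Set (E n)} (h : Fibred n 0 K) : dimH K = n := by
  refine le_antisymm (dimH_le_nat K) ?_
  have h1 := h.le_dimH
  rwa [sub_zero, ENNReal.ofReal_natCast] at h1

theorem Fibred.minkowski {n : ℕ} {e : ℝ} (he : 0 ≤ e) {K : Set (E n)} (h : Fibred n e K) {ε : ℝ}
    (hε : 0 < ε) : ∃ c : ℝ, 0 < c ∧ ∀ δ : ℝ, 0 < δ → δ ≤ 1 →
      ENNReal.ofReal (c * δ ^ (e + ε)) ≤ volume (thickening δ K) := by
  obtain ⟨c, hc, h3⟩ := (h.big (ε / 2) (by linarith)).volume_thickening' (by linarith)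
    (ε := ε / 2) (by linarith)
  refine ⟨c, hc, fun δ hδ hδ1 => ?_⟩
  have := h3 δ hδ hδ1
  rwa [show e + ε / 2 + ε / 2 = e + ε by ring] at this

/-- A singleton is covered by one ball. -/
theorem covD_singleton {Y : Type*} [NormedAddCommGroup Y] [NormedSpace ℝ Y] [MeasureSpace Y]
    [BorelSpace Y] [FiniteDimensional ℝ Y] [Measure.IsAddHaarMeasure (volume : Measure Y)] (b : Y) :
    CovD 0 1 {b} := by
  intro j
  refine ⟨{b}, by simp, ?_⟩
  intro x hx
  rw [mem_singleton_iff] at hx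
  subst hx
  simp

/-- Davies' theorem in `ℝ × ℝ`. -/
theorem davies_prod {P : Set (ℝ × ℝ)} (h : ∀ s : ℝ, ∃ (z : ℝ × ℝ) (ℓ : ℝ), 0 < ℓ ∧
    ∀ t ∈ Icc (0 : ℝ) ℓ, z + t • ((1 : ℝ), s) ∈ P) : Big 0 P := by
  have htr := spread_transvD (X := ℝ) (fun s : ℝ => ContinuousLinearMap.mul ℝ ℝ s) (ball 0 1)
    measure_ball_lt_top.ne one_pos measurableSet_ball (fun s _ s' _ x => by
      simp only [ContinuousLinearMap.mul_apply', ← sub_mul, norm_mul, one_mul, le_refl])
  have hT : Measurable fun s : ℝ => ContinuousLinearMap.mul ℝ ℝ s :=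
    (ContinuousLinearMap.mul ℝ ℝ).continuous.measurable
  have h1 := step hT htr (A := ball (0 : ℝ) 1) (K := P) (e := 0) (β := 0) (by
    rw [Measure.restrict_apply_self]
    exact (measure_ball_pos volume (0 : ℝ) one_pos).ne') (fun s _ => by
      obtain ⟨z, ℓ, hℓ, hz⟩ := h s
      refine ⟨fun _ => {z.2 - s * z.1}, fun _ => ⟨1, covD_singleton _⟩, ?_⟩
      have h2 : Icc z.1 (z.1 + ℓ) ⊆ {x : ℝ | ∃ _ : ℕ, ∃ b ∈ ({z.2 - s * z.1} : Set ℝ),
          (x, ContinuousLinearMap.mul ℝ ℝ s x + b) ∈ P} := by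
        intro x hx
        refine ⟨0, _, rfl, ?_⟩
        have h3 := hz (x - z.1) ⟨by linarith [hx.1], by linarith [hx.2]⟩
        convert h3 using 1
        ext
        · simp
        · simp
          ring
      refine Big.mono (big_of_volume_ne_zero ?_) h2
      rw [Real.volume_Icc]
      simpa using hℓ)
  simpa using h1

/-- Davies' theorem in any two-dimensional space. -/
theorem davies {X : Type*} [NormedAddCommGroup X] [NormedSpace ℝ X] [MeasureSpace X]
    [BorelSpace X] [FiniteDimensional ℝ X] [Measure.IsAddHaarMeasure (volume : Measure X)]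
    (hX : finrank ℝ X = 2) {P : Set X} (h : ∀ v : X, v ≠ 0 → ∃ (z : X) (ℓ : ℝ), 0 < ℓ ∧
      ∀ t ∈ Icc (0 : ℝ) ℓ, z + t • v ∈ P) : Big 0 P := by
  have hfr : finrank ℝ X = finrank ℝ (ℝ × ℝ) := by
    rw [hX, Module.finrank_prod, Module.finrank_self]
  obtain ⟨φ⟩ : Nonempty (X ≃L[ℝ] ℝ × ℝ) := by
    have := FiniteDimensional.nonempty_continuousLinearEquiv_of_finrank_eq hfr
    exact this
  have h1 : Big 0 (φ '' P) := by
    apply davies_prod
    intro s
    have hv : φ.symm ((1 : ℝ), s) ≠ 0 := by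
      intro h0
      have h1 : ((1 : ℝ), s) = 0 := by
        have := congrArg φ h0
        simp at this
      have := congrArg Prod.fst h1
      norm_num at this
    obtain ⟨z, ℓ, hℓ, hz⟩ := h _ hv
    refine ⟨φ z, ℓ, hℓ, fun t ht => ⟨z + t • φ.symm (1, s), hz t ht, ?_⟩⟩
    simp
  have h2 := h1.preimage_equiv φ
  rwa [φ.injective.preimage_image] at h2

end Pool.Agent.V5helper3.Kak
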