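import Pool.Agent.V5helper3.Kak.ExD

set_option autoImplicit false
set_option linter.unusedSectionVars false
set_option linter.deprecated false

open MeasureTheory Set Metric ENNReal NNReal Filter Topology Module
open scoped Pointwise

namespace Pool.Agent.V5helper3.Kak

/-- The approximation property passes to the closure for continuous maps. -/
theorem approx_closure {E₁ F₁ : Type*} [NormedAddCommGroup E₁] [NormedSpace ℝ E₁]
    [NormedAddCommGroup F₁] [NormedSpace ℝ F₁] {g : E₁ → F₁} (hg : Continuous g)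
    {L : E₁ →L[ℝ] F₁} {A : Set E₁} {c : ℝ≥0} (h : ApproximatesLinearOn g L A c) :
    ApproximatesLinearOn g L (closure A) c := by
  set C : Set (E₁ × E₁) := {z | ‖g z.1 - g z.2 - L (z.1 - z.2)‖ ≤ c * ‖z.1 - z.2‖} with hC
  have hCc : IsClosed C := by
    refine isClosed_le ?_ ?_
    · have h1 : Continuous fun z : E₁ × E₁ => g z.1 := hg.comp continuous_fst
      have h2 : Continuous fun z : E₁ × E₁ => g z.2 := hg.comp continuous_snd
      have h3 : Continuous fun z : E₁ × E₁ => L (z.1 - z.2) :=
        L.continuous.comp (continuous_fst.sub continuous_snd)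
      exact ((h1.sub h2).sub h3).norm
    · exact continuous_const.mul (continuous_fst.sub continuous_snd).norm
  have hsub : A ×ˢ A ⊆ C := by
    rintro ⟨x, y⟩ ⟨hx, hy⟩
    exact h x hx y hy
  have hcl : closure A ×ˢ closure A ⊆ C := by
    rw [← closure_prod_eq]
    exact hCc.closure_subset_iff.2 hsub
  intro x hx y hy
  exact hcl (show (x, y) ∈ closure A ×ˢ closure A from ⟨hx, hy⟩)

/-- **Slices by a differentiable family of planes whose direction map is a submersion.** -/
theorem smooth_slices {p k k' m : ℕ} (F : E p → E k' →L[ℝ] E m)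
    (D : E p → E p →L[ℝ] E k' →L[ℝ] E m) (π : E k →L[ℝ] E k') (hπ : Function.Surjective π)
    (T₀ : E k →L[ℝ] E m) (A : Set (E p)) (hA : volume A ≠ 0)
    (hF : ∀ s ∈ A, HasFDerivWithinAt F (D s) A s)
    (hD : ∀ s ∈ A, ∀ x : E k', x ≠ 0 → Function.Surjective fun σ => D s σ x)
    {γ t : ℝ} (ht : 0 < t) (K : Set (E k × E m))
    (h : ∀ s ∈ A, ∃ B : Set (E m), PackingDimLE γ B ∧
      ENNReal.ofReal t ≤ dimH {x : E k | ∃ b ∈ B, (x, T₀ x + F s (π x) + b) ∈ K}) :
    ENNReal.ofReal (2 * t - k + (min m k' : ℕ) - 2 * γ) ≤ dimH K := by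
  classical
  set r : (E p →L[ℝ] E k' →L[ℝ] E m) → ℝ≥0 := fun L =>
    if hL : ∀ x : E k', x ≠ 0 → Function.Surjective fun σ => L σ x then (exists_eps L hL).choose else 1
    with hr
  have rpos : ∀ L, r L ≠ 0 := by
    intro L
    by_cases hL : ∀ x : E k', x ≠ 0 → Function.Surjective fun σ => L σ x
    · rw [hr]
      dsimp only
      rw [dif_pos hL]
      exact (exists_eps L hL).choose_spec.1
    · rw [hr]
      dsimp only
      rw [dif_neg hL]
      exact one_ne_zero
  obtain ⟨tt, Dn, _, hcov, happ, hDn⟩ :=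
    exists_closed_cover_approximatesLinearOn_of_hasFDerivWithinAt F A D hF r rpos
  have hAne : A.Nonempty := by
    rw [nonempty_iff_ne_empty]
    rintro rfl
    exact hA measure_empty
  obtain ⟨n, N, hnN⟩ : ∃ n N : ℕ, volume (A ∩ tt n ∩ ball 0 N) ≠ 0 := by
    by_contra hcon
    simp only [not_exists, not_not] at hcon
    apply hA
    have h1 : A ⊆ ⋃ n, ⋃ N : ℕ, A ∩ tt n ∩ ball 0 N := by
      intro s hs
      obtain ⟨n, hn⟩ := mem_iUnion.1 (hcov hs)
      obtain ⟨N, hN⟩ := exists_nat_gt ‖s‖
      exact mem_iUnion.2 ⟨n, mem_iUnion.2 ⟨N, ⟨hs, hn⟩, mem_ball_zero_iff.2 hN⟩⟩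
    exact measure_mono_null h1 (measure_iUnion_null fun n => measure_iUnion_null fun N => hcon n N)
  set A' : Set (E p) := A ∩ tt n ∩ ball 0 N with hA'
  have hA'A : A' ⊆ A := fun s hs => hs.1.1
  obtain ⟨y, hyA, hy⟩ := hDn hAne n
  have hL : ∀ x : E k', x ≠ 0 → Function.Surjective fun σ => Dn n σ x := by
    rw [hy]
    exact hD y hyA
  have happ' : ApproximatesLinearOn F (Dn n) A' (r (Dn n)) :=
    (happ n).mono_set inter_subset_left
  have hrn : r (Dn n) = (exists_eps (Dn n) hL).choose := by
    rw [hr]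
    dsimp only
    rw [dif_pos hL]
  obtain ⟨g, hgL, hgEq⟩ := (lipschitzOnWith_iff_restrict.2 happ'.lipschitz).extend_finite_dimension
  have hgc : Continuous g := hgL.continuous
  have happg : ApproximatesLinearOn g (Dn n) A' (r (Dn n)) := by
    intro s hs s' hs'
    rw [← hgEq hs, ← hgEq hs']
    exact happ' s hs s' hs'
  have happG := approx_closure hgc happg
  rw [hrn] at happG
  set G : Set (E p) := closure A' with hG
  have hGm : MeasurableSet G := isClosed_closure.measurableSet
  have hGR : G ⊆ ball 0 (N + 1) := by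
    have h1 : G ⊆ closedBall 0 N :=
      (closure_mono (inter_subset_right.trans ball_subset_closedBall)).trans
        isClosed_closedBall.closure_eq.subset
    refine h1.trans (closedBall_subset_ball ?_)
    linarith
  have htrans := (exists_eps (Dn n) hL).choose_spec.2 k π hπ T₀ g hgc G hGm (N + 1) hGR happG
  have hT : Measurable fun s : E p => T₀ + (g s).comp π := by
    have h1 : Continuous fun s : E p => T₀ + (g s).comp π :=
      continuous_const.add (hgc.clm_comp continuous_const)
    exact h1.measurable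
  have hμ : (volume.restrict G) A' ≠ 0 := by
    rw [Measure.restrict_apply' hGm, inter_eq_left.2 subset_closure]
    exact hnN
  exact slices (volume.restrict G) (fun s => T₀ + (g s).comp π) hT ht htrans K A' hμ
    (fun s hs => by
      obtain ⟨B, hB, hd⟩ := h s (hA'A hs)
      refine ⟨B, hB, ?_⟩
      rw [hgEq hs] at hd
      exact hd)

/-- A planar set with a nondegenerate segment in every direction has dimension two. -/
theorem davies_dimH {P : Set (E 2)} (h : ∀ v : E 2, v ≠ 0 → ∃ (z : E 2) (ℓ : ℝ), 0 < ℓ ∧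
    ∀ τ ∈ Icc (0 : ℝ) ℓ, z + τ • v ∈ P) : ENNReal.ofReal 2 ≤ dimH P := by
  have h3 := (davies finrank_euclideanSpace_fin h).le_dimH
  rw [finrank_euclideanSpace_fin] at h3
  simpa using h3

end Pool.Agent.V5helper3.Kak
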