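import Pool.Agent.V5helper3.Kak.Dim

set_option autoImplicit false

set_option linter.unusedSectionVars false
set_option linter.deprecated false

open MeasureTheory Set Metric ENNReal NNReal Filter Topology Module
open scoped Pointwise

namespace Pool.Agent.V5helper3.Kak

/-- Cauchy-Schwarz (Córdoba's argument) for a countable weighted family of sets. -/
theorem l2_union {Ω : Type*} [MeasurableSpace Ω] (ν : Measure Ω) (w : ℕ → ℝ≥0∞) (Z : ℕ → Set Ω)
    (hZ : ∀ i, MeasurableSet (Z i)) (B : ℝ≥0∞)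
    (hB : ∑' i, ∑' i', w i * w i' * ν (Z i ∩ Z i') ≤ B) :
    (∑' i, w i * ν (Z i)) ^ 2 ≤ B * ν (⋃ i, Z i) := by
  set F : Ω → ℝ≥0∞ := fun z => ∑' i, w i * (Z i).indicator 1 z with hF
  set U : Set Ω := ⋃ i, Z i with hU
  have hind : ∀ i, Measurable ((Z i).indicator (1 : Ω → ℝ≥0∞)) := fun i =>
    measurable_one.indicator (hZ i)
  have hFm : Measurable F := Measurable.ennreal_tsum fun i => (hind i).const_mul _
  have hUm : MeasurableSet U := MeasurableSet.iUnion hZ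
  have h1 : ∫⁻ z, F z ∂ν = ∑' i, w i * ν (Z i) := by
    rw [hF, lintegral_tsum fun i => ((hind i).const_mul _).aemeasurable]
    refine tsum_congr fun i => ?_
    rw [lintegral_const_mul _ (hind i), lintegral_indicator_one (hZ i)]
  have h2 : ∫⁻ z, F z ^ (2 : ℝ) ∂ν ≤ B := by
    have h3 : ∀ z, F z ^ (2 : ℝ) = ∑' i, ∑' i', w i * w i' * (Z i ∩ Z i').indicator 1 z := by
      intro z
      rw [show (2 : ℝ) = ((2 : ℕ) : ℝ) by norm_num, ENNReal.rpow_natCast, pow_two, hF]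
      dsimp only
      rw [← ENNReal.tsum_mul_right]
      refine tsum_congr fun i => ?_
      rw [← ENNReal.tsum_mul_left]
      refine tsum_congr fun i' => ?_
      have h4 : (Z i ∩ Z i').indicator (1 : Ω → ℝ≥0∞) z =
          (Z i).indicator 1 z * (Z i').indicator 1 z := by
        rw [inter_indicator_one]
        rfl
      rw [h4]
      ring
    simp_rw [h3]
    refine le_trans (le_of_eq ?_) hB
    have hm : ∀ i i', Measurable fun z => w i * w i' * (Z i ∩ Z i').indicator (1 : Ω → ℝ≥0∞) z :=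
      fun i i' => (measurable_one.indicator ((hZ i).inter (hZ i'))).const_mul _
    rw [lintegral_tsum fun i => (Measurable.ennreal_tsum fun i' => hm i i').aemeasurable]
    refine tsum_congr fun i => ?_
    rw [lintegral_tsum fun i' => (hm i i').aemeasurable]
    refine tsum_congr fun i' => ?_
    rw [lintegral_const_mul _ (measurable_one.indicator ((hZ i).inter (hZ i'))),
      lintegral_indicator_one ((hZ i).inter (hZ i'))]
  have h5 : ∫⁻ z, F z ∂ν ≤ (∫⁻ z, F z ^ (2 : ℝ) ∂ν) ^ (1 / (2 : ℝ)) * (ν U) ^ (1 / (2 : ℝ)) := by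
    have h6 := ENNReal.lintegral_mul_le_Lp_mul_Lq ν Real.HolderConjugate.two_two
      hFm.aemeasurable (measurable_one.indicator hUm : Measurable (U.indicator (1 : Ω → ℝ≥0∞))).aemeasurable
    have h7 : ∀ z, (F * U.indicator (1 : Ω → ℝ≥0∞)) z = F z := by
      intro z
      rw [Pi.mul_apply]
      by_cases hz : z ∈ U
      · rw [indicator_of_mem hz]; simp
      · rw [indicator_of_notMem hz, mul_zero, hF]
        dsimp only
        symm
        rw [ENNReal.tsum_eq_zero]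
        intro i
        rw [indicator_of_notMem (fun hi => hz (mem_iUnion.2 ⟨i, hi⟩)), mul_zero]
    simp_rw [h7] at h6
    have h8 : ∫⁻ z, (U.indicator (1 : Ω → ℝ≥0∞) z) ^ (2 : ℝ) ∂ν = ν U := by
      rw [← lintegral_indicator_one hUm]
      refine lintegral_congr fun z => ?_
      by_cases hz : z ∈ U
      · rw [indicator_of_mem hz]; simp
      · rw [indicator_of_notMem hz]; simp
    rwa [h8] at h6
  calc (∑' i, w i * ν (Z i)) ^ 2 = (∫⁻ z, F z ∂ν) ^ 2 := by rw [h1]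
    _ ≤ ((∫⁻ z, F z ^ (2 : ℝ) ∂ν) ^ (1 / (2 : ℝ)) * (ν U) ^ (1 / (2 : ℝ))) ^ 2 := by gcongr
    _ = (∫⁻ z, F z ^ (2 : ℝ) ∂ν) * ν U := by
        rw [mul_pow, ← ENNReal.rpow_natCast, ← ENNReal.rpow_natCast, ← ENNReal.rpow_mul,
          ← ENNReal.rpow_mul]
        norm_num
    _ ≤ B * ν U := by gcongr

variable {X : Type*} [NormedAddCommGroup X] [NormedSpace ℝ X] [MeasureSpace X] [BorelSpace X]
  [FiniteDimensional ℝ X] [Measure.IsAddHaarMeasure (volume : Measure X)]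
variable {Y : Type*} [NormedAddCommGroup Y] [NormedSpace ℝ Y] [MeasureSpace Y] [BorelSpace Y]
  [FiniteDimensional ℝ Y] [Measure.IsAddHaarMeasure (volume : Measure Y)]

/-- The set of points of the unit ball at which the linear map `L` is at most `δ`. -/
def smallSet (L : X →L[ℝ] Y) (δ : ℝ) : Set X := {x | ‖x‖ ≤ 1 ∧ ‖L x‖ ≤ δ}

theorem volume_strip_le {L L' : X →L[ℝ] Y} {R R' δ : ℝ} (hδ : 0 < δ) (hR : 0 ≤ R)
    (hR' : 8 + 4 * R ≤ R') (hL : ‖L - L'‖ ≤ 2 * δ) (c : Y) :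
    volume {x : X | ‖x‖ ≤ R ∧ ‖L x + c‖ < 4 * δ} ≤
      ENNReal.ofReal (R' ^ finrank ℝ X) * volume (smallSet L' δ) := by
  rcases Set.eq_empty_or_nonempty {x : X | ‖x‖ ≤ R ∧ ‖L x + c‖ < 4 * δ} with h | ⟨x₀, hx₀⟩
  · rw [h]; simp
  have hR'0 : 0 < R' := by linarith
  have hsub : {x : X | ‖x‖ ≤ R ∧ ‖L x + c‖ < 4 * δ} ⊆
      (fun x => x + -x₀) ⁻¹' (R' • smallSet L' δ) := by
    intro x hx
    rw [mem_preimage, mem_smul_set_iff_inv_smul_mem₀ hR'0.ne']
    have h1 : ‖x + -x₀‖ ≤ 2 * R := by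
      calc ‖x + -x₀‖ ≤ ‖x‖ + ‖-x₀‖ := norm_add_le _ _
        _ ≤ R + R := by rw [norm_neg]; exact add_le_add hx.1 hx₀.1
        _ = 2 * R := by ring
    have h2 : ‖L (x + -x₀)‖ ≤ 8 * δ := by
      have h3 : L (x + -x₀) = (L x + c) - (L x₀ + c) := by
        rw [map_add, map_neg]; abel
      rw [h3]
      calc ‖(L x + c) - (L x₀ + c)‖ ≤ ‖L x + c‖ + ‖L x₀ + c‖ := norm_sub_le _ _
        _ ≤ 4 * δ + 4 * δ := add_le_add hx.2.le hx₀.2.le
        _ = 8 * δ := by ring
    have h4 : ‖L' (x + -x₀)‖ ≤ R' * δ := by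
      have h5 : L' (x + -x₀) = L (x + -x₀) - (L - L') (x + -x₀) := by
        rw [ContinuousLinearMap.sub_apply]; abel
      rw [h5]
      calc ‖L (x + -x₀) - (L - L') (x + -x₀)‖ ≤ ‖L (x + -x₀)‖ + ‖(L - L') (x + -x₀)‖ := norm_sub_le _ _
        _ ≤ 8 * δ + (2 * δ) * (2 * R) := by
            refine add_le_add h2 ?_
            exact ((L - L').le_opNorm _).trans (mul_le_mul hL h1 (norm_nonneg _) (by positivity))
        _ = (8 + 4 * R) * δ := by ring
        _ ≤ R' * δ := by gcongr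
    refine ⟨?_, ?_⟩
    · rw [norm_smul, norm_inv, Real.norm_of_nonneg hR'0.le, inv_mul_le_iff₀ hR'0]
      linarith
    · rw [map_smul, norm_smul, norm_inv, Real.norm_of_nonneg hR'0.le, inv_mul_le_iff₀ hR'0]
      exact h4
  refine (measure_mono hsub).trans (le_of_eq ?_)
  rw [measure_preimage_add_right, Measure.addHaar_smul, abs_of_pos (by positivity)]

/-- The plate over `D` around the graph of `x ↦ L x + b`. -/
def plate (D : Set X) (L : X →L[ℝ] Y) (b : Y) (δ : ℝ) : Set (X × Y) :=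
  {z | z.1 ∈ D ∧ ‖z.2 - L z.1 - b‖ < δ}

theorem isOpen_plate {D : Set X} (hD : IsOpen D) (L : X →L[ℝ] Y) (b : Y) (δ : ℝ) :
    IsOpen (plate D L b δ) := by
  have h1 : IsOpen {z : X × Y | z.1 ∈ D} := hD.preimage continuous_fst
  have h2 : IsOpen {z : X × Y | ‖z.2 - L z.1 - b‖ < δ} :=
    isOpen_lt (by fun_prop) continuous_const
  exact h1.inter h2

theorem measurableSet_plate {D : Set X} (hD : IsOpen D) (L : X →L[ℝ] Y) (b : Y) (δ : ℝ) :
    MeasurableSet (plate D L b δ) := (isOpen_plate hD L b δ).measurableSet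

theorem volume_plate {D : Set X} (hD : IsOpen D) (L : X →L[ℝ] Y) (b : Y) {δ : ℝ} (hδ : 0 < δ) :
    volume (plate D L b δ) =
      volume D * (ENNReal.ofReal (δ ^ finrank ℝ Y) * volume (ball (0 : Y) 1)) := by
  have h0 : (volume : Measure (X × Y)) = (volume : Measure X).prod volume := rfl
  rw [h0, Measure.prod_apply (measurableSet_plate hD L b δ)]
  have h1 : ∀ x : X, volume (Prod.mk x ⁻¹' plate D L b δ) =
      D.indicator (fun _ => ENNReal.ofReal (δ ^ finrank ℝ Y) * volume (ball (0 : Y) 1)) x := by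
    intro x
    by_cases hx : x ∈ D
    · rw [indicator_of_mem hx, ← volume_ball_le (L x + b) hδ]
      congr 1
      ext y
      simp only [plate, mem_preimage, mem_setOf_eq, hx, true_and, mem_ball, dist_eq_norm]
      rw [sub_sub]
    · rw [indicator_of_notMem hx]
      have : Prod.mk x ⁻¹' plate D L b δ = ∅ := by
        ext y
        simp [plate, hx]
      rw [this, measure_empty]
  simp_rw [h1]
  rw [lintegral_indicator_const hD.measurableSet, mul_comm]

theorem volume_plate_inter_le {D D' : Set X} (hD : IsOpen D) {L L' : X →L[ℝ] Y} {b b' : Y}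
    {R δ : ℝ} (hDR : ∀ x ∈ D, ‖x‖ ≤ R) (hδ : 0 < δ) (hD' : IsOpen D') :
    volume (plate D L b δ ∩ plate D' L' b' δ) ≤
      volume {x : X | ‖x‖ ≤ R ∧ ‖(L - L') x + (b - b')‖ < 2 * δ} *
        (ENNReal.ofReal (δ ^ finrank ℝ Y) * volume (ball (0 : Y) 1)) := by
  have h0 : (volume : Measure (X × Y)) = (volume : Measure X).prod volume := rfl
  rw [h0, Measure.prod_apply ((measurableSet_plate hD L b δ).inter (measurableSet_plate hD' L' b' δ))]
  set G := {x : X | ‖x‖ ≤ R ∧ ‖(L - L') x + (b - b')‖ < 2 * δ} with hG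
  have hGm : MeasurableSet G := by
    have h1 : IsClosed {x : X | ‖x‖ ≤ R} := isClosed_le continuous_norm continuous_const
    have h2 : IsOpen {x : X | ‖(L - L') x + (b - b')‖ < 2 * δ} :=
      isOpen_lt (by fun_prop) continuous_const
    exact h1.measurableSet.inter h2.measurableSet
  have h1 : ∀ x : X, volume (Prod.mk x ⁻¹' (plate D L b δ ∩ plate D' L' b' δ)) ≤
      G.indicator (fun _ => ENNReal.ofReal (δ ^ finrank ℝ Y) * volume (ball (0 : Y) 1)) x := by
    intro x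
    by_cases hx : x ∈ G
    · rw [indicator_of_mem hx, ← volume_ball_le (L x + b) hδ]
      apply measure_mono
      intro y hy
      have h2 := hy.1.2
      simp only at h2
      rw [mem_ball, dist_eq_norm, ← sub_sub]
      exact h2
    · rw [indicator_of_notMem hx]
      have : Prod.mk x ⁻¹' (plate D L b δ ∩ plate D' L' b' δ) = ∅ := by
        rw [Set.eq_empty_iff_forall_notMem]
        intro y hy
        apply hx
        have h2 := hy.1.2
        have h3 := hy.2.2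
        simp only at h2 h3
        refine ⟨hDR x hy.1.1, ?_⟩
        have h4 : (L - L') x + (b - b') = (y - L' x - b') - (y - L x - b) := by
          rw [ContinuousLinearMap.sub_apply]; abel
        rw [h4]
        calc ‖(y - L' x - b') - (y - L x - b)‖ ≤ ‖y - L' x - b'‖ + ‖y - L x - b‖ := norm_sub_le _ _
          _ < δ + δ := add_lt_add h3 h2
          _ = 2 * δ := by ring
      rw [this, measure_empty]
  refine (lintegral_mono h1).trans (le_of_eq ?_)
  rw [lintegral_indicator_const hGm, mul_comm]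

/-- The part of the neighbourhood of `W` that is seen by the translates `graph L + b`, `b ∈ B`. -/
def zone (L : X →L[ℝ] Y) (B : Set Y) (W : Set (X × Y)) (R a δ : ℝ) : Set (X × Y) :=
  {z | ∃ x' ∈ ball (0 : X) R, ∃ b ∈ B, (x', L x' + b) ∈ W ∧ ‖z.1 - x'‖ < a * δ ∧
    ‖z.2 - L z.1 - b‖ < δ}

theorem isOpen_zone (L : X →L[ℝ] Y) (B : Set Y) (W : Set (X × Y)) (R a δ : ℝ) :
    IsOpen (zone L B W R a δ) := by
  have h : zone L B W R a δ = ⋃ (x' ∈ ball (0 : X) R) (b ∈ B) (_ : (x', L x' + b) ∈ W),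
      {z : X × Y | ‖z.1 - x'‖ < a * δ ∧ ‖z.2 - L z.1 - b‖ < δ} := by
    ext z
    simp only [zone, mem_setOf_eq, mem_iUnion, exists_prop]
  rw [h]
  refine isOpen_iUnion fun x' => isOpen_iUnion fun _ => isOpen_iUnion fun b => isOpen_iUnion fun _ =>
    isOpen_iUnion fun _ => ?_
  have h1 : IsOpen {z : X × Y | ‖z.1 - x'‖ < a * δ} := isOpen_lt (by fun_prop) continuous_const
  have h2 : IsOpen {z : X × Y | ‖z.2 - L z.1 - b‖ < δ} := isOpen_lt (by fun_prop) continuous_const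
  exact h1.inter h2

theorem le_volume_zone (L : X →L[ℝ] Y) (B : Set Y) (W : Set (X × Y)) (R a : ℝ) {δ : ℝ}
    (hδ : 0 < δ) :
    volume (thickening (a * δ) {x | x ∈ ball (0 : X) R ∧ ∃ b ∈ B, (x, L x + b) ∈ W}) *
      (ENNReal.ofReal (δ ^ finrank ℝ Y) * volume (ball (0 : Y) 1)) ≤ volume (zone L B W R a δ) := by
  set D := thickening (a * δ) {x | x ∈ ball (0 : X) R ∧ ∃ b ∈ B, (x, L x + b) ∈ W} with hD
  have h0 : (volume : Measure (X × Y)) = (volume : Measure X).prod volume := rfl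
  rw [h0, Measure.prod_apply (isOpen_zone L B W R a δ).measurableSet, mul_comm,
    ← lintegral_indicator_const isOpen_thickening.measurableSet]
  refine lintegral_mono fun x => ?_
  by_cases hx : x ∈ D
  · rw [indicator_of_mem hx]
    rw [hD, mem_thickening_iff] at hx
    obtain ⟨x', ⟨hx'1, b, hb, hbW⟩, hx'2⟩ := hx
    rw [← volume_ball_le (L x + b) hδ]
    apply measure_mono
    intro y hy
    refine ⟨x', hx'1, b, hb, hbW, ?_, ?_⟩
    · rw [← dist_eq_norm]; exact hx'2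
    · dsimp only
      rw [mem_ball, dist_eq_norm] at hy
      rw [sub_sub]
      exact hy
  · rw [indicator_of_notMem hx]
    exact zero_le

theorem zone_subset_thickening {L : X →L[ℝ] Y} {B : Set Y} {R R₁ a δ : ℝ} (ha : 0 < a) (hδ : 0 < δ)
    (hL : ‖L‖ ≤ R) (W : Set (X × Y)) :
    zone L B W R₁ a δ ⊆ thickening ((1 + a + R * a) * δ) W := by
  rintro z ⟨x, _, b, _, hxW, h1, h2⟩
  rw [mem_thickening_iff]
  refine ⟨(x, L x + b), hxW, ?_⟩
  have hR : 0 ≤ R := (norm_nonneg _).trans hL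
  rw [Prod.dist_eq, max_lt_iff]
  refine ⟨?_, ?_⟩
  · dsimp only
    rw [dist_eq_norm]
    calc ‖z.1 - x‖ < a * δ := h1
      _ ≤ (1 + a + R * a) * δ := by nlinarith [mul_nonneg hR ha.le, mul_nonneg (mul_nonneg hR ha.le) hδ.le]
  · dsimp only
    rw [dist_eq_norm]
    have h3 : z.2 - (L x + b) = (z.2 - L z.1 - b) + L (z.1 - x) := by
      rw [map_sub]; abel
    rw [h3]
    calc ‖(z.2 - L z.1 - b) + L (z.1 - x)‖ ≤ ‖z.2 - L z.1 - b‖ + ‖L (z.1 - x)‖ := norm_add_le _ _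
      _ < δ + R * (a * δ) := by
          refine add_lt_add_of_lt_of_le h2 ?_
          exact (L.le_opNorm _).trans (mul_le_mul hL h1.le (norm_nonneg _) hR)
      _ ≤ (1 + a + R * a) * δ := by nlinarith [mul_pos ha hδ]

theorem zone_subset_plates {L : X →L[ℝ] Y} {B : Set Y} {R a δ : ℝ} (ha : 0 < a)
    (hδ1 : δ ≤ 1) (W : Set (X × Y)) (F : Finset Y) (hF : B ⊆ ⋃ b ∈ F, ball b δ) :
    zone L B W R a δ ⊆ ⋃ b ∈ F, plate (ball (0 : X) (R + a)) L b (2 * δ) := by
  rintro z ⟨x, hx, b, hb, _, h1, h2⟩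
  obtain ⟨b₀, hb₀, hbb⟩ := mem_iUnion₂.1 (hF hb)
  refine mem_iUnion₂.2 ⟨b₀, hb₀, ?_, ?_⟩
  · rw [mem_ball_zero_iff] at hx ⊢
    calc ‖z.1‖ = ‖x + (z.1 - x)‖ := by congr 1; abel
      _ ≤ ‖x‖ + ‖z.1 - x‖ := norm_add_le _ _
      _ < R + a * δ := add_lt_add hx h1
      _ ≤ R + a := by nlinarith
  · rw [mem_ball, dist_eq_norm] at hbb
    have h3 : z.2 - L z.1 - b₀ = (z.2 - L z.1 - b) + (b - b₀) := by abel
    rw [h3]
    calc ‖(z.2 - L z.1 - b) + (b - b₀)‖ ≤ ‖z.2 - L z.1 - b‖ + ‖b - b₀‖ := norm_add_le _ _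
      _ < δ + δ := add_lt_add h2 hbb
      _ = 2 * δ := by ring

/-- Intersection of two zones. -/
theorem volume_zone_inter_le {L L' : X →L[ℝ] Y} {B B' : Set Y} {R a δ : ℝ} (ha : 0 < a)
    (hδ : 0 < δ) (hδ1 : δ ≤ 1) (W W' : Set (X × Y)) (F F' : Finset Y)
    (hF : B ⊆ ⋃ b ∈ F, ball b δ) (hF' : B' ⊆ ⋃ b ∈ F', ball b δ) {N : ℝ}
    (hFN : (F.card : ℝ) ≤ N) (hFN' : (F'.card : ℝ) ≤ N) {Q : ℝ≥0∞}
    (hstrip : ∀ c : Y, volume {x : X | ‖x‖ ≤ R + a ∧ ‖(L - L') x + c‖ < 4 * δ} ≤ Q) :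
    volume (zone L B W R a δ ∩ zone L' B' W' R a δ) ≤
      ENNReal.ofReal (N ^ 2) * (Q * (ENNReal.ofReal ((2 * δ) ^ finrank ℝ Y) * volume (ball (0 : Y) 1))) := by
  set P := Q * (ENNReal.ofReal ((2 * δ) ^ finrank ℝ Y) * volume (ball (0 : Y) 1)) with hP
  have hN : 0 ≤ N := le_trans (Nat.cast_nonneg _) hFN
  have h1 : zone L B W R a δ ∩ zone L' B' W' R a δ ⊆ ⋃ b ∈ F, ⋃ b' ∈ F',
      (plate (ball (0 : X) (R + a)) L b (2 * δ) ∩ plate (ball (0 : X) (R + a)) L' b' (2 * δ)) := by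
    rintro z ⟨hz1, hz2⟩
    obtain ⟨b, hb, hzb⟩ := mem_iUnion₂.1 (zone_subset_plates ha hδ1 W F hF hz1)
    obtain ⟨b', hb', hzb'⟩ := mem_iUnion₂.1 (zone_subset_plates ha hδ1 W' F' hF' hz2)
    exact mem_iUnion₂.2 ⟨b, hb, mem_iUnion₂.2 ⟨b', hb', hzb, hzb'⟩⟩
  have h2 : ∀ b b', volume (plate (ball (0 : X) (R + a)) L b (2 * δ) ∩
      plate (ball (0 : X) (R + a)) L' b' (2 * δ)) ≤ P := by
    intro b b'
    refine (volume_plate_inter_le isOpen_ball (R := R + a) (fun x hx => (mem_ball_zero_iff.1 hx).le)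
      (by positivity : 0 < 2 * δ) isOpen_ball).trans ?_
    rw [hP]
    gcongr
    have h3 : 2 * (2 * δ) = 4 * δ := by ring
    rw [h3]
    exact hstrip _
  refine (measure_mono h1).trans ((measure_biUnion_finset_le _ _).trans ?_)
  refine (Finset.sum_le_sum fun b _ => (measure_biUnion_finset_le _ _).trans
    (Finset.sum_le_sum fun b' _ => h2 b b')).trans ?_
  rw [Finset.sum_const, Finset.sum_const, nsmul_eq_mul, nsmul_eq_mul, ← mul_assoc]
  refine mul_le_mul_left ?_ _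
  rw [← ENNReal.ofReal_natCast, ← ENNReal.ofReal_natCast, ← ENNReal.ofReal_mul (Nat.cast_nonneg _)]
  refine ENNReal.ofReal_le_ofReal ?_
  rw [pow_two]
  exact mul_le_mul hFN hFN' (Nat.cast_nonneg _) hN

end Pool.Agent.V5helper3.Kak
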