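import Pool.Agent.V5helper3.Kak.StepA

set_option autoImplicit false
set_option linter.unusedSectionVars false
set_option linter.deprecated false

open MeasureTheory Set Metric ENNReal NNReal Filter Topology Module
open scoped Pointwise

namespace Pool.Agent.V5helper3.Kak

/-- Quantitative countable subadditivity. -/
theorem exists_piece {S : Type*} [MeasurableSpace S] (μ : Measure S) {A : Set S} (hA : μ A ≠ 0) :
    ∃ c₀ : ℝ, 0 < c₀ ∧ ∀ P : ℕ → Set S, A ⊆ ⋃ j, P j →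
      ∃ j : ℕ, ENNReal.ofReal (c₀ / ((j : ℝ) + 1) ^ 2) ≤ μ (P j) := by
  have hsum : Summable (fun j : ℕ => 1 / ((j : ℝ) + 1) ^ 2) := by
    have := (_root_.summable_nat_add_iff 1).2 (Real.summable_one_div_nat_pow.2 (by norm_num : 1 < 2))
    simpa using this
  set M := ∑' j : ℕ, 1 / ((j : ℝ) + 1) ^ 2 with hM
  have hMpos : 0 < M := hsum.tsum_pos (fun j => by positivity) 0 (by norm_num)
  obtain ⟨c, hc, hcK⟩ : ∃ c : ℝ, 0 < c ∧ ENNReal.ofReal (c * M) < μ A := by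
    obtain ⟨r, hr0, hr⟩ := ENNReal.lt_iff_exists_nnreal_btwn.1 (pos_iff_ne_zero.2 hA)
    have hr0' : 0 < (r : ℝ) := by exact_mod_cast hr0
    refine ⟨r / M, by positivity, ?_⟩
    rw [div_mul_cancel₀ _ hMpos.ne', ENNReal.ofReal_coe_nnreal]
    exact hr
  refine ⟨c, hc, fun P hP => ?_⟩
  by_contra hcon
  simp only [not_exists, not_le] at hcon
  have h1 : μ A ≤ ∑' j : ℕ, ENNReal.ofReal (c * (1 / ((j : ℝ) + 1) ^ 2)) := by
    calc μ A ≤ μ (⋃ j, P j) := measure_mono hP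
      _ ≤ ∑' j, μ (P j) := measure_iUnion_le _
      _ ≤ _ := ENNReal.tsum_le_tsum fun j => by
          rw [mul_one_div]
          exact (hcon j).le
  rw [← ENNReal.ofReal_tsum_of_nonneg (fun l => by positivity) (hsum.mul_left c),
    _root_.tsum_mul_left] at h1
  exact absurd hcK (not_lt.2 h1)

variable {X : Type*} [NormedAddCommGroup X] [NormedSpace ℝ X] [MeasureSpace X] [BorelSpace X]
  [FiniteDimensional ℝ X] [Measure.IsAddHaarMeasure (volume : Measure X)]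
variable {Y : Type*} [NormedAddCommGroup Y] [NormedSpace ℝ Y] [MeasureSpace Y] [BorelSpace Y]
  [FiniteDimensional ℝ Y] [Measure.IsAddHaarMeasure (volume : Measure Y)]
variable {S : Type*} [MeasurableSpace S]

theorem exists_cells {T : S → X →L[ℝ] Y} (hT : Measurable T) {δ : ℝ} (hδ : 0 < δ) :
    ∃ C : ℕ → Set S, (∀ i, MeasurableSet (C i)) ∧ Pairwise (Function.onFun Disjoint C) ∧
      (⋃ i, C i) = univ ∧ ∀ i, ∀ s ∈ C i, ∀ s' ∈ C i, ‖T s - T s'‖ ≤ δ := by
  set D : ℕ → Set (X →L[ℝ] Y) := fun i => ball (TopologicalSpace.denseSeq (X →L[ℝ] Y) i) (δ / 2)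
    with hD
  have hDm : ∀ i, MeasurableSet (D i) := fun i => isOpen_ball.measurableSet
  refine ⟨fun i => T ⁻¹' (disjointed D i), fun i => hT (MeasurableSet.disjointed hDm i), ?_, ?_, ?_⟩
  · intro i j hij
    exact (disjoint_disjointed D hij).preimage T
  · rw [← preimage_iUnion, iUnion_disjointed]
    have : ⋃ i, D i = univ := by
      rw [eq_univ_iff_forall]
      intro L
      have hd := TopologicalSpace.denseRange_denseSeq (X →L[ℝ] Y)
      obtain ⟨i, hi⟩ := hd.exists_dist_lt L (half_pos hδ)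
      exact mem_iUnion.2 ⟨i, hi⟩
    rw [this, preimage_univ]
  · intro i s hs s' hs'
    have h1 := disjointed_subset D i hs
    have h2 := disjointed_subset D i hs'
    rw [hD] at h1 h2
    simp only [mem_ball] at h1 h2
    rw [← dist_eq_norm]
    calc dist (T s) (T s') ≤ dist (T s) (TopologicalSpace.denseSeq (X →L[ℝ] Y) i) +
          dist (T s') (TopologicalSpace.denseSeq (X →L[ℝ] Y) i) := dist_triangle_right _ _ _
      _ ≤ δ := by linarith

/-- Dyadic form of the transversality condition, with exponent `r`. -/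
def TransvD (μ : Measure S) (T : S → X →L[ℝ] Y) (r : ℝ) : Prop :=
  ∃ (C : ℝ) (q : ℕ), 0 < C ∧ ∀ j : ℕ,
    ∫⁻ s, ∫⁻ s', volume (smallSet (T s - T s') ((1 / 2) ^ j)) ∂μ ∂μ ≤
      ENNReal.ofReal (C * 2 ^ (-(r * j)) * ((j : ℝ) + 1) ^ q)

/-- Dyadic covering numbers of a set of translations. -/
def CovD (β C : ℝ) (B : Set Y) : Prop :=
  ∀ j : ℕ, ∃ F : Finset Y, (F.card : ℝ) ≤ C * 2 ^ (β * j) ∧ B ⊆ ⋃ b ∈ F, ball b ((1 / 2) ^ j)

theorem step_core {μ : Measure S} {T : S → X →L[ℝ] Y} (hT : Measurable T) {r : ℝ}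
    (htr : TransvD μ T r) {A : Set S} {K : Set (X × Y)} {B : S → Set Y} {e c a R β CB : ℝ} {p : ℕ}
    (hc : 0 < c) (ha : 0 < a) (hR : 0 ≤ R) (hCB : 0 < CB) (hA : μ A ≠ 0) (hTR : ∀ s ∈ A, ‖T s‖ ≤ R)
    (hB : ∀ s ∈ A, CovD β CB (B s))
    (hK : ∀ s ∈ A, BigC e c a p ({x | ∃ b ∈ B s, (x, T s x + b) ∈ K} ∩ ball 0 R)) :
    Big (2 * e + (finrank ℝ Y - r) + 2 * β) K := by
  obtain ⟨C, q, hC, htr⟩ := htr
  obtain ⟨c₀, hc₀, hpiece⟩ := exists_piece μ hA
  set VY : ℝ≥0∞ := volume (ball (0 : Y) 1) with hVY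
  have hVYtop : VY ≠ ∞ := measure_ball_lt_top.ne
  have hVY0 : VY ≠ 0 := (measure_ball_pos volume (0 : Y) one_pos).ne'
  set v : ℝ := VY.toReal with hv
  have hv0 : 0 < v := ENNReal.toReal_pos hVY0 hVYtop
  have hVYv : VY = ENNReal.ofReal v := (ENNReal.ofReal_toReal hVYtop).symm
  set m := finrank ℝ Y with hm
  set k := finrank ℝ X with hk
  set R' : ℝ := 8 + 4 * (R + a) with hR'
  have hR'0 : 0 < R' := by positivity
  refine ⟨c₀ ^ 2 * c ^ 2 * v / (CB ^ 2 * (2 ^ m * (R' ^ k * C))), 1 + a + R * a, 4 + 2 * p + q,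
    by positivity, by positivity, fun W hW => ?_⟩
  -- the set of parameters that are good at scale `j`
  set D : ℕ → S → Set X := fun j s => {x | x ∈ ball (0 : X) R ∧ ∃ b ∈ B s, (x, T s x + b) ∈ W j} with hD
  obtain ⟨j, hj⟩ := hpiece (fun j => {s | s ∈ A ∧
      ENNReal.ofReal (c * gw e p j) ≤ volume (thickening (a * (1 / 2) ^ j) (D j s))}) (by
    intro s hs
    obtain ⟨j, hj⟩ := hK s hs (fun j => D j s) (by
      rintro x ⟨⟨b, hb, hx1⟩, hx2⟩
      obtain ⟨j, hj⟩ := mem_iUnion.1 (hW hx1)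
      exact mem_iUnion.2 ⟨j, hx2, b, hb, hj⟩)
    exact mem_iUnion.2 ⟨j, hs, hj⟩)
  set P : Set S := {s | s ∈ A ∧
      ENNReal.ofReal (c * gw e p j) ≤ volume (thickening (a * (1 / 2) ^ j) (D j s))} with hP
  refine ⟨j, ?_⟩
  set δ : ℝ := (1 / 2) ^ j with hδ
  have hδ0 : 0 < δ := by positivity
  have hδ1 : δ ≤ 1 := pow_le_one₀ (by norm_num) (by norm_num)
  set NB : ℝ := CB * 2 ^ (β * j) with hNB
  have hNB0 : 0 < NB := by positivity
  obtain ⟨Cl, hClm, hCld, hClu, hCldiam⟩ := exists_cells hT hδ0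
  have hPne : P.Nonempty := by
    by_contra hcon
    rw [not_nonempty_iff_eq_empty] at hcon
    rw [hcon, measure_empty, nonpos_iff_eq_zero, ENNReal.ofReal_eq_zero] at hj
    have : 0 < c₀ / ((j : ℝ) + 1) ^ 2 := by positivity
    linarith
  have hchoice : ∀ i, ∃ s, s ∈ P ∧ ((P ∩ Cl i).Nonempty → s ∈ Cl i) := by
    intro i
    rcases (P ∩ Cl i).eq_empty_or_nonempty with h | ⟨s, hs⟩
    · obtain ⟨s, hs⟩ := hPne
      exact ⟨s, hs, fun h' => absurd h h'.ne_empty⟩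
    · exact ⟨s, hs.1, fun _ => hs.2⟩
  choose σ hσP hσC using hchoice
  set w : ℕ → ℝ≥0∞ := fun i => μ (P ∩ Cl i) with hw
  have hw0 : ∀ i, w i ≠ 0 → σ i ∈ Cl i := fun i hi => hσC i (by
    by_contra hcon
    rw [not_nonempty_iff_eq_empty] at hcon
    exact hi (by rw [hw]; dsimp only; rw [hcon, measure_empty]))
  have hwC : ∀ i, w i ≤ μ (Cl i) := fun i => measure_mono inter_subset_right
  set U : ℕ → Set (X × Y) := fun i => zone (T (σ i)) (B (σ i)) (W j) R a δ with hU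
  have hUm : ∀ i, MeasurableSet (U i) := fun i => (isOpen_zone _ _ _ _ _ _).measurableSet
  set Vδ : ℝ≥0∞ := ENNReal.ofReal ((2 * δ) ^ m) * VY with hVδ
  have hVδtop : Vδ ≠ ∞ := ENNReal.mul_ne_top ENNReal.ofReal_ne_top hVYtop
  set Q : ℝ≥0∞ := ENNReal.ofReal (NB ^ 2) * (ENNReal.ofReal (R' ^ k) * Vδ) with hQ
  have hQtop : Q ≠ ∞ := ENNReal.mul_ne_top ENNReal.ofReal_ne_top
    (ENNReal.mul_ne_top ENNReal.ofReal_ne_top hVδtop)
  -- intersections of two zones
  have hinter : ∀ i i', σ i ∈ Cl i → σ i' ∈ Cl i' → ∀ s ∈ Cl i, ∀ s' ∈ Cl i',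
      volume (U i ∩ U i') ≤ Q * volume (smallSet (T s - T s') δ) := by
    intro i i' hi hi' s hs s' hs'
    have hLL : ‖(T (σ i) - T (σ i')) - (T s - T s')‖ ≤ 2 * δ := by
      have h2 : (T (σ i) - T (σ i')) - (T s - T s') = (T (σ i) - T s) - (T (σ i') - T s') := by abel
      rw [h2]
      calc ‖(T (σ i) - T s) - (T (σ i') - T s')‖ ≤ ‖T (σ i) - T s‖ + ‖T (σ i') - T s'‖ := norm_sub_le _ _
        _ ≤ δ + δ := add_le_add (hCldiam i _ hi _ hs) (hCldiam i' _ hi' _ hs')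
        _ = 2 * δ := by ring
    obtain ⟨F, hFN, hF⟩ := hB (σ i) (hσP i).1 j
    obtain ⟨F', hFN', hF'⟩ := hB (σ i') (hσP i').1 j
    have h3 := volume_zone_inter_le (L := T (σ i)) (L' := T (σ i')) (R := R) ha hδ0 hδ1 (W j) (W j)
      F F' hF hF' hFN hFN' (Q := ENNReal.ofReal (R' ^ k) * volume (smallSet (T s - T s') δ))
      (fun c' => volume_strip_le (X := X) (R := R + a) (R' := R') hδ0 (by positivity) (by rw [hR']) hLL c')
    calc volume (U i ∩ U i') ≤ _ := h3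
      _ = Q * volume (smallSet (T s - T s') δ) := by rw [hQ, hVδ]; ring
  -- energy bound
  have henergy : ∑' i, ∑' i', w i * w i' * volume (U i ∩ U i') ≤
      Q * ENNReal.ofReal (C * 2 ^ (-(r * j)) * ((j : ℝ) + 1) ^ q) := by
    have h1 : ∀ i, σ i ∈ Cl i → ∀ s ∈ Cl i, ∑' i', w i' * volume (U i ∩ U i') ≤
        ∫⁻ s', Q * volume (smallSet (T s - T s') δ) ∂μ := by
      intro i hi s hs
      rw [← setLIntegral_univ, ← hClu, lintegral_iUnion hClm hCld]
      refine ENNReal.tsum_le_tsum fun i' => ?_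
      by_cases h0 : w i' = 0
      · rw [h0, zero_mul]; exact zero_le
      · have hi' := hw0 i' h0
        calc w i' * volume (U i ∩ U i') ≤ μ (Cl i') * volume (U i ∩ U i') := by
              gcongr
              exact hwC i'
          _ = ∫⁻ _ in Cl i', volume (U i ∩ U i') ∂μ := by rw [setLIntegral_const, mul_comm]
          _ ≤ _ := setLIntegral_mono' (hClm i') fun s' hs' => hinter i i' hi hi' s hs s' hs'
    have h2 : ∀ i, ∑' i', w i * w i' * volume (U i ∩ U i') ≤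
        ∫⁻ s in Cl i, ∫⁻ s', Q * volume (smallSet (T s - T s') δ) ∂μ ∂μ := by
      intro i
      by_cases h0 : w i = 0
      · simp [h0]
      · have hi := hw0 i h0
        simp_rw [mul_assoc]
        rw [ENNReal.tsum_mul_left]
        calc w i * ∑' i', w i' * volume (U i ∩ U i') ≤
            μ (Cl i) * ∑' i', w i' * volume (U i ∩ U i') := by
              gcongr
              exact hwC i
          _ = ∫⁻ _ in Cl i, ∑' i', w i' * volume (U i ∩ U i') ∂μ := by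
              rw [setLIntegral_const, mul_comm]
          _ ≤ _ := setLIntegral_mono' (hClm i) fun s hs => h1 i hi s hs
    calc ∑' i, ∑' i', w i * w i' * volume (U i ∩ U i') ≤
        ∑' i, ∫⁻ s in Cl i, ∫⁻ s', Q * volume (smallSet (T s - T s') δ) ∂μ ∂μ :=
          ENNReal.tsum_le_tsum h2
      _ = ∫⁻ s, ∫⁻ s', Q * volume (smallSet (T s - T s') δ) ∂μ ∂μ := by
          rw [← lintegral_iUnion hClm hCld, hClu, setLIntegral_univ]
      _ = Q * ∫⁻ s, ∫⁻ s', volume (smallSet (T s - T s') δ) ∂μ ∂μ := by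
          simp_rw [lintegral_const_mul' _ _ hQtop]
      _ ≤ _ := by gcongr; exact htr j
  have hCS := l2_union volume w U hUm _ henergy
  -- lower bound for the mass
  set vδ : ℝ≥0∞ := ENNReal.ofReal (δ ^ m) * VY with hvδ
  have hmass : ENNReal.ofReal (c₀ / ((j : ℝ) + 1) ^ 2) * (ENNReal.ofReal (c * gw e p j) * vδ) ≤
      ∑' i, w i * volume (U i) := by
    have h1 : ENNReal.ofReal (c₀ / ((j : ℝ) + 1) ^ 2) ≤ ∑' i, w i := by
      refine hj.trans ?_
      have h2 : P ⊆ ⋃ i, (P ∩ Cl i) := by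
        rw [← inter_iUnion, hClu, inter_univ]
      exact (measure_mono h2).trans (measure_iUnion_le _)
    calc ENNReal.ofReal (c₀ / ((j : ℝ) + 1) ^ 2) * (ENNReal.ofReal (c * gw e p j) * vδ) ≤
        (∑' i, w i) * (ENNReal.ofReal (c * gw e p j) * vδ) := by gcongr
      _ = ∑' i, w i * (ENNReal.ofReal (c * gw e p j) * vδ) := by rw [ENNReal.tsum_mul_right]
      _ ≤ ∑' i, w i * volume (U i) := by
          refine ENNReal.tsum_le_tsum fun i => ?_
          refine mul_le_mul_right ?_ _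
          exact (mul_le_mul_left (hσP i).2 _).trans (le_volume_zone _ _ _ _ _ hδ0)
  have hUsub : ⋃ i, U i ⊆ thickening ((1 + a + R * a) * δ) (W j) :=
    iUnion_subset fun i => zone_subset_thickening ha hδ0 (hTR _ (hσP i).1) _
  -- conclusion
  have hg := gw_pos e p j
  set N : ℝ := NB ^ 2 * (R' ^ k * ((2 * δ) ^ m * v)) * (C * 2 ^ (-(r * j)) * ((j : ℝ) + 1) ^ q) with hN
  have hN0 : 0 < N := by positivity
  set M : ℝ := c₀ / ((j : ℝ) + 1) ^ 2 * (c * gw e p j * (δ ^ m * v)) with hM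
  have hM0 : 0 < M := by positivity
  have h1 : ENNReal.ofReal (M ^ 2) ≤ ENNReal.ofReal N * volume (thickening ((1 + a + R * a) * δ) (W j)) := by
    calc ENNReal.ofReal (M ^ 2) = (ENNReal.ofReal (c₀ / ((j : ℝ) + 1) ^ 2) *
          (ENNReal.ofReal (c * gw e p j) * vδ)) ^ 2 := by
          rw [hvδ, hVYv, ← ENNReal.ofReal_mul (by positivity), ← ENNReal.ofReal_mul (by positivity),
            ← ENNReal.ofReal_mul (by positivity), ENNReal.ofReal_pow hM0.le]
      _ ≤ (∑' i, w i * volume (U i)) ^ 2 := by gcongr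
      _ ≤ _ := hCS
      _ ≤ ENNReal.ofReal N * volume (thickening ((1 + a + R * a) * δ) (W j)) := by
          refine mul_le_mul' (le_of_eq ?_) (measure_mono hUsub)
          rw [hQ, hVδ, hVYv, ← ENNReal.ofReal_mul (by positivity), ← ENNReal.ofReal_mul (by positivity),
            ← ENNReal.ofReal_mul (by positivity), ← ENNReal.ofReal_mul (by positivity)]
  have h2 : ENNReal.ofReal (M ^ 2 / N) ≤ volume (thickening ((1 + a + R * a) * δ) (W j)) := by
    rw [ENNReal.ofReal_div_of_pos hN0]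
    exact ENNReal.div_le_of_le_mul' h1
  refine le_trans (ENNReal.ofReal_le_ofReal (le_of_eq ?_)) h2
  -- the numerical identity
  have hj1 : (0 : ℝ) < (j : ℝ) + 1 := by positivity
  have hδm : δ ^ m = (2 : ℝ) ^ (-((m : ℝ) * j)) := by
    rw [hδ, ← pow_mul, one_div, inv_pow, Real.rpow_neg (by norm_num)]
    congr 1
    rw [← Real.rpow_natCast]
    congr 1
    push_cast
    ring
  have hgg : gw (2 * e + ((m : ℝ) - r) + 2 * β) (4 + 2 * p + q) j =
      (gw e p j) ^ 2 * (2 : ℝ) ^ (-((m : ℝ) * j)) / (2 : ℝ) ^ (-(r * j)) /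
        ((2 : ℝ) ^ (β * j)) ^ 2 / ((j : ℝ) + 1) ^ (4 + q) := by
    unfold gw
    have h3 : (2 : ℝ) ^ (-((2 * e + ((m : ℝ) - r) + 2 * β) * j)) =
        ((2 : ℝ) ^ (-(e * j))) ^ 2 * (2 : ℝ) ^ (-((m : ℝ) * j)) / (2 : ℝ) ^ (-(r * j)) /
          ((2 : ℝ) ^ (β * j)) ^ 2 := by
      rw [← Real.rpow_natCast ((2 : ℝ) ^ (-(e * j))) 2, ← Real.rpow_mul (by norm_num),
        ← Real.rpow_natCast ((2 : ℝ) ^ (β * j)) 2, ← Real.rpow_mul (by norm_num),
        ← Real.rpow_add (by norm_num), ← Real.rpow_sub (by norm_num), ← Real.rpow_sub (by norm_num)]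
      congr 1
      push_cast
      ring
    rw [h3, div_pow, ← pow_mul]
    have h4 : ((j : ℝ) + 1) ^ (4 + 2 * p + q) = ((j : ℝ) + 1) ^ (p * 2) * ((j : ℝ) + 1) ^ (4 + q) := by
      rw [← pow_add]
      congr 1
      ring
    rw [h4]
    field_simp
  rw [hgg, hM, hN, mul_pow 2 δ m, hδm, hNB]
  have h5 : (0 : ℝ) < 2 ^ (-((m : ℝ) * j)) := by positivity
  have h6 : (0 : ℝ) < 2 ^ (-(r * j)) := by positivity
  have h8 : (0 : ℝ) < 2 ^ (β * j) := by positivity
  set x5 : ℝ := 2 ^ (-((m : ℝ) * j)) with hx5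
  set x6 : ℝ := 2 ^ (-(r * j)) with hx6
  set x8 : ℝ := 2 ^ (β * j) with hx8
  have h7 : ((j : ℝ) + 1) ^ (4 + q) = ((j : ℝ) + 1) ^ 4 * ((j : ℝ) + 1) ^ q := pow_add _ _ _
  rw [h7]
  field_simp

end Pool.Agent.V5helper3.Kak
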