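import Pool.Agent.V5helper3.Kak.StepB

set_option autoImplicit false
set_option linter.unusedSectionVars false
set_option linter.deprecated false

open MeasureTheory Set Metric ENNReal NNReal Filter Topology Module
open scoped Pointwise

namespace Pool.Agent.V5helper3.Kak

variable {X : Type*} [NormedAddCommGroup X] [NormedSpace ℝ X] [MeasureSpace X] [BorelSpace X]
  [FiniteDimensional ℝ X] [Measure.IsAddHaarMeasure (volume : Measure X)]
variable {Y : Type*} [NormedAddCommGroup Y] [NormedSpace ℝ Y] [MeasureSpace Y] [BorelSpace Y]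
  [FiniteDimensional ℝ Y] [Measure.IsAddHaarMeasure (volume : Measure Y)]
variable {S : Type*} [MeasurableSpace S]

/-- A big set has a bounded part that is big. -/
theorem Big.inter_ball {e : ℝ} {K : Set X} (h : Big e K) : ∃ l : ℕ, Big e (K ∩ ball 0 l) := by
  apply Big.iUnion (K := fun l : ℕ => K ∩ ball 0 l)
  rw [← inter_iUnion, iUnion_ball_nat, inter_univ]
  exact h

theorem CovD.mono {β C C' : ℝ} {B : Set Y} (h : CovD β C B) (hC : C ≤ C') : CovD β C' B := by
  intro j
  obtain ⟨F, hF, hB⟩ := h j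
  refine ⟨F, hF.trans ?_, hB⟩
  gcongr

/-- **The step theorem.** -/
theorem step {μ : Measure S} {T : S → X →L[ℝ] Y} (hT : Measurable T) {r : ℝ}
    (htr : TransvD μ T r) {A : Set S} {K : Set (X × Y)} {e β : ℝ} (hA : μ A ≠ 0)
    (h : ∀ s ∈ A, ∃ B : ℕ → Set Y, (∀ l, ∃ C, CovD β C (B l)) ∧
      Big e {x | ∃ l, ∃ b ∈ B l, (x, T s x + b) ∈ K}) :
    Big (2 * e + (finrank ℝ Y - r) + 2 * β) K := by
  set good : ℕ → S → Prop := fun N s => ∃ B : Set Y, CovD β ((N : ℝ) + 1) B ∧
    BigC e (1 / ((N : ℝ) + 1)) ((N : ℝ) + 1) N ({x | ∃ b ∈ B, (x, T s x + b) ∈ K} ∩ ball 0 N)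
    with hgood
  set P : ℕ → Set S := fun N => {s | s ∈ A ∧ ‖T s‖ ≤ N ∧ good N s} with hP
  have hcov : A ⊆ ⋃ N, P N := by
    intro s hs
    obtain ⟨B, hB, hbig⟩ := h s hs
    have hU : {x | ∃ l, ∃ b ∈ B l, (x, T s x + b) ∈ K} = ⋃ l, {x | ∃ b ∈ B l, (x, T s x + b) ∈ K} := by
      ext x
      simp only [mem_setOf_eq, mem_iUnion]
    rw [hU] at hbig
    obtain ⟨l₀, hl₀⟩ := hbig.iUnion
    obtain ⟨C, hC⟩ := hB l₀
    obtain ⟨l, hl⟩ := hl₀.inter_ball
    obtain ⟨l', hl'⟩ := hl.exists_nat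
    obtain ⟨l'', hl''⟩ := exists_nat_ge (max ‖T s‖ C)
    have hc1 : l ≤ max (max l l') l'' := (le_max_left _ _).trans (le_max_left _ _)
    have hc2 : l' ≤ max (max l l') l'' := (le_max_right _ _).trans (le_max_left _ _)
    have hc3 : l'' ≤ max (max l l') l'' := le_max_right _ _
    set N := max (max l l') l'' with hN
    have hc3' : (l'' : ℝ) ≤ N := by exact_mod_cast hc3
    refine mem_iUnion.2 ⟨N, hs, ?_, B l₀, ?_, ?_⟩
    · exact (le_max_left _ _).trans (hl''.trans hc3')
    · refine hC.mono ?_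
      have : C ≤ N := (le_max_right _ _).trans (hl''.trans hc3')
      linarith
    · have h1 := hl' N hc2
      refine h1.mono le_rfl le_rfl le_rfl (by positivity) ?_
      apply inter_subset_inter_right
      apply ball_subset_ball
      exact_mod_cast hc1
  obtain ⟨N, hN⟩ : ∃ N, μ (P N) ≠ 0 := by
    by_contra hcon
    simp only [not_exists, not_not] at hcon
    exact hA (measure_mono_null hcov (measure_iUnion_null hcon))
  have hB : ∀ s, ∃ B : Set Y, s ∈ P N → CovD β ((N : ℝ) + 1) B ∧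
      BigC e (1 / ((N : ℝ) + 1)) ((N : ℝ) + 1) N ({x | ∃ b ∈ B, (x, T s x + b) ∈ K} ∩ ball 0 N) := by
    intro s
    by_cases hs : s ∈ P N
    · obtain ⟨B, hB⟩ := hs.2.2
      exact ⟨B, fun _ => hB⟩
    · exact ⟨∅, fun h => absurd h hs⟩
  choose B hB using hB
  have hN1 : (0 : ℝ) < 1 / ((N : ℝ) + 1) := by positivity
  exact (step_core hT htr (A := P N) (K := K) (B := B) (e := e) (c := 1 / ((N : ℝ) + 1))
    (a := (N : ℝ) + 1) (R := N) (p := N) (CB := (N : ℝ) + 1) hN1 (by positivity) (by positivity)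
    (by positivity) hN (fun s hs => hs.2.1) (fun s hs => (hB s hs).1) (fun s hs => (hB s hs).2))

/-- Bigness is invariant under linear isomorphisms. -/
theorem Big.image_equiv (φ : X ≃L[ℝ] Y) {e : ℝ} {K : Set X} (h : Big e K) : Big e (φ '' K) := by
  obtain ⟨c, a, p, hc, ha, h⟩ := h
  set L : ℝ := ‖(φ : X →L[ℝ] Y)‖ + 1 with hL
  have hL0 : 0 < L := by positivity
  have hmap : (volume : Measure X).map φ =
      Measure.addHaarScalarFactor ((volume : Measure X).map φ) (volume : Measure Y) • (volume : Measure Y) :=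
    Measure.isAddLeftInvariant_eq_smul _ _
  set κ : ℝ≥0 := Measure.addHaarScalarFactor ((volume : Measure X).map φ) (volume : Measure Y) with hκ
  have hκ0 : 0 < κ := Measure.addHaarScalarFactor_pos_of_isAddHaarMeasure _ _
  refine ⟨c / κ, L * a, p, by positivity, by positivity, fun W hW => ?_⟩
  obtain ⟨j, hj⟩ := h (fun j => φ ⁻¹' (W j)) (by
    intro x hx
    obtain ⟨j, hj⟩ := mem_iUnion.1 (hW (mem_image_of_mem φ hx))
    exact mem_iUnion.2 ⟨j, hj⟩)
  refine ⟨j, ?_⟩
  have hsub : thickening (a * (1 / 2) ^ j) (φ ⁻¹' (W j)) ⊆ φ ⁻¹' (thickening (L * a * (1 / 2) ^ j) (W j)) := by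
    intro x hx
    rw [mem_thickening_iff] at hx
    obtain ⟨y, hy, hxy⟩ := hx
    rw [mem_preimage, mem_thickening_iff]
    refine ⟨φ y, hy, ?_⟩
    have h1 : dist (φ x) (φ y) ≤ ‖(φ : X →L[ℝ] Y)‖ * dist x y := by
      rw [dist_eq_norm, dist_eq_norm, ← map_sub]
      exact (φ : X →L[ℝ] Y).le_opNorm _
    calc dist (φ x) (φ y) ≤ L * dist x y := by
          refine h1.trans ?_
          gcongr
          linarith
      _ < L * (a * (1 / 2) ^ j) := by gcongr
      _ = L * a * (1 / 2) ^ j := by ring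
  have h2 : ENNReal.ofReal (c * gw e p j) ≤ κ * volume (thickening (L * a * (1 / 2) ^ j) (W j)) := by
    calc ENNReal.ofReal (c * gw e p j) ≤ volume (φ ⁻¹' (thickening (L * a * (1 / 2) ^ j) (W j))) :=
          hj.trans (measure_mono hsub)
      _ = (volume : Measure X).map φ (thickening (L * a * (1 / 2) ^ j) (W j)) := by
          rw [Measure.map_apply φ.continuous.measurable isOpen_thickening.measurableSet]
      _ = κ * volume (thickening (L * a * (1 / 2) ^ j) (W j)) := by
          rw [hmap]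
          rfl
  have h3 : ENNReal.ofReal (c / κ * gw e p j) = ENNReal.ofReal (c * gw e p j) / κ := by
    rw [← ENNReal.ofReal_coe_nnreal, ← ENNReal.ofReal_div_of_pos (by positivity)]
    congr 1
    ring
  rw [h3]
  exact ENNReal.div_le_of_le_mul' h2

theorem Big.preimage_equiv (φ : X ≃L[ℝ] Y) {e : ℝ} {K : Set Y} (h : Big e K) : Big e (φ ⁻¹' K) := by
  have := h.image_equiv φ.symm
  rwa [φ.symm.image_eq_preimage_symm, φ.symm_symm] at this

end Pool.Agent.V5helper3.Kak
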