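import Mathlib

set_option autoImplicit false

open MeasureTheory Set Metric ENNReal Topology

namespace Pool.Agent.V5helper3.Kak

/-- `ℝ^n` with its Euclidean norm and Lebesgue measure. -/
abbrev E (n : ℕ) := EuclideanSpace ℝ (Fin n)

/-- `B` has packing dimension at most `γ`: for each `γ' > γ` it is contained in a countable union
of sets that can be covered, for all `0 < δ ≤ 1`, by `O(δ^(-γ'))` balls of radius `δ`. -/
def PackingDimLE {Y : Type} [PseudoMetricSpace Y] (γ : ℝ) (B : Set Y) : Prop :=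
  ∀ γ' > γ, ∃ B' : ℕ → Set Y, B ⊆ ⋃ l, B' l ∧ ∀ l, ∃ C : ℝ, ∀ δ : ℝ, 0 < δ → δ ≤ 1 →
    ∃ F : Finset Y, (F.card : ℝ) ≤ C * δ ^ (-γ') ∧ B' l ⊆ ⋃ b ∈ F, ball b δ

/-- The vectors `f j s`, `j < k'` (the columns of the matrix of the linear map
`x ↦ ∑ j, x j • f j s`) depend differentiably on `s ∈ A`, and the direction map is a submersion:
for all `s ∈ A` and `x ≠ 0` the derivative of `s ↦ ∑ j, x j • f j s` is onto. -/
def Submersive {p k' m : ℕ} (f : Fin k' → E p → E m) (A : Set (E p)) : Prop :=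
  ∃ D : Fin k' → E p → E p →L[ℝ] E m, (∀ j, ∀ s ∈ A, HasFDerivWithinAt (f j) (D j s) A s) ∧
    ∀ s ∈ A, ∀ x : E k', x ≠ 0 → Function.Surjective fun σ => ∑ j, x j • D j s σ

/-- The projection to `ℝ^k` of the trace of `K` on the union of the translates
`{(x, ∑ j, (π x) j • v j + b)}`, `b ∈ B`, of a `k`-plane in `ℝ^k × ℝ^m`. -/
def trace {k k' m : ℕ} (v : Fin k' → E m) (π : E k →ₗ[ℝ] E k') (B : Set (E m))
    (K : Set (E k × E m)) : Set (E k) :=
  {x | ∃ b ∈ B, (x, ∑ j, π x j • v j + b) ∈ K}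

/-- `P` contains a nondegenerate segment in every direction. -/
def HasSegments {k : ℕ} (P : Set (E k)) : Prop :=
  ∀ v : E k, v ≠ 0 → ∃ (z : E k) (l : ℝ), 0 < l ∧ ∀ τ ∈ Icc (0 : ℝ) l, z + τ • v ∈ P

/-- `P ⊆ ℝ^k` has Hausdorff dimension at least `t`, or `k = t = 2` and `P` contains a
nondegenerate segment in every direction. -/
def Large {k : ℕ} (t : ℝ) (P : Set (E k)) : Prop :=
  ENNReal.ofReal t ≤ dimH P ∨ (k = 2 ∧ t = 2 ∧ HasSegments P)

end Pool.Agent.V5helper3.Kak
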